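import Pool.Agent.HYE.Targets
import Pool.Agent.GTW.P_PTH

/-!
# HYE: CORE, the closed geodesic
-/

set_option autoImplicit false

open Finset

noncomputable section

namespace Pool.Agent.HYE

open Pool.Agent.GTW

namespace CoreAux

theorem c1 (q xs C r : ℂ) : crs ((q - xs) + (C - xs)) ((q + C - r) - xs) =
    crs (q - xs) ((q + C - r) - q) - crs (q - xs) (C - q) - crs (C - xs) (r - xs) := by
  simp only [crs_eq, Complex.add_re, Complex.add_im, Complex.sub_re, Complex.sub_im]; ring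

theorem c2 (q xs C r : ℂ) : crs ((q - xs) + (C - xs)) (r - xs) =
    crs (q - xs) (r - q) + crs (C - xs) (r - xs) := by
  simp only [crs_eq, Complex.add_re, Complex.add_im, Complex.sub_re, Complex.sub_im]; ring

theorem c3 (q C r : ℂ) (s k : ℝ) : crs (C - ((1 + k : ℝ) : ℂ) * ((s : ℂ) * q)) (r - (s : ℂ) * q) =
    crs (C - (s : ℂ) * q) (r - (s : ℂ) * q) + k * s * crs (-q) r := by
  simp only [crs_eq, Complex.sub_re, Complex.sub_im, Complex.neg_re,
    Complex.neg_im, Complex.mul_re, Complex.mul_im, Complex.ofReal_re, Complex.ofReal_im]; ring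

theorem c4 (q C r : ℂ) (s k : ℝ) :
    crs (C - ((1 + k : ℝ) : ℂ) * ((s : ℂ) * q)) ((C - r) - (s : ℂ) * q) =
    -(crs (C - ((k * s : ℝ) : ℂ) * q) (r - ((k * s : ℝ) : ℂ) * q) + s * crs (-q) r) := by
  simp only [crs_eq, Complex.sub_re, Complex.sub_im, Complex.neg_re,
    Complex.neg_im, Complex.mul_re, Complex.mul_im, Complex.ofReal_re, Complex.ofReal_im]; ring

theorem c5 (a b : ℂ) : crs a b = -crs b a := by
  simp only [crs_eq]; ring

theorem c6 (a b : ℂ) (t : ℝ) : crs a ((t : ℂ) * b) = t * crs a b := by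
  simp only [crs_eq, Complex.mul_re, Complex.mul_im, Complex.ofReal_re, Complex.ofReal_im]; ring

theorem c7 (a : ℂ) : crs a a = 0 := by
  simp only [crs_eq]; ring

theorem c8 (a b c : ℂ) : crs a (b - c) = crs a b - crs a c := by
  simp only [crs_eq, Complex.sub_re, Complex.sub_im]; ring

theorem c9 (a b c : ℂ) : crs a (b + c) = crs a b + crs a c := by
  simp only [crs_eq, Complex.add_re, Complex.add_im]; ring

theorem c10 (a b : ℂ) : crs (-a) b = -crs a b := by
  simp only [crs_eq, Complex.neg_re, Complex.neg_im]; ring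

theorem c11 (a b : ℂ) : crs a (-b) = -crs a b := by
  simp only [crs_eq, Complex.neg_re, Complex.neg_im]; ring

end CoreAux

open CoreAux

theorem P_CORE (h1 : T_FB) (h2 : T_LINE) (h3 : T_PASS) : T_CORE := by
  intro X ι rk h hn m1 m2 y T1 T2 hm1 hm2 hne hs1 hs2
  set v1 : ℂ := X.v y with hv1
  set q : ℂ := X.v (nx y) with hq
  have hvq : 0 < crs v1 q := crs_pos y
  obtain ⟨k, hk⟩ : ∃ k : ℝ, k = m2 / m1 := ⟨_, rfl⟩
  have hk0 : 0 < k := by rw [hk]; positivity
  have hkm : k * m1 = m2 := by rw [hk]; field_simp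
  have h1k : (0 : ℝ) < 1 + k := by linarith
  -- the first gallery
  have hψ1 : 0 < crs (-q) v1 := by rw [c10, c5 q v1]; linarith
  obtain ⟨N, lab, l, r, hg, hT, hl0, hlr0, hlrN, hh, hpg, hpal, hwed⟩ :=
    h1 X ι rk h hn m1 y T1 hs1 0 (-q) hψ1
  set C : ℂ := r N with hC
  have hr0 : r 0 = -v1 := by
    have := hlr0
    rw [hl0] at this
    linear_combination -this
  have hlN : l N = C + v1 := by linear_combination hlrN
  have hR : ∀ i ≤ N, crs (-q) (r i) < 0 := by
    intro i hi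
    have := hh.right i hi
    rwa [hl0, sub_zero] at this
  have hW : ∀ t : ℝ, 0 < t → ∀ i ≤ N, crs (C - (t : ℂ) * q) (r i - (t : ℂ) * q) ≤ 0 := by
    intro t ht i hi
    have := hwed t ht i hi
    have e : l 0 - (t : ℂ) * (-q) = (t : ℂ) * q := by rw [hl0]; ring
    rwa [e] at this
  have hL : ∀ i ≤ N, l i = C - r (N - i) := by
    intro i hi
    have := (hpal i hi).2
    rw [hl0] at this
    linear_combination this
  have hqC : 0 < crs q C := by
    have := hR N le_rfl
    rw [c10] at this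
    linarith
  -- the point xs
  obtain ⟨xs, hxs⟩ : ∃ xs : ℂ, ((1 + k : ℝ) : ℂ) * xs = C := by
    refine ⟨C / ((1 + k : ℝ) : ℂ), ?_⟩
    have : ((1 + k : ℝ) : ℂ) ≠ 0 := by
      rw [Complex.ofReal_ne_zero]; exact h1k.ne'
    field_simp
  have hqx : 0 < crs q xs := by
    rw [← hxs, c6] at hqC
    exact (mul_pos_iff_of_pos_left h1k).mp hqC
  -- the second gallery
  have hψ2 : 0 < crs (q - xs) q := by
    rw [c5, c8, c7]; linarith
  obtain ⟨N', lab', l', r', hg', hT', hl0', hlr0', hlrN', hh', hpg', hpal', hwed'⟩ :=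
    h1 X ι rk h hn m2 (nx y) T2 hs2 q (q - xs) hψ2
  set C' : ℂ := r' N' with hC'
  have hr0' : r' 0 = 0 := by
    have := hlr0'
    rw [hl0'] at this
    linear_combination -this
  have hlN' : l' N' = C' + q := by linear_combination hlrN'
  have hL' : ∀ i ≤ N', l' i = q + C' - r' (N' - i) := by
    intro i hi
    have := (hpal' i hi).2
    rw [hl0'] at this
    linear_combination this
  have hW' : ∀ i ≤ N', crs (C' - xs) (r' i - xs) ≤ 0 := by
    intro i hi
    have := hwed' 1 one_pos i hi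
    have e : l' 0 - ((1 : ℝ) : ℂ) * (q - xs) = xs := by rw [hl0']; push_cast; ring
    rwa [e] at this
  have hLe' : ∀ i ≤ N', 0 ≤ crs (q - xs) (l' i - q) := by
    intro i hi
    have := hh'.left i hi
    rwa [hl0'] at this
  have hRi' : ∀ i ≤ N', crs (q - xs) (r' i - q) < 0 := by
    intro i hi
    have := hh'.right i hi
    rwa [hl0'] at this
  obtain ⟨D2, hD2⟩ : ∃ D2 : ℂ, D2 = (q - xs) + (C' - xs) := ⟨_, rfl⟩
  have hA' : ∀ i ≤ N', 0 < crs D2 (l' i - xs) := by
    intro i hi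
    have a1 := hLe' i hi
    rw [hL' i hi] at a1 ⊢
    rw [hD2, c1]
    have a2 := hRi' N' le_rfl
    have a3 := hW' (N' - i) (Nat.sub_le _ _)
    linarith
  have hB' : ∀ i ≤ N', crs D2 (r' i - xs) < 0 := by
    intro i hi
    rw [hD2, c2]
    have a2 := hRi' i hi
    have a3 := hW' i hi
    linarith
  have hst' : 0 < crs (l' 0 - r' 0) (xs - r' 0) := by
    rw [hlr0', hr0', sub_zero]; exact hqx
  obtain ⟨θ', u', hθ', hu0', hui', -⟩ := h2 N' l' r' hpg' xs D2 hA' hB' hst'
  have hDq : 0 < crs D2 q := by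
    have a1 := hA' 0 (Nat.zero_le _)
    have a2 := hB' 0 (Nat.zero_le _)
    rw [hl0', c8] at a1
    rw [hr0', zero_sub, c11] at a2
    linarith
  obtain ⟨s, hs⟩ : ∃ s : ℝ, s = θ' 0 := ⟨_, rfl⟩
  have hs0 : 0 < s := by rw [hs]; exact (hθ' 0 (Nat.zero_le _)).1
  have hs1' : s < 1 := by rw [hs]; exact (hθ' 0 (Nat.zero_le _)).2.1
  have hsq : (s : ℂ) * q = xs + (u' 0 : ℂ) * D2 := by
    have := (hθ' 0 (Nat.zero_le _)).2.2
    rw [hlr0', hr0', zero_add] at this
    rw [hs]; exact this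
  have hNq : C' + (θ' N' : ℂ) * q = xs + (u' N' : ℂ) * D2 := by
    have := (hθ' N' le_rfl).2.2
    rw [hlrN'] at this
    exact this
  have hθN : θ' N' = 1 - s := by
    have b1 : crs D2 ((s : ℂ) * q) = crs D2 (xs + (u' 0 : ℂ) * D2) := by rw [hsq]
    have b2 : crs D2 (C' + (θ' N' : ℂ) * q) = crs D2 (xs + (u' N' : ℂ) * D2) := by rw [hNq]
    rw [c6, c9, c6, c7] at b1
    rw [c9, c9, c6, c6, c7] at b2
    have b3 : crs D2 D2 = 0 := c7 D2
    have b4 : crs D2 D2 = crs D2 q - crs D2 xs + (crs D2 C' - crs D2 xs) := by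
      rw [← c8, ← c8, ← c9, ← hD2]
    rw [b3] at b4
    have b5 : (θ' N' - (1 - s)) * crs D2 q = 0 := by linarith
    rcases mul_eq_zero.mp b5 with b6 | b6
    · linarith
    · exact absurd b6 hDq.ne'
  obtain ⟨w, hw⟩ : ∃ w : ℂ, w = C - ((1 + k : ℝ) : ℂ) * ((s : ℂ) * q) := ⟨_, rfl⟩
  have hw2 : -w = (((1 + k) * u' 0 : ℝ) : ℂ) * D2 := by
    rw [hw, hsq, ← hxs]; push_cast; ring
  have hD2ne : D2 ≠ 0 := by
    intro h0
    rw [h0, crs_eq] at hDq
    simp at hDq
  have hku : (1 + k) * u' 0 ≠ 0 := (mul_pos h1k hu0').ne'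
  have hwne : w ≠ 0 := by
    intro h0
    rw [h0, neg_zero] at hw2
    rcases mul_eq_zero.mp hw2.symm with b | b
    · exact hku (by exact_mod_cast b)
    · exact hD2ne b
  -- the ray through the first gallery
  have hks : 0 < k * s := mul_pos hk0 hs0
  have hB : ∀ i ≤ N, crs w (r i - (s : ℂ) * q) < 0 := by
    intro i hi
    rw [hw, c3]
    have a1 := hW s hs0 i hi
    have a2 := mul_neg_of_pos_of_neg hks (hR i hi)
    linarith
  have hA : ∀ i ≤ N, 0 < crs w (l i - (s : ℂ) * q) := by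
    intro i hi
    rw [hL i hi, hw, c4]
    have a1 := hW (k * s) hks (N - i) (Nat.sub_le _ _)
    have a2 := mul_neg_of_pos_of_neg hs0 (hR (N - i) (Nat.sub_le _ _))
    linarith
  have hst : 0 < crs (l 0 - r 0) ((s : ℂ) * q - r 0) := by
    rw [hlr0, hr0, sub_neg_eq_add, c9, c6, c7]
    have := mul_pos hs0 hvq
    linarith
  obtain ⟨θ, u, hθ, hu0, hui, hlast⟩ := h2 N l r hpg ((s : ℂ) * q) w hA hB hst
  have huN : u N < 1 := by
    apply hlast
    have e : (s : ℂ) * q + w - C = -(((k * s : ℝ) : ℂ) * q) := by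
      rw [hw]; push_cast; ring
    rw [hlrN, e, c11, c6]
    have := mul_pos hks hvq
    linarith
  -- the two passages
  have hP1 : Pth w (nx y, s) (jj ι y, 1 - θ N) m1 := by
    have h4 := h3 X ι rk h hn m1 y T1 hm1 hs1 N lab l r hg hT w θ (fun i => u (i + 1) - u i)
      (fun i hi => ⟨(hθ i hi).1, (hθ i hi).2.1⟩) ?_ (nx y) s (u 0) rfl (nx_ne y) hs0 hs1' hu0
    · apply h4.1
      have e := (hθ 0 (Nat.zero_le _)).2.2
      rw [hlr0, hr0] at e
      rw [pt, pt, cor_nx]
      linear_combination e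
    · intro i hi
      refine ⟨by have := hui i hi; linarith, ?_⟩
      rw [(hθ (i + 1) hi).2.2, (hθ i hi.le).2.2]
      push_cast; ring
  have hP2 : Pth w (jj ι y, 1 - θ N) (nx y, s) m2⁻¹ := by
    have h4 := h3 X ι rk h hn m2 (nx y) T2 hm2 hs2 N' lab' l' r' hg' hT' (-w) θ'
      (fun i => (u' (i + 1) - u' i) / ((1 + k) * u' 0))
      (fun i hi => ⟨(hθ' i hi).1, (hθ' i hi).2.1⟩) ?_ y (1 - θ N) (m1 * (1 - u N)) rfl
      (nx_ne y).symm ?_ ?_ ?_
    · have h5 := h4.2
      rw [neg_neg, hθN] at h5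
      have e1 : 1 - (1 - s) = s := by ring
      rw [e1] at h5
      apply h5
      have e := (hθ N le_rfl).2.2
      rw [hlrN] at e
      have e2 : X.v (jj ι y) = -((m1 : ℂ) * v1) := hs1.self
      have e3 : X.v (jj ι (nx y)) = -((m2 : ℂ) * q) := hs2.self
      have e4 : cor (jj ι (nx y)) = cor (jj ι y) + X.v (jj ι y) := by
        rw [jj_nx, cor_nx]
      rw [pt, pt, e4, e3, e2, ← hs, ← hkm]
      push_cast
      rw [hw] at e ⊢
      push_cast at e ⊢
      linear_combination (-(m1 : ℂ)) * e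
    · intro i hi
      refine ⟨div_pos (by have := hui' i hi; linarith) (mul_pos h1k hu0'), ?_⟩
      rw [(hθ' (i + 1) hi).2.2, (hθ' i hi.le).2.2, hw2, ← mul_assoc, ← Complex.ofReal_mul,
        div_mul_cancel₀ _ hku]
      push_cast; ring
    · have := (hθ N le_rfl).2.1; linarith
    · have := (hθ N le_rfl).1; linarith
    · exact mul_pos hm1 (by linarith)
  have hP := Pth.trans hP1 hP2
  refine P_PTH X w hwne (nx y, s) (m1 * m2⁻¹) ?_ hP
  intro h0
  apply hne
  rwa [← div_eq_mul_inv, div_eq_one_iff_eq hm2.ne'] at h0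

end Pool.Agent.HYE
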