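import Pool.Agent.HYE.Targets

/-!
# HYE: the blocks CROSS and COMP
-/

set_option autoImplicit false

open Finset

noncomputable section

namespace Pool.Agent.HYE

open Pool.Agent.GTW

theorem CROSS_shift (N : ℕ) (f : ℕ → ℕ) (h0 : f 0 = 0) (hN : f N = 0) :
    ∑ i ∈ range N, f (i + 1) = ∑ i ∈ range N, f i := by
  have h1 := Finset.sum_range_succ f N
  have h2 := Finset.sum_range_succ' f N
  omega

theorem CROSS_cr_eq (S : TS) (x y : S.L) : S.cr x = y ↔ x = S.cr y := by
  constructor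
  · intro h; rw [← h, S.cr2]
  · intro h; rw [h, S.cr2]

theorem CROSS_J_inj (S : TS) {x y : S.L} (h : S.J x = S.J y) : x = y := by
  rw [← S.J2 x, h, S.J2]

theorem CROSS_cr_inj (S : TS) {x y : S.L} (h : S.cr x = S.cr y) : x = y := by
  rw [← S.cr2 x, h, S.cr2]

theorem P_CROSS : T_CROSS := by
  classical
  intro S a N lab l r ψ hg h0 y ha hJ hc hJc τ
  have hN : lab N = S.J (S.cr a) := by
    rw [S.Jcr]
    exact (CROSS_cr_eq S _ _).1 hg.exit
  set F : ℕ → ℕ := fun i => if (lab i = S.cr y ∨ lab i = S.J (S.cr y)) ∧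
    h0 + crs ψ (l i - l 0) < τ then 1 else 0 with hF
  set G : ℕ → ℕ := fun i => if (lab i = y ∨ lab i = S.J y) ∧
    -crs ψ (r i - l 0) - h0 < τ then 1 else 0 with hG
  have hF0 : F 0 = 0 := by
    simp only [hF]
    rw [if_neg]
    rintro ⟨h | h, -⟩
    · rw [hg.zero] at h
      exact hc (by rw [h, S.cr2])
    · rw [hg.zero] at h
      exact hJc (by rw [S.Jcr, h, S.J2, S.cr2])
  have hFN : F N = 0 := by
    simp only [hF]
    rw [if_neg]
    rintro ⟨h | h, -⟩
    · rw [hN, S.Jcr] at h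
      exact hJ (CROSS_cr_inj S h).symm
    · rw [hN] at h
      exact ha (CROSS_cr_inj S (CROSS_J_inj S h)).symm
  have hG0 : G 0 = 0 := by
    simp only [hG]
    rw [if_neg]
    rintro ⟨h | h, -⟩
    · rw [hg.zero] at h
      exact ha h.symm
    · rw [hg.zero] at h
      exact hJ (by rw [h, S.J2])
  have hGN : G N = 0 := by
    simp only [hG]
    rw [if_neg]
    rintro ⟨h | h, -⟩
    · rw [hN] at h
      exact hJc h.symm
    · rw [hN] at h
      exact hc (CROSS_J_inj S h).symm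
  have e1 : cS S N lab l r ψ h0 y τ = ∑ i ∈ range N, F i + ∑ i ∈ range N, G (i + 1) := by
    rw [← sum_add_distrib]
    unfold cS
    refine sum_congr rfl fun i _ => ?_
    have h1 : (S.cr (lab i) = y ∨ S.cr (lab i) = S.J y) ↔
        (lab i = S.cr y ∨ lab i = S.J (S.cr y)) := by
      rw [CROSS_cr_eq, CROSS_cr_eq, S.Jcr]
    simp only [hF, hG, h1]
  have e2 : cE S N lab l r ψ h0 (S.cr y) τ =
      ∑ i ∈ range N, G i + ∑ i ∈ range N, F (i + 1) := by
    rw [← sum_add_distrib]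
    unfold cE
    refine sum_congr rfl fun i _ => ?_
    have h1 : (S.cr (lab i) = S.cr y ∨ S.cr (lab i) = S.J (S.cr y)) ↔
        (lab i = y ∨ lab i = S.J y) := by
      rw [CROSS_cr_eq, CROSS_cr_eq, S.cr2, S.Jcr, S.cr2]
    simp only [hF, hG, h1]
  rw [e1, e2, CROSS_shift N F hF0 hFN, CROSS_shift N G hG0 hGN, add_comm]

theorem COMP_crs_sub (ψ p q o : ℂ) : crs ψ (p - q) = crs ψ (p - o) - crs ψ (q - o) := by
  rw [crs_eq, crs_eq, crs_eq]
  simp only [Complex.sub_re, Complex.sub_im]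
  ring

theorem COMP_crs_neg (ψ p : ℂ) : crs ψ (-p) = -crs ψ p := by
  rw [crs_eq, crs_eq]
  simp only [Complex.neg_re, Complex.neg_im]
  ring

/-- the length of a side in the class of `y` -/
theorem COMP_len (S : TS) (ψ v : ℂ) (x y : S.L) (w : ℝ)
    (hw : w = crs ψ (S.e y) ∨ w = -crs ψ (S.e y)) (hw0 : 0 < w)
    (hx : x = y ∨ x = S.J y) (hv : v = S.e x ∨ v = -S.e x) (hpos : 0 < crs ψ v) :
    w = crs ψ v := by
  have h1 : crs ψ v = crs ψ (S.e y) ∨ crs ψ v = -crs ψ (S.e y) := by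
    rcases hx with rfl | rfl
    · rcases hv with rfl | rfl
      · left; rfl
      · right; rw [COMP_crs_neg]
    · rcases hv with rfl | rfl
      · right; rw [S.e_J, COMP_crs_neg]
      · left; rw [S.e_J, neg_neg]
  rcases h1 with h1 | h1 <;> rcases hw with h2 | h2 <;> linarith

theorem P_COMP : T_COMP := by
  classical
  intro S a N lab l r ψ hg hh h0 y w τ hw hw0 hl hr
  unfold cS cE cN
  rw [← sum_add_distrib]
  refine sum_congr rfl fun i hi => ?_
  rw [mem_range] at hi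
  have hpos : ∀ k ≤ N, 0 < crs ψ (l k - r k) := by
    intro k hk
    rw [COMP_crs_sub ψ (l k) (r k) (l 0)]
    have := hh.left k hk
    have := hh.right k hk
    linarith
  have t1 : ((if (S.cr (lab i) = y ∨ S.cr (lab i) = S.J y) ∧
        h0 + crs ψ (l i - l 0) < τ then 1 else 0) +
      (if (S.cr (lab i) = y ∨ S.cr (lab i) = S.J y) ∧
        -crs ψ (r i - l 0) - h0 < w - τ then 1 else 0) : ℕ) =
      if S.cr (lab i) = y ∨ S.cr (lab i) = S.J y then 1 else 0 := by
    by_cases hx : S.cr (lab i) = y ∨ S.cr (lab i) = S.J y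
    · have hwe : w = crs ψ (l i - r i) := by
        refine COMP_len S ψ (l i - r i) (S.cr (lab i)) y w hw hw0 hx ?_ (hpos i hi.le)
        right
        rw [S.e_cr, neg_neg, hg.vec i hi.le]
      rw [COMP_crs_sub ψ (l i) (r i) (l 0)] at hwe
      have hne := hl i hi.le
      rcases lt_or_gt_of_ne hne with h | h
      · rw [if_pos ⟨hx, h⟩, if_neg (by rintro ⟨-, h'⟩; linarith), if_pos hx]
      · rw [if_neg (by rintro ⟨-, h'⟩; linarith), if_pos ⟨hx, by linarith⟩, if_pos hx]
    · rw [if_neg (fun h => hx h.1), if_neg (fun h => hx h.1), if_neg hx]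
  have t2 : ((if (lab (i + 1) = y ∨ lab (i + 1) = S.J y) ∧
        -crs ψ (r (i + 1) - l 0) - h0 < τ then 1 else 0) +
      (if (lab (i + 1) = y ∨ lab (i + 1) = S.J y) ∧
        h0 + crs ψ (l (i + 1) - l 0) < w - τ then 1 else 0) : ℕ) =
      if lab (i + 1) = y ∨ lab (i + 1) = S.J y then 1 else 0 := by
    by_cases hx : lab (i + 1) = y ∨ lab (i + 1) = S.J y
    · have hwe : w = crs ψ (l (i + 1) - r (i + 1)) := by
        refine COMP_len S ψ (l (i + 1) - r (i + 1)) (lab (i + 1)) y w hw hw0 hx ?_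
          (hpos (i + 1) hi)
        left
        rw [hg.vec (i + 1) hi]
      rw [COMP_crs_sub ψ (l (i + 1)) (r (i + 1)) (l 0)] at hwe
      have hne := hr (i + 1) hi
      rcases lt_or_gt_of_ne hne with h | h
      · rw [if_pos ⟨hx, h⟩, if_neg (by rintro ⟨-, h'⟩; linarith), if_pos hx]
      · rw [if_neg (by rintro ⟨-, h'⟩; linarith), if_pos ⟨hx, by linarith⟩, if_pos hx]
    · rw [if_neg (fun h => hx h.1), if_neg (fun h => hx h.1), if_neg hx]
  rw [← t1, ← t2]
  ring

end Pool.Agent.HYE
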