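import Pool.Agent.HYE.Targets

/-!
# HYE: the number of end points is even
-/

set_option autoImplicit false

open Finset

noncomputable section

namespace Pool.Agent.HYE

open Pool.Agent.GTW

open Classical in
/-- indicator of `x ~ y` -/
def EVind (S : TS) (y x : S.L) : ℕ := if x = y ∨ x = S.J y then 1 else 0

variable {S : TS}

theorem EV_cr (y x : S.L) : EVind S y (S.cr x) = EVind S (S.cr y) x := by
  have h : (S.cr x = y ∨ S.cr x = S.J y) ↔ (x = S.cr y ∨ x = S.J (S.cr y)) := by
    constructor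
    · rintro (h | h)
      · left; rw [← h, S.cr2]
      · right; rw [S.Jcr, ← h, S.cr2]
    · rintro (h | h)
      · left; rw [h, S.cr2]
      · right; rw [h, S.Jcr, S.cr2]
  unfold EVind
  by_cases h1 : S.cr x = y ∨ S.cr x = S.J y
  · rw [if_pos h1, if_pos (h.1 h1)]
  · rw [if_neg h1, if_neg (fun h2 => h1 (h.2 h2))]

theorem EV_J (y x : S.L) : EVind S (S.J y) x = EVind S y x := by
  have h : (x = S.J y ∨ x = S.J (S.J y)) ↔ (x = y ∨ x = S.J y) := by
    rw [S.J2]; exact or_comm
  unfold EVind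
  by_cases h1 : x = y ∨ x = S.J y
  · rw [if_pos h1, if_pos (h.2 h1)]
  · rw [if_neg h1, if_neg (fun h2 => h1 (h.1 h2))]

theorem EV_nxinj {x y : S.L} (h : S.nx x = S.nx y) : x = y := by
  rw [← S.nx3 x, ← S.nx3 y, h]

theorem EV_nx (y x : S.L) : EVind S (S.nx y) (S.nx x) = EVind S y x := by
  have h : (S.nx x = S.nx y ∨ S.nx x = S.J (S.nx y)) ↔ (x = y ∨ x = S.J y) := by
    constructor
    · rintro (h | h)
      · left; exact EV_nxinj h
      · right; rw [S.Jnx] at h; exact EV_nxinj h
    · rintro (h | h)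
      · left; rw [h]
      · right; rw [h, S.Jnx]
  unfold EVind
  by_cases h1 : x = y ∨ x = S.J y
  · rw [if_pos h1, if_pos (h.2 h1)]
  · rw [if_neg h1, if_neg (fun h2 => h1 (h.1 h2))]

theorem EV_tri (y x : S.L) : EVind S y (S.nx x) + EVind S (S.nx y) (S.nx x) +
    EVind S (S.nx (S.nx y)) (S.nx x) =
    EVind S y x + EVind S (S.nx y) x + EVind S (S.nx (S.nx y)) x := by
  have h1 : EVind S y (S.nx x) = EVind S (S.nx (S.nx y)) x := by
    rw [← EV_nx (S.nx (S.nx y)) x, S.nx3]
  rw [h1, EV_nx, EV_nx]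
  ring

theorem EV_cN (N : ℕ) (lab : ℕ → S.L) (y : S.L) : cN S N lab y =
    ∑ i ∈ range N, EVind S (S.cr y) (lab i) + ∑ i ∈ range N, EVind S y (lab (i + 1)) := by
  rw [← Finset.sum_add_distrib]
  unfold cN
  refine Finset.sum_congr rfl fun i _ => ?_
  rw [← EV_cr]
  rfl

theorem EV_shift (N : ℕ) (f : ℕ → ℕ) :
    ∑ i ∈ range N, f (i + 1) + f 0 = ∑ i ∈ range N, f i + f N := by
  rw [← Finset.sum_range_succ', Finset.sum_range_succ]

theorem EV_pos {ψ : ℂ} {a : S.L} {N : ℕ} {lab : ℕ → S.L} {l r : ℕ → ℂ}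
    (hg : Gal S a N lab l r) (hh : Hug ψ N l r) (i : ℕ) (hi : i ≤ N) :
    0 < crs ψ (S.e (lab i)) := by
  rw [← hg.vec i hi]
  have h1 := hh.left i hi
  have h2 := hh.right i hi
  rw [crs_eq] at h1 h2 ⊢
  simp only [Complex.sub_re, Complex.sub_im] at *
  linarith

theorem P_EVEN (hM : T_MEM) : T_EVEN := by
  intro S a T hc N lab l r ψ hg hh
  rcases Nat.eq_zero_or_pos N with hN | hN
  · intro y _
    rw [EV_cN, hN]
    simp
  have hmem : ∀ i, 1 ≤ i → i ≤ N → lab i ∈ T := hM S a T hc N lab l r ψ hg hh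
  have hne : S.cr a ≠ S.J a := by
    have := hg.noexit 0 hN
    rwa [hg.zero] at this
  have hcra : S.cr a ∈ T := by
    rcases hc.cr_a with h | h
    · exact absurd h hne
    · exact h
  have hJa : S.J a ∉ T := by
    intro h
    have := hc.J_in _ h
    rw [S.J2] at this
    exact hc.a_nin this
  have hlN : lab N = S.J (S.cr a) := by
    have := hg.exit
    rw [← S.cr2 (lab N), this, S.Jcr]
  have hpa : 0 < crs ψ (S.e a) := by
    have := EV_pos hg hh 0 (Nat.zero_le _)
    rwa [hg.zero] at this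
  have hlne : ∀ i ≤ N, lab i ≠ S.cr a := by
    intro i hi h
    have h1 := EV_pos hg hh i hi
    rw [h, S.e_cr, crs_eq] at h1
    rw [crs_eq] at hpa
    simp only [Complex.neg_re, Complex.neg_im] at h1
    linarith
  have z0 : ∀ y, y ≠ a → y ≠ S.J a → EVind S y (lab 0) = 0 := by
    intro y h1 h2
    unfold EVind
    rw [hg.zero, if_neg]
    rintro (h | h)
    · exact h1 h.symm
    · exact h2 (by rw [h, S.J2])
  have zN : ∀ y, y ≠ S.cr a → y ≠ S.J (S.cr a) → EVind S y (lab N) = 0 := by
    intro y h1 h2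
    unfold EVind
    rw [hlN, if_neg]
    rintro (h | h)
    · exact h2 h.symm
    · apply h1
      have := congrArg S.J h
      rw [S.J2, S.J2] at this
      exact this.symm
  -- T1
  have T1 : ∀ y, Even (cN S N lab y + cN S N lab (S.nx y) + cN S N lab (S.nx (S.nx y))) := by
    intro y
    unfold cN
    rw [← Finset.sum_add_distrib, ← Finset.sum_add_distrib]
    refine Finset.even_sum _ fun i hi => ?_
    have hi' : i < N := Finset.mem_range.1 hi
    have key : EVind S y (lab (i + 1)) + EVind S (S.nx y) (lab (i + 1)) +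
        EVind S (S.nx (S.nx y)) (lab (i + 1)) =
        EVind S y (S.cr (lab i)) + EVind S (S.nx y) (S.cr (lab i)) +
        EVind S (S.nx (S.nx y)) (S.cr (lab i)) := by
      rcases hg.step i hi' with ⟨h, _⟩ | ⟨h, _⟩
      · rw [h, EV_tri]
      · rw [h, EV_tri, EV_tri]
    refine ⟨EVind S y (S.cr (lab i)) + EVind S (S.nx y) (S.cr (lab i)) +
        EVind S (S.nx (S.nx y)) (S.cr (lab i)), ?_⟩
    show (EVind S y (S.cr (lab i)) + EVind S y (lab (i + 1))) +
      (EVind S (S.nx y) (S.cr (lab i)) + EVind S (S.nx y) (lab (i + 1))) +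
      (EVind S (S.nx (S.nx y)) (S.cr (lab i)) + EVind S (S.nx (S.nx y)) (lab (i + 1))) = _
    omega
  -- T2
  have T2 : ∀ y, y ≠ a → y ≠ S.J a → y ≠ S.cr a → y ≠ S.J (S.cr a) →
      cN S N lab y = cN S N lab (S.cr y) := by
    intro y h1 h2 h3 h4
    have g1 : S.cr y ≠ a := fun h => h3 (by rw [← h, S.cr2])
    have g2 : S.cr y ≠ S.J a := fun h => h4 (by rw [S.Jcr, ← h, S.cr2])
    have g3 : S.cr y ≠ S.cr a := fun h => h1 (by rw [← S.cr2 y, h, S.cr2])
    have g4 : S.cr y ≠ S.J (S.cr a) := fun h => h2 (by rw [← S.cr2 y, h, S.Jcr, S.cr2])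
    rw [EV_cN, EV_cN, S.cr2]
    have s1 := EV_shift N fun i => EVind S y (lab i)
    have s2 := EV_shift N fun i => EVind S (S.cr y) (lab i)
    rw [z0 y h1 h2, zN y h3 h4] at s1
    rw [z0 _ g1 g2, zN _ g3 g4] at s2
    omega
  -- T3
  have T3 : ∀ y ∈ T, S.cr y = S.J y → Even (cN S N lab y) := by
    intro y hy h
    have h1 : y ≠ a := fun h => hc.a_nin (h ▸ hy)
    have h2 : y ≠ S.J a := fun h => hJa (h ▸ hy)
    have h3 : y ≠ S.cr a := by
      intro h'
      apply hne
      rw [h', S.cr2] at h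
      have := congrArg S.J h
      rw [S.J2] at this
      exact this.symm
    have h4 : y ≠ S.J (S.cr a) := by
      intro h'
      apply hne
      rw [h', S.J2, ← S.Jcr, S.cr2] at h
      exact h.symm
    rw [EV_cN, h]
    have s1 := EV_shift N fun i => EVind S y (lab i)
    rw [z0 y h1 h2, zN y h3 h4] at s1
    have e : ∑ i ∈ range N, EVind S (S.J y) (lab i) = ∑ i ∈ range N, EVind S y (lab i) :=
      Finset.sum_congr rfl fun i _ => EV_J _ _
    rw [e]
    refine ⟨∑ i ∈ range N, EVind S y (lab i), ?_⟩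
    omega
  -- T4
  have T4 : cN S N lab (S.cr a) = 2 := by
    rw [EV_cN, S.cr2]
    have e1 : ∑ i ∈ range N, EVind S a (lab i) = 1 := by
      rw [Finset.sum_eq_single_of_mem 0 (Finset.mem_range.2 hN)]
      · unfold EVind
        rw [hg.zero, if_pos (Or.inl rfl)]
      · intro i hi h0
        have hi' := Finset.mem_range.1 hi
        have hm := hmem i (by omega) (by omega)
        unfold EVind
        rw [if_neg]
        rintro (h | h)
        · exact hc.a_nin (h ▸ hm)
        · exact hJa (h ▸ hm)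
    have e2 : ∑ i ∈ range N, EVind S (S.cr a) (lab (i + 1)) = 1 := by
      rw [Finset.sum_eq_single_of_mem (N - 1) (Finset.mem_range.2 (by omega))]
      · have : N - 1 + 1 = N := by omega
        unfold EVind
        rw [this, hlN, if_pos (Or.inr rfl)]
      · intro i hi h0
        have hi' := Finset.mem_range.1 hi
        unfold EVind
        rw [if_neg]
        rintro (h | h)
        · exact hlne (i + 1) (by omega) h
        · apply hg.noexit (i + 1) (by omega)
          rw [h, S.Jcr, S.cr2]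
    rw [e1, e2]
  have TJ : ∀ y, cN S N lab (S.J y) = cN S N lab y := by
    intro y
    rw [EV_cN, EV_cN, ← S.Jcr]
    congr 1
    · exact Finset.sum_congr rfl fun i _ => EV_J _ _
    · exact Finset.sum_congr rfl fun i _ => EV_J _ _
  have main : ∀ n : ℕ, ∀ y ∈ T, S.rk y = n → Even (cN S N lab y) := by
    intro n
    induction n using Nat.strong_induction_on with
    | _ n ih =>
      intro y hy hn
      by_cases h1 : y = S.cr a
      · rw [h1, T4]; exact even_two
      by_cases h2 : y = S.J (S.cr a)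
      · rw [h2, TJ, T4]; exact even_two
      by_cases h3 : S.cr y = S.J y
      · exact T3 y hy h3
      have hcy : S.cr y ∈ T := hc.cr_in y hy h1 h2
      obtain ⟨r1, r2⟩ := S.rk_lt y h3
      have i1 := ih _ (hn ▸ r1) _ (hc.nx_in _ hcy) rfl
      have i2 := ih _ (hn ▸ r2) _ (hc.nx_in _ (hc.nx_in _ hcy)) rfl
      have i3 := T1 (S.cr y)
      rw [T2 y (fun h => hc.a_nin (h ▸ hy)) (fun h => hJa (h ▸ hy)) h1 h2]
      rw [Nat.even_add, Nat.even_add] at i3
      tauto
  intro y hy
  exact main _ y hy rfl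

end Pool.Agent.HYE
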