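import Pool.Agent.HYE.Targets

/-!
# HYE: the trajectory leaves a symmetric part (EXIT)
-/

set_option autoImplicit false

open Finset

noncomputable section

namespace Pool.Agent.HYE

open Pool.Agent.GTW

theorem EXIT_add (a b c : ℂ) : crs a (b + c) = crs a b + crs a c := by
  simp only [crs_eq, Complex.add_re, Complex.add_im]; ring

theorem EXIT_sub (a b c : ℂ) : crs a (b - c) = crs a b - crs a c := by
  simp only [crs_eq, Complex.sub_re, Complex.sub_im]; ring

theorem EXIT_neg (a b : ℂ) : crs a (-b) = -crs a b := by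
  simp only [crs_eq, Complex.neg_re, Complex.neg_im]; ring

/-- an infinite gallery of the trajectory -/
structure EXITSeq (S : TS) (a : S.L) (ψ l0 : ℂ) (x : ℕ → S.L) (l r : ℕ → ℂ) : Prop where
  x_zero : x 0 = a
  l_zero : l 0 = l0
  vec : ∀ n, l n - r n = S.e (x n)
  left : ∀ n, 0 ≤ crs ψ (l n - l0)
  right : ∀ n, crs ψ (r n - l0) < 0
  step : ∀ n, (x (n + 1) = S.nx (S.cr (x n)) ∧ r (n + 1) = r n) ∨
    (x (n + 1) = S.nx (S.nx (S.cr (x n))) ∧ l (n + 1) = l n)

open Classical in
/-- one step -/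
def EXITf (S : TS) (ψ l0 : ℂ) (s : S.L × ℂ × ℂ) : S.L × ℂ × ℂ :=
  if 0 ≤ crs ψ (s.2.2 + S.e (S.nx (S.cr s.1)) - l0) then
    (S.nx (S.cr s.1), s.2.2 + S.e (S.nx (S.cr s.1)), s.2.2)
  else (S.nx (S.nx (S.cr s.1)), s.2.1, s.2.2 + S.e (S.nx (S.cr s.1)))

theorem EXIT_seq (S : TS) (a : S.L) (ψ l0 : ℂ) (h : 0 < crs ψ (S.e a)) :
    ∃ (x : ℕ → S.L) (l r : ℕ → ℂ), EXITSeq S a ψ l0 x l r := by
  let st : ℕ → S.L × ℂ × ℂ := fun n => (EXITf S ψ l0)^[n] (a, l0, l0 - S.e a)
  have hst : ∀ n, st (n + 1) = EXITf S ψ l0 (st n) := fun n => Function.iterate_succ_apply' _ _ _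
  have key : ∀ n, (st n).2.1 - (st n).2.2 = S.e (st n).1 ∧ 0 ≤ crs ψ ((st n).2.1 - l0) ∧
      crs ψ ((st n).2.2 - l0) < 0 := by
    intro n
    induction n with
    | zero =>
      refine ⟨?_, ?_, ?_⟩
      · show l0 - (l0 - S.e a) = S.e a
        ring
      · show 0 ≤ crs ψ (l0 - l0)
        rw [sub_self, crs_eq]; simp
      · show crs ψ (l0 - S.e a - l0) < 0
        have e1 : l0 - S.e a - l0 = -S.e a := by ring
        rw [e1, EXIT_neg]
        linarith
    | succ n ih =>
      obtain ⟨h1, h2, h3⟩ := ih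
      have es := S.e_sum (S.cr (st n).1)
      rw [S.e_cr] at es
      rw [hst]
      unfold EXITf
      split_ifs with hc
      · refine ⟨?_, hc, h3⟩
        show (st n).2.2 + S.e (S.nx (S.cr (st n).1)) - (st n).2.2 = S.e (S.nx (S.cr (st n).1))
        ring
      · refine ⟨?_, h2, lt_of_not_ge hc⟩
        show (st n).2.1 - ((st n).2.2 + S.e (S.nx (S.cr (st n).1))) =
          S.e (S.nx (S.nx (S.cr (st n).1)))
        linear_combination h1 - es
  refine ⟨fun n => (st n).1, fun n => (st n).2.1, fun n => (st n).2.2, rfl, rfl,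
    fun n => (key n).1, fun n => (key n).2.1, fun n => (key n).2.2, fun n => ?_⟩
  show ((st (n + 1)).1 = _ ∧ (st (n + 1)).2.2 = _) ∨ ((st (n + 1)).1 = _ ∧ (st (n + 1)).2.1 = _)
  rw [hst]
  unfold EXITf
  split_ifs with hc
  · exact Or.inl ⟨rfl, rfl⟩
  · exact Or.inr ⟨rfl, rfl⟩

section
variable {S : TS} {a : S.L} {T : Set S.L} {ψ l0 : ℂ} {x : ℕ → S.L} {l r : ℕ → ℂ}

theorem EXIT_pos (hs : EXITSeq S a ψ l0 x l r) (n : ℕ) : 0 < crs ψ (S.e (x n)) := by
  rw [← hs.vec n]
  have e1 : l n - r n = (l n - l0) - (r n - l0) := by ring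
  rw [e1, EXIT_sub]
  have := hs.left n
  have := hs.right n
  linarith

theorem EXIT_mem (hC : Cap S a T) (hs : EXITSeq S a ψ l0 x l r)
    (hn : ∀ n, S.cr (x n) ≠ S.J a) : ∀ n, x (n + 1) ∈ T := by
  have key : ∀ n, S.cr (x n) ∈ T → x (n + 1) ∈ T := by
    intro n h
    rcases hs.step n with ⟨h1, -⟩ | ⟨h1, -⟩
    · rw [h1]; exact hC.nx_in _ h
    · rw [h1]; exact hC.nx_in _ (hC.nx_in _ h)
  intro n
  induction n with
  | zero =>
    refine key 0 ?_
    rcases hC.cr_a with h | h
    · exact absurd (by rw [hs.x_zero]; exact h) (hn 0)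
    · rw [hs.x_zero]; exact h
  | succ n ih =>
    refine key (n + 1) (hC.cr_in _ ih ?_ ?_)
    · intro h
      have h1 := EXIT_pos hs (n + 1)
      have h2 := EXIT_pos hs 0
      rw [h, S.e_cr, EXIT_neg] at h1
      rw [hs.x_zero] at h2
      linarith
    · intro h
      apply hn (n + 1)
      rw [h, ← S.Jcr, S.cr2]

/-- going back -/
theorem EXIT_back (hC : Cap S a T) (hs : EXITSeq S a ψ l0 x l r)
    (hn : ∀ n, S.cr (x n) ≠ S.J a) : ∀ i j : ℕ, i < j → x i = x j → ∀ D : ℂ, r j = r i + D →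
    (∀ k < i, ∀ k' < j, l k + D ≠ r k' ∧ r k + D ≠ l k') → False := by
  intro i
  induction i with
  | zero =>
    intro j hj hx D _ _
    obtain ⟨m, rfl⟩ : ∃ m, j = m + 1 := ⟨j - 1, by omega⟩
    have h1 := EXIT_mem hC hs hn m
    rw [← hx, hs.x_zero] at h1
    exact hC.a_nin h1
  | succ i ih =>
    intro j hj hx D hD hH
    obtain ⟨j, rfl⟩ : ∃ m, j = m + 1 := ⟨j - 1, by omega⟩
    have v1 := hs.vec (i + 1)
    have v2 := hs.vec (j + 1)
    have v3 := hs.vec i
    have v4 := hs.vec j
    rw [← hx] at v2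
    have hcr : ∀ u v : S.L, S.cr u = S.cr v → u = v := by
      intro u v h
      rw [← S.cr2 u, h, S.cr2]
    have hH' : ∀ k < i, ∀ k' < j, l k + D ≠ r k' ∧ r k + D ≠ l k' :=
      fun k hk k' hk' => hH k (by omega) k' (by omega)
    have s1 := S.e_sum (S.cr (x i))
    have s2 := S.e_sum (S.cr (x j))
    rw [S.e_cr] at s1 s2
    rcases hs.step i with ⟨a1, a2⟩ | ⟨a1, a2⟩ <;> rcases hs.step j with ⟨b1, b2⟩ | ⟨b1, b2⟩
    · -- both to the left
      have hxx : x i = x j := by
        apply hcr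
        rw [← S.nx3 (S.cr (x i)), ← S.nx3 (S.cr (x j)), ← a1, ← b1, hx]
      refine ih j (by omega) hxx D ?_ hH'
      rw [← b2, ← a2, hD]
    · -- left, right
      refine (hH i (by omega) j (by omega)).1 ?_
      have n1 : S.e (S.nx (x (i + 1))) = S.e (S.nx (S.nx (S.cr (x i)))) := by rw [a1]
      have n2 : S.e (S.nx (x (i + 1))) = -S.e (x j) := by
        rw [hx, b1, S.nx3, S.e_cr]
      rw [← a1] at s1
      rw [n2] at s1
      rw [← v1, ← v3, ← v4] at s1
      have v2' : l (j + 1) - r (j + 1) = l (i + 1) - r (i + 1) := by rw [v1, v2]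
      rw [a2] at s1
      rw [hD, b2, a2] at v2'
      linear_combination -s1 - v2'
    · -- right, left
      refine (hH i (by omega) j (by omega)).2 ?_
      have n1 : S.e (S.nx (x (j + 1))) = -S.e (x i) := by
        rw [← hx, a1, S.nx3, S.e_cr]
      rw [← b1] at s2
      rw [n1] at s2
      rw [← hx, ← v2, ← v3, ← v4] at s2
      have v2' : l (j + 1) - r (j + 1) = l (i + 1) - r (i + 1) := by rw [v1, v2]
      rw [b2] at s2
      have hD2 : r j = r (i + 1) + D := by rw [← b2, hD]
      rw [b2, a2] at v2'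
      linear_combination s2 - v2' - hD2
    · -- both to the right
      have hxx : x i = x j := by
        apply hcr
        have c1 : S.nx (x (i + 1)) = S.cr (x i) := by rw [a1, S.nx3]
        have c2 : S.nx (x (j + 1)) = S.cr (x j) := by rw [b1, S.nx3]
        rw [← c1, ← c2, hx]
      refine ih j (by omega) hxx D ?_ hH'
      have v2' : l (j + 1) - r (j + 1) = l (i + 1) - r (i + 1) := by rw [v1, v2]
      rw [← hxx] at v4
      rw [hD, b2, a2] at v2'
      linear_combination v3 - v4 + v2'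

theorem EXIT_stop (hC : Cap S a T) (hs : EXITSeq S a ψ l0 x l r) :
    ∃ n, S.cr (x n) = S.J a := by
  by_contra hcon
  push Not at hcon
  have back := EXIT_back hC hs hcon
  -- heights
  let w : ℕ → ℝ := fun n => -crs ψ (r n - l0)
  let u : ℕ → ℝ := fun n => -crs ψ (l n - l0)
  have hw : ∀ n, 0 < w n := fun n => by have := hs.right n; show 0 < -crs ψ (r n - l0); linarith
  have hu : ∀ n, u n ≤ 0 := fun n => by have := hs.left n; show -crs ψ (l n - l0) ≤ 0; linarith
  have ne : ∀ i j k k' : ℕ, (u k + (w j - w i) ≠ w k' → l k + (r j - r i) ≠ r k') ∧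
      (w k + (w j - w i) ≠ u k' → r k + (r j - r i) ≠ l k') := by
    intro i j k k'
    constructor
    · intro h1 h2
      apply h1
      show -crs ψ (l k - l0) + (-crs ψ (r j - l0) - -crs ψ (r i - l0)) = -crs ψ (r k' - l0)
      rw [← h2]
      simp only [EXIT_sub, EXIT_add]
      ring
    · intro h1 h2
      apply h1
      show -crs ψ (r k - l0) + (-crs ψ (r j - l0) - -crs ψ (r i - l0)) = -crs ψ (l k' - l0)
      rw [← h2]
      simp only [EXIT_sub, EXIT_add]
      ring
  have back2 : ∀ i j : ℕ, i < j → x i = x j →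
      (∀ k < i, ∀ k' < j, u k + (w j - w i) ≠ w k' ∧ w k + (w j - w i) ≠ u k') → False := by
    intro i j hij hx hH
    refine back i j hij hx (r j - r i) (by ring) fun k hk k' hk' => ?_
    exact ⟨(ne i j k k').1 (hH k hk k' hk').1, (ne i j k k').2 (hH k hk k' hk').2⟩
  -- records
  have hfin : Finite S.L := S.fin
  let R : Set ℕ := {n | ∀ k < n, w n < w k}
  have hinj : Set.InjOn x R := by
    have aux : ∀ i ∈ R, ∀ j ∈ R, x i = x j → ¬ i < j := by
      intro i hi j hj hx hij
      refine back2 i j hij hx fun k hk k' _ => ⟨?_, ?_⟩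
      · have h1 := hj i hij
        have h2 := hu k
        have h3 := hw k'
        intro h; linarith
      · have h1 := hi k hk
        have h2 := hw j
        have h3 := hu k'
        intro h; linarith
    intro i hi j hj hx
    rcases lt_trichotomy i j with h | h | h
    · exact absurd h (aux i hi j hj hx)
    · exact h
    · exact absurd h (aux j hj i hi hx.symm)
  have hRf : R.Finite := Set.Finite.of_finite_image (Set.toFinite _) hinj
  have hR0 : (0 : ℕ) ∈ R := fun k hk => absurd hk (Nat.not_lt_zero k)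
  obtain ⟨n0, -, hmin⟩ := Set.exists_min_image R w hRf ⟨0, hR0⟩
  have hrho : ∀ n, w n0 ≤ w n := by
    intro n
    induction n using Nat.strong_induction_on with
    | _ n ih =>
      by_cases h : n ∈ R
      · exact hmin n h
      · have h2 : ∃ k < n, w k ≤ w n := by
          by_contra h3
          push Not at h3
          exact h h3
        obtain ⟨k, hk, h4⟩ := h2
        exact (ih k hk).trans h4
  have hrp := hw n0
  -- the bound
  obtain ⟨B, hB⟩ : ∃ B : ℝ, ∀ y : S.L, crs ψ (S.e y) ≤ B := by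
    obtain ⟨B, hB⟩ := (Set.finite_range (fun y : S.L => crs ψ (S.e y))).bddAbove
    exact ⟨B, fun y => hB ⟨y, rfl⟩⟩
  have hwB : ∀ n, w n ≤ B := by
    intro n
    refine le_trans ?_ (hB (x n))
    rw [← hs.vec n]
    have e1 : l n - r n = (l n - l0) - (r n - l0) := by ring
    rw [e1, EXIT_sub]
    have := hs.left n
    show -crs ψ (r n - l0) ≤ _
    linarith
  let F : ℕ → S.L × Fin (⌊B / w n0⌋₊ + 1) := fun n =>
    (x n, ⟨⌊w n / w n0⌋₊, Nat.lt_succ_of_le (Nat.floor_le_floor
      (div_le_div_of_nonneg_right (hwB n) hrp.le))⟩)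
  have hF : Function.Injective F := by
    have aux : ∀ i j, F i = F j → ¬ i < j := by
      intro i j hF hij
      have h1 : x i = x j := congrArg Prod.fst hF
      have h2 : ⌊w i / w n0⌋₊ = ⌊w j / w n0⌋₊ := by
        have := congrArg Prod.snd hF
        exact congrArg Fin.val this
      have a1 := Nat.floor_le (div_nonneg (hw i).le hrp.le)
      have a2 := Nat.lt_floor_add_one (w i / w n0)
      have b1 := Nat.floor_le (div_nonneg (hw j).le hrp.le)
      have b2 := Nat.lt_floor_add_one (w j / w n0)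
      rw [h2] at a1 a2
      have c1 : w j / w n0 - w i / w n0 < 1 := by linarith
      have c2 : w i / w n0 - w j / w n0 < 1 := by linarith
      rw [← sub_div, div_lt_one hrp] at c1 c2
      refine back2 i j hij h1 fun k _ k' _ => ⟨?_, ?_⟩
      · have d1 := hu k
        have d2 := hrho k'
        intro h; linarith
      · have d1 := hrho k
        have d2 := hu k'
        intro h; linarith
    intro i j h
    rcases lt_trichotomy i j with h1 | h1 | h1
    · exact absurd h1 (aux i j h)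
    · exact h1
    · exact absurd h1 (aux j i h.symm)
  exact not_injective_infinite_finite F hF

end

theorem P_EXIT : T_EXIT := by
  intro S a T hC ψ l0 hψ
  obtain ⟨x, l, r, hs⟩ := EXIT_seq S a ψ l0 hψ
  have hex := EXIT_stop hC hs
  classical
  refine ⟨Nat.find hex, x, l, r, ⟨hs.x_zero, fun i _ => hs.vec i, fun i _ => hs.step i,
    fun i hi => Nat.find_min hex hi, Nat.find_spec hex⟩, hs.l_zero, ⟨fun i _ => ?_, fun i _ => ?_⟩⟩
  · rw [hs.l_zero]; exact hs.left i
  · rw [hs.l_zero]; exact hs.right i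

end Pool.Agent.HYE
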