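import Pool.Agent.HYE.Targets

/-!
# HYE: the points in which the edges of a gallery cross a ray
-/

set_option autoImplicit false

open Finset

noncomputable section

namespace Pool.Agent.HYE

open Pool.Agent.GTW

/-- one step, the right vertex is kept -/
theorem LINE_right (x d l r p : ℂ) :
    crs (p - r) (x - r) * crs d (l - r) - crs (l - r) (x - r) * crs d (p - r) =
      crs (l - r) (p - r) * crs d (r - x) := by
  simp only [crs_eq, Complex.sub_re, Complex.sub_im]
  ring

/-- one step, the left vertex is kept -/
theorem LINE_left (x d l r p : ℂ) :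
    crs (l - p) (x - p) * crs d (l - r) - crs (l - r) (x - r) * crs d (l - p) =
      -(crs (l - r) (p - r) * crs d (l - x)) := by
  simp only [crs_eq, Complex.sub_re, Complex.sub_im]
  ring

theorem P_MONO : T_MONO := by
  intro N l r hP x d hl hr hD i j hij
  induction j, hij using Nat.le_induction with
  | base => intro _; exact le_rfl
  | succ j hij ih =>
    intro hj
    have hj' : j < N := hj
    refine (ih hj'.le).trans ?_
    rw [div_le_div_iff₀ (hD j hj'.le) (hD (j + 1) hj)]
    have hlj := hl j hj'.le
    have hrj := hr j hj'.le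
    rcases hP j hj' with ⟨h1, h2⟩ | ⟨h1, h2⟩
    · have h3 := LINE_right x d (l j) (r j) (l (j + 1))
      rw [h1]
      have h4 : 0 ≤ crs (l j - r j) (l (j + 1) - r j) * crs d (r j - x) :=
        mul_nonneg_of_nonpos_of_nonpos h2.le hrj
      linarith
    · have h3 := LINE_left x d (l j) (r j) (r (j + 1))
      rw [h1]
      have h4 : crs (l j - r j) (r (j + 1) - r j) * crs d (l j - x) ≤ 0 :=
        mul_nonpos_of_nonpos_of_nonneg h2.le hlj
      linarith

theorem P_LINE : T_LINE := by
  intro N l r hP x d hl hr h0
  have hsub : ∀ i, crs d (l i - r i) = crs d (l i - x) - crs d (r i - x) := by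
    intro i
    simp only [crs_eq, Complex.sub_re, Complex.sub_im]
    ring
  have hD : ∀ i ≤ N, 0 < crs d (l i - r i) := by
    intro i hi
    have h1 := hl i hi
    have h2 := hr i hi
    rw [hsub i]
    linarith
  refine ⟨fun i => -crs d (r i - x) / crs d (l i - r i),
    fun i => crs (l i - r i) (x - r i) / crs d (l i - r i), ?_, ?_, ?_, ?_⟩
  · intro i hi
    have hDi := hD i hi
    refine ⟨div_pos (by linarith [hr i hi]) hDi, ?_, ?_⟩
    · rw [div_lt_one hDi, hsub i]
      linarith [hl i hi]
    · have hne : crs d (l i - r i) ≠ 0 := hDi.ne'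
      apply Complex.ext
      · simp only [Complex.add_re, Complex.mul_re, Complex.ofReal_re, Complex.ofReal_im,
          Complex.sub_re, zero_mul, sub_zero]
        field_simp
        simp only [crs_eq, Complex.sub_re, Complex.sub_im]
        ring
      · simp only [Complex.add_im, Complex.mul_im, Complex.ofReal_re, Complex.ofReal_im,
          Complex.sub_im, zero_mul, add_zero]
        field_simp
        simp only [crs_eq, Complex.sub_re, Complex.sub_im]
        ring
  · exact div_pos h0 (hD 0 (Nat.zero_le _))
  · intro i hi
    have hlj := hl i hi.le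
    have hrj := hr i hi.le
    show crs (l i - r i) (x - r i) / crs d (l i - r i) <
      crs (l (i + 1) - r (i + 1)) (x - r (i + 1)) / crs d (l (i + 1) - r (i + 1))
    rw [div_lt_div_iff₀ (hD i hi.le) (hD (i + 1) hi)]
    rcases hP i hi with ⟨h1, h2⟩ | ⟨h1, h2⟩
    · have h3 := LINE_right x d (l i) (r i) (l (i + 1))
      rw [h1]
      have h4 : 0 < crs (l i - r i) (l (i + 1) - r i) * crs d (r i - x) :=
        mul_pos_of_neg_of_neg h2 hrj
      linarith
    · have h3 := LINE_left x d (l i) (r i) (r (i + 1))
      rw [h1]
      have h4 : crs (l i - r i) (r (i + 1) - r i) * crs d (l i - x) < 0 :=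
        mul_neg_of_neg_of_pos h2 hlj
      linarith
  · intro h1
    have hDN := hD N le_rfl
    show crs (l N - r N) (x - r N) / crs d (l N - r N) < 1
    rw [div_lt_one hDN]
    have h2 : crs (l N - r N) (x + d - r N) =
        crs (l N - r N) (x - r N) - crs d (l N - r N) := by
      simp only [crs_eq, Complex.sub_re, Complex.sub_im, Complex.add_re, Complex.add_im]
      ring
    linarith

end Pool.Agent.HYE
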