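import Pool.Agent.HYE.Targets

/-!
# HYE: MAIN (induction over the trees of triangles)
-/

set_option autoImplicit false

open Finset

noncomputable section

namespace Pool.Agent.HYE

open Pool.Agent.GTW

/-- `jj` of a side whose image is not glued to it -/
theorem MAIN_jj_ne {X : Glued} {ι : X.F → X.F} {rk : D X → ℕ} (h : Hyp X ι rk) {y : D X}
    (hy : X.glue y ≠ jj ι y) : X.glue (jj ι y) ≠ jj ι (jj ι y) := by
  intro h1
  apply hy
  rw [h.comm, jj_jj h.inv] at h1
  have h2 := congrArg (jj ι) h1
  rwa [jj_jj h.inv] at h2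

/-- the vectors of the two sides of an edge inside the polygons -/
theorem MAIN_v_glue {X : Glued} {ι : X.F → X.F} (hn : Nrm X ι) {y : D X}
    (hy : X.glue y ≠ jj ι y) : X.v (X.glue y) = -X.v y := by
  rw [X.v_glue, hn y hy]
  push_cast
  ring

/-- the factor of the third side of a triangle -/
theorem MAIN_third {X : Glued} {ι : X.F → X.F} (m : ℝ) (z : D X)
    (h1 : X.v (jj ι (nx z)) = -((m : ℂ) * X.v (nx z)))
    (h2 : X.v (jj ι (pv z)) = -((m : ℂ) * X.v (pv z))) :
    X.v (jj ι z) = -((m : ℂ) * X.v z) := by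
  have e1 := v_sum z
  have e2 := v_sum (jj ι z)
  rw [← jj_nx, ← jj_pv, h1, h2] at e2
  linear_combination e2 + (m : ℂ) * e1

/-- the step of the induction -/
theorem MAIN_step {X : Glued} {ι : X.F → X.F} {rk : D X → ℕ} (h : Hyp X ι rk)
    (hn : Nrm X ι) (y : D X) (hy : X.glue y ≠ jj ι y) (m : ℝ) (T1 T2 : Set X.F)
    (s1 : Sym X ι m (nx (X.glue y)) T1) (s2 : Sym X ι m (pv (X.glue y)) T2) :
    Sym X ι m y {f | f = (X.glue y).1 ∨ f ∈ T1 ∨ f ∈ T2} := by
  have hz : X.v (jj ι (X.glue y)) = -((m : ℂ) * X.v (X.glue y)) :=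
    MAIN_third m _ s1.self s2.self
  have hvy : X.v (X.glue y) = -X.v y := MAIN_v_glue hn hy
  have hvj : X.v (jj ι (X.glue y)) = -X.v (jj ι y) := by
    rw [← h.comm]
    exact MAIN_v_glue hn (MAIN_jj_ne h hy)
  have hself : X.v (jj ι y) = -((m : ℂ) * X.v y) := by
    rw [hvj, hvy] at hz
    linear_combination -hz
  refine ⟨?_, Or.inr (Or.inl rfl), ?_, hself, ?_⟩
  · rintro (h1 | h1 | h1)
    · rcases h.alt y with h2 | ⟨h2, h3⟩
      · exact hy h2
      · rcases eq_or (X.glue y) y h1 with h4 | h4 | h4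
        · exact X.glue_ne y h4.symm
        · rw [← h4] at h2
          exact lt_irrefl _ h2
        · rw [← h4] at h3
          exact lt_irrefl _ h3
    · have h2 : y ≠ X.glue (nx (X.glue y)) := by
        intro h3
        have h4 := congrArg X.glue h3
        rw [X.glue_glue] at h4
        exact nx_ne _ h4.symm
      rcases s1.cl y h1 h2 with h3 | h3
      · exact hy h3
      · exact s1.nin h3
    · have h2 : y ≠ X.glue (pv (X.glue y)) := by
        intro h3
        have h4 := congrArg X.glue h3
        rw [X.glue_glue] at h4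
        exact pv_ne _ h4.symm
      rcases s2.cl y h1 h2 with h3 | h3
      · exact hy h3
      · exact s2.nin h3
  · rintro w (h1 | h1 | h1) hw
    · rcases eq_or (X.glue y) w h1 with h4 | h4 | h4
      · exact absurd h4 hw
      · rw [h4]
        rcases s1.gin with h5 | h5
        · exact Or.inl h5
        · exact Or.inr (Or.inr (Or.inl h5))
      · rw [h4]
        rcases s2.gin with h5 | h5
        · exact Or.inl h5
        · exact Or.inr (Or.inr (Or.inr h5))
    · by_cases h2 : w = X.glue (nx (X.glue y))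
      · right; left
        rw [h2, X.glue_glue]
        rfl
      · rcases s1.cl w h1 h2 with h5 | h5
        · exact Or.inl h5
        · exact Or.inr (Or.inr (Or.inl h5))
    · by_cases h2 : w = X.glue (pv (X.glue y))
      · right; left
        rw [h2, X.glue_glue]
        rfl
      · rcases s2.cl w h1 h2 with h5 | h5
        · exact Or.inl h5
        · exact Or.inr (Or.inr (Or.inr h5))
  · rintro w (h1 | h1 | h1)
    · rcases eq_or (X.glue y) w h1 with h4 | h4 | h4
      · rw [h4]; exact hz
      · rw [h4]; exact s1.self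
      · rw [h4]; exact s2.self
    · exact s1.all w h1
    · exact s2.all w h1

/-- without hyperbolic geodesics, the part behind every side is symmetric up to a factor -/
theorem MAIN_all (hC : T_CORE) (X : Glued) (ι : X.F → X.F) (rk : D X → ℕ) (h : Hyp X ι rk)
    (hn : Nrm X ι) (hH : ¬ HasHyperbolic X) :
    ∀ (k : ℕ) (y : D X), rk y = k → ∃ (m : ℝ) (T : Set X.F), 0 < m ∧ Sym X ι m y T := by
  intro k
  induction k using Nat.strong_induction_on with
  | _ k ih =>
    intro y hk
    by_cases hy : X.glue y = jj ι y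
    · refine ⟨X.mu y, ∅, X.mu_pos y, ⟨fun h1 => h1, Or.inl hy, fun w h1 => h1.elim, ?_,
        fun w h1 => h1.elim⟩⟩
      rw [← hy]
      exact X.v_glue y
    · rcases h.alt y with h1 | ⟨h1, h2⟩
      · exact absurd h1 hy
      · obtain ⟨m1, T1, hm1, s1⟩ := ih _ (hk ▸ h1) _ rfl
        obtain ⟨m2, T2, hm2, s2⟩ := ih _ (hk ▸ h2) _ rfl
        have hm : m1 = m2 := by
          by_contra hne
          apply hH
          refine hC X ι rk h hn m1 m2 _ T1 T2 hm1 hm2 hne s1 ?_
          rw [nx_nx]
          exact s2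
        subst hm
        exact ⟨m1, _, hm1, MAIN_step h hn y hy m1 T1 T2 s1 s2⟩

/-- MAIN -/
theorem P_MAIN (hC : T_CORE) : T_MAIN := by
  intro X ι rk h hn
  by_cases hH : HasHyperbolic X
  · exact Or.inl hH
  right
  have hall : ∀ y : D X, ∃ (m : ℝ) (T : Set X.F), 0 < m ∧ Sym X ι m y T :=
    fun y => MAIN_all hC X ι rk h hn hH _ y rfl
  choose m T hm hS using hall
  have hnx : ∀ y, m y = m (nx y) := by
    intro y
    by_contra hne
    exact hH (hC X ι rk h hn _ _ y _ _ (hm y) (hm (nx y)) hne (hS y) (hS (nx y)))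
  have hM : ∀ y : D X, m y = m (y.1, 0) := by
    rintro ⟨f, i⟩
    have e0 := hnx (f, 0)
    have e1 := hnx (f, 1)
    have n0 : nx ((f, 0) : D X) = (f, 1) := rfl
    have n1 : nx ((f, 1) : D X) = (f, 2) := rfl
    rw [n0] at e0
    rw [n1] at e1
    fin_cases i
    · rfl
    · exact e0.symm
    · exact (e0.trans e1).symm
  refine ⟨fun f => Real.sqrt (m (f, 0)), fun f => Real.sqrt_pos.2 (hm _), ?_⟩
  intro x
  show Real.sqrt (m ((X.glue x).1, 0)) * X.mu x = Real.sqrt (m (x.1, 0))
  rw [← hM, ← hM]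
  have e1 := (hS x).self
  have e2 := (hS (X.glue x)).self
  have hv := v_ne x
  by_cases hx : X.glue x = jj ι x
  · have e3 := X.v_glue x
    have e4 : m x = X.mu x := by
      rw [← hx, e3] at e1
      have e5 : (X.mu x : ℂ) * X.v x = (m x : ℂ) * X.v x := by linear_combination -e1
      have e6 := mul_right_cancel₀ hv e5
      exact_mod_cast e6.symm
    have e5 : m (X.glue x) * X.mu x = 1 := by
      have e6 : jj ι (X.glue x) = x := by rw [hx, jj_jj h.inv]
      rw [e6, e3] at e2
      have e7 : ((m (X.glue x) * X.mu x : ℝ) : ℂ) * X.v x = ((1 : ℝ) : ℂ) * X.v x := by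
        push_cast
        linear_combination -e2
      have e8 := mul_right_cancel₀ hv e7
      exact_mod_cast e8
    rw [e4]
    have hp := X.mu_pos x
    have e6 : m (X.glue x) = (X.mu x)⁻¹ := eq_inv_of_mul_eq_one_left e5
    rw [e6, Real.sqrt_inv]
    have e7 := Real.mul_self_sqrt hp.le
    have e8 : Real.sqrt (X.mu x) ≠ 0 := (Real.sqrt_pos.2 hp).ne'
    nth_rewrite 2 [← e7]
    field_simp
  · have e3 := MAIN_v_glue hn hx
    have e4 : X.v (jj ι (X.glue x)) = -X.v (jj ι x) := by
      rw [← h.comm]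
      exact MAIN_v_glue hn (MAIN_jj_ne h hx)
    have e5 : m (X.glue x) = m x := by
      rw [e4, e3, e1] at e2
      have e6 : (m (X.glue x) : ℂ) * X.v x = (m x : ℂ) * X.v x := by linear_combination -e2
      have e7 := mul_right_cancel₀ hv e6
      exact_mod_cast e7
    rw [hn x hx, e5, mul_one]

end Pool.Agent.HYE
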