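import Pool.Agent.HYE.Targets2
import Pool.Agent.GTW.P_TH
import Pool.Agent.GTW.P_TRI

/-!
# HYE: examples of hyperelliptic affine surfaces of every genus which are not translation surfaces
-/

set_option autoImplicit false

open Finset

noncomputable section

namespace Pool.Agent.HYE

open Pool.Agent.GTW

/-- the heights of the vertices of the two polygons -/
def nvc (b : Bool) (k : ℕ) : ℝ := if b = false ∧ k = 1 then 3 / 2 else k

/-- the lengths of the vertical sides -/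
def nvd (b : Bool) (k : ℕ) : ℝ := nvc b (k + 1) - nvc b k

theorem nvd_true (k : ℕ) : nvd true k = 1 := by
  simp [nvd, nvc]

theorem nvd_false_zero : nvd false 0 = 3 / 2 := by
  simp [nvd, nvc]

theorem nvd_false_one : nvd false 1 = 1 / 2 := by
  simp only [nvd, nvc]
  norm_num

theorem nvd_false_two (k : ℕ) (hk : 2 ≤ k) : nvd false k = 1 := by
  have h1 : ¬ k = 1 := by omega
  have h2 : ¬ k = 0 := by omega
  simp [nvd, nvc, h1, h2]

theorem nvd_pos (b : Bool) (k : ℕ) : 0 < nvd b k := by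
  cases b
  · rcases Nat.lt_or_ge k 2 with h | h
    · interval_cases k
      · rw [nvd_false_zero]; norm_num
      · rw [nvd_false_one]; norm_num
    · rw [nvd_false_two k h]; norm_num
  · rw [nvd_true]; norm_num

/-- the vectors of the sides -/
def nvv (n : ℕ) (x : (Fin n × Bool) × Fin 3) : ℂ :=
  if x.2 = 0 then sg x.1.2 * (1 + nvc x.1.2 x.1.1.1 * Complex.I)
  else if x.2 = 1 then sg x.1.2 * (nvd x.1.2 x.1.1.1 * Complex.I)
  else -(sg x.1.2 * (1 + nvc x.1.2 (x.1.1.1 + 1) * Complex.I))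

/-- the gluing -/
def nvg (n : ℕ) (x : (Fin n × Bool) × Fin 3) : (Fin n × Bool) × Fin 3 :=
  if x.2 = 0 then
    (if x.1.1.1 = 0 then ((x.1.1, !x.1.2), 0)
      else ((⟨x.1.1.1 - 1, lt_of_le_of_lt (Nat.sub_le _ _) x.1.1.2⟩, x.1.2), 2))
  else if x.2 = 1 then ((x.1.1, !x.1.2), 1)
  else (if h : x.1.1.1 + 1 < n then ((⟨x.1.1.1 + 1, h⟩, x.1.2), 0)
    else ((x.1.1, !x.1.2), 2))

/-- the dilation factors -/
def nvm (n : ℕ) (x : (Fin n × Bool) × Fin 3) : ℝ :=
  if x.2 = 1 then nvd (!x.1.2) x.1.1.1 / nvd x.1.2 x.1.1.1 else 1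

theorem nv10 : ¬ (1 : Fin 3) = 0 := by decide
theorem nv20 : ¬ (2 : Fin 3) = 0 := by decide
theorem nv21 : ¬ (2 : Fin 3) = 1 := by decide
theorem nv01 : ¬ (0 : Fin 3) = 1 := by decide

theorem nvg_0 (n : ℕ) (k : Fin n) (b : Bool) (h : k.1 = 0) :
    nvg n ((k, b), 0) = ((k, !b), 0) := by
  simp [nvg, h]

theorem nvg_0' (n : ℕ) (k : Fin n) (b : Bool) (h : k.1 ≠ 0) :
    nvg n ((k, b), 0) = ((⟨k.1 - 1, lt_of_le_of_lt (Nat.sub_le _ _) k.2⟩, b), 2) := by
  simp [nvg, h]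

theorem nvg_1 (n : ℕ) (k : Fin n) (b : Bool) : nvg n ((k, b), 1) = ((k, !b), 1) := by
  simp [nvg]

theorem nvg_2 (n : ℕ) (k : Fin n) (b : Bool) (h : k.1 + 1 < n) :
    nvg n ((k, b), 2) = ((⟨k.1 + 1, h⟩, b), 0) := by
  simp [nvg, h]

theorem nvg_2' (n : ℕ) (k : Fin n) (b : Bool) (h : ¬ k.1 + 1 < n) :
    nvg n ((k, b), 2) = ((k, !b), 2) := by
  simp [nvg, h]

theorem nvg_nvg (n : ℕ) (x : (Fin n × Bool) × Fin 3) : nvg n (nvg n x) = x := by
  rcases x with ⟨⟨k, b⟩, i⟩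
  fin_cases i
  · show nvg n (nvg n ((k, b), 0)) = ((k, b), 0)
    by_cases h : k.1 = 0
    · rw [nvg_0 n k b h, nvg_0 n k (!b) h, Bool.not_not]
    · rw [nvg_0' n k b h]
      have h2 : (⟨k.1 - 1, lt_of_le_of_lt (Nat.sub_le _ _) k.2⟩ : Fin n).1 + 1 < n := by
        show k.1 - 1 + 1 < n
        have := k.2
        omega
      rw [nvg_2 n _ b h2]
      have h3 : (⟨(⟨k.1 - 1, lt_of_le_of_lt (Nat.sub_le _ _) k.2⟩ : Fin n).1 + 1, h2⟩ :
          Fin n) = k := by
        apply Fin.ext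
        show k.1 - 1 + 1 = k.1
        omega
      rw [h3]
  · show nvg n (nvg n ((k, b), 1)) = ((k, b), 1)
    rw [nvg_1, nvg_1, Bool.not_not]
  · show nvg n (nvg n ((k, b), 2)) = ((k, b), 2)
    by_cases h : k.1 + 1 < n
    · rw [nvg_2 n k b h]
      have h2 : (⟨k.1 + 1, h⟩ : Fin n).1 ≠ 0 := by
        show k.1 + 1 ≠ 0
        omega
      rw [nvg_0' n _ b h2]
      have h3 : (⟨(⟨k.1 + 1, h⟩ : Fin n).1 - 1, lt_of_le_of_lt (Nat.sub_le _ _)
          (⟨k.1 + 1, h⟩ : Fin n).2⟩ : Fin n) = k := by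
        apply Fin.ext
        show k.1 + 1 - 1 = k.1
        omega
      rw [h3]
    · rw [nvg_2' n k b h, nvg_2' n k (!b) h, Bool.not_not]

theorem nvg_ne (n : ℕ) (x : (Fin n × Bool) × Fin 3) : nvg n x ≠ x := by
  rcases x with ⟨⟨k, b⟩, i⟩
  fin_cases i
  · show nvg n ((k, b), 0) ≠ ((k, b), 0)
    by_cases h : k.1 = 0
    · rw [nvg_0 n k b h]
      intro h2
      have h3 := congrArg (fun y => y.1.2) h2
      simp at h3
    · rw [nvg_0' n k b h]
      intro h2
      exact nv20 (congrArg Prod.snd h2)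
  · show nvg n ((k, b), 1) ≠ ((k, b), 1)
    rw [nvg_1]
    intro h2
    have h3 := congrArg (fun y => y.1.2) h2
    simp at h3
  · show nvg n ((k, b), 2) ≠ ((k, b), 2)
    by_cases h : k.1 + 1 < n
    · rw [nvg_2 n k b h]
      intro h2
      exact nv20 (congrArg Prod.snd h2).symm
    · rw [nvg_2' n k b h]
      intro h2
      have h3 := congrArg (fun y => y.1.2) h2
      simp at h3

theorem nvv_0 (n : ℕ) (k : Fin n) (b : Bool) :
    nvv n ((k, b), 0) = sg b * (1 + nvc b k.1 * Complex.I) := by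
  simp [nvv]

theorem nvv_1 (n : ℕ) (k : Fin n) (b : Bool) :
    nvv n ((k, b), 1) = sg b * (nvd b k.1 * Complex.I) := by
  simp [nvv]

theorem nvv_2 (n : ℕ) (k : Fin n) (b : Bool) :
    nvv n ((k, b), 2) = -(sg b * (1 + nvc b (k.1 + 1) * Complex.I)) := by
  simp [nvv]

theorem nvm_0 (n : ℕ) (k : Fin n) (b : Bool) : nvm n ((k, b), 0) = 1 := by
  simp [nvm]

theorem nvm_1 (n : ℕ) (k : Fin n) (b : Bool) :
    nvm n ((k, b), 1) = nvd (!b) k.1 / nvd b k.1 := by
  simp [nvm]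

theorem nvm_2 (n : ℕ) (k : Fin n) (b : Bool) : nvm n ((k, b), 2) = 1 := by
  simp [nvm]

theorem nv_glue_v (n : ℕ) (hn : 3 ≤ n) (x : (Fin n × Bool) × Fin 3) :
    nvv n (nvg n x) = -((nvm n x : ℂ) * nvv n x) := by
  rcases x with ⟨⟨k, b⟩, i⟩
  fin_cases i
  · show nvv n (nvg n ((k, b), 0)) = -((nvm n ((k, b), 0) : ℂ) * nvv n ((k, b), 0))
    rw [nvm_0, nvv_0]
    by_cases h : k.1 = 0
    · rw [nvg_0 n k b h, nvv_0, sg_not, h]
      have e : ∀ c : Bool, nvc c 0 = 0 := by intro c; simp [nvc]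
      rw [e, e]
      push_cast; ring
    · rw [nvg_0' n k b h, nvv_2]
      have e : (⟨k.1 - 1, lt_of_le_of_lt (Nat.sub_le _ _) k.2⟩ : Fin n).1 + 1 = k.1 := by
        show k.1 - 1 + 1 = k.1
        omega
      rw [e]
      push_cast; ring
  · show nvv n (nvg n ((k, b), 1)) = -((nvm n ((k, b), 1) : ℂ) * nvv n ((k, b), 1))
    rw [nvm_1, nvv_1, nvg_1, nvv_1, sg_not]
    have h : (nvd b k.1 : ℂ) ≠ 0 := by exact_mod_cast (nvd_pos b k.1).ne'
    push_cast
    field_simp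
  · show nvv n (nvg n ((k, b), 2)) = -((nvm n ((k, b), 2) : ℂ) * nvv n ((k, b), 2))
    rw [nvm_2, nvv_2]
    by_cases h : k.1 + 1 < n
    · rw [nvg_2 n k b h, nvv_0]
      push_cast; ring
    · rw [nvg_2' n k b h, nvv_2, sg_not]
      have e : ∀ c : Bool, nvc c (k.1 + 1) = (k.1 + 1 : ℕ) := by
        intro c
        have h2 : ¬ k.1 + 1 = 1 := by have := k.2; omega
        simp only [nvc, h2, and_false, if_false]
      rw [e, e]
      push_cast; ring

theorem nv_pos (n : ℕ) (f : Fin n × Bool) :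
    0 < ((starRingEnd ℂ) (nvv n (f, 0)) * nvv n (f, 1)).im := by
  rcases f with ⟨k, b⟩
  rw [nvv_0, nvv_1]
  have h := nvd_pos b k.1
  cases b <;> simp [sg, Complex.mul_im, Complex.mul_re] <;> linarith

/-- the surface -/
def nvX (n : ℕ) (hn : 3 ≤ n) : Glued where
  F := Fin n × Bool
  fin := inferInstance
  dec := inferInstance
  v := nvv n
  glue := nvg n
  mu := nvm n
  sum_zero := by
    rintro ⟨k, b⟩
    rw [nvv_0, nvv_1, nvv_2, nvd]
    push_cast; ring
  pos := nv_pos n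
  glue_glue := nvg_nvg n
  glue_ne := nvg_ne n
  mu_pos := by
    rintro ⟨⟨k, b⟩, i⟩
    fin_cases i
    · show 0 < nvm n ((k, b), 0)
      rw [nvm_0]; norm_num
    · show 0 < nvm n ((k, b), 1)
      rw [nvm_1]; exact div_pos (nvd_pos _ _) (nvd_pos _ _)
    · show 0 < nvm n ((k, b), 2)
      rw [nvm_2]; norm_num
  v_glue := nv_glue_v n hn

/-- the rank -/
def nvr (n : ℕ) (x : (Fin n × Bool) × Fin 3) : ℕ :=
  if x.2 = 0 then x.1.1.1 else if x.2 = 1 then 0 else n - 1 - x.1.1.1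

/-- the involution -/
def nvi (n : ℕ) (f : Fin n × Bool) : Fin n × Bool := (f.1, !f.2)

theorem nv_hyp (n : ℕ) (hn : 3 ≤ n) : Hyp (nvX n hn) (nvi n) (nvr n) where
  inv f := by
    rcases f with ⟨k, b⟩
    show (k, !!b) = (k, b)
    rw [Bool.not_not]
  comm x := by
    rcases x with ⟨⟨k, b⟩, i⟩
    show nvg n ((k, !b), i) = (nvi n (nvg n ((k, b), i)).1, (nvg n ((k, b), i)).2)
    fin_cases i
    · show nvg n ((k, !b), 0) = (nvi n (nvg n ((k, b), 0)).1, (nvg n ((k, b), 0)).2)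
      by_cases h : k.1 = 0
      · rw [nvg_0 n k b h, nvg_0 n k (!b) h]; rfl
      · rw [nvg_0' n k b h, nvg_0' n k (!b) h]; rfl
    · show nvg n ((k, !b), 1) = (nvi n (nvg n ((k, b), 1)).1, (nvg n ((k, b), 1)).2)
      rw [nvg_1, nvg_1]; rfl
    · show nvg n ((k, !b), 2) = (nvi n (nvg n ((k, b), 2)).1, (nvg n ((k, b), 2)).2)
      by_cases h : k.1 + 1 < n
      · rw [nvg_2 n k b h, nvg_2 n k (!b) h]; rfl
      · rw [nvg_2' n k b h, nvg_2' n k (!b) h]; rfl
  alt x := by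
    rcases x with ⟨⟨k, b⟩, i⟩
    fin_cases i
    · show nvg n ((k, b), 0) = ((k, !b), 0) ∨
        (nvr n ((nvg n ((k, b), 0)).1, (nvg n ((k, b), 0)).2 + 1) < nvr n ((k, b), 0) ∧
        nvr n ((nvg n ((k, b), 0)).1, (nvg n ((k, b), 0)).2 + 2) < nvr n ((k, b), 0))
      by_cases h : k.1 = 0
      · left; exact nvg_0 n k b h
      · right
        rw [nvg_0' n k b h]
        have e1 : ((2 : Fin 3) + 1) = 0 := rfl
        have e2 : ((2 : Fin 3) + 2) = 1 := rfl
        simp only [nvr, e1, e2, if_true, if_neg nv10]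
        omega
    · left
      exact nvg_1 n k b
    · show nvg n ((k, b), 2) = ((k, !b), 2) ∨
        (nvr n ((nvg n ((k, b), 2)).1, (nvg n ((k, b), 2)).2 + 1) < nvr n ((k, b), 2) ∧
        nvr n ((nvg n ((k, b), 2)).1, (nvg n ((k, b), 2)).2 + 2) < nvr n ((k, b), 2))
      by_cases h : k.1 + 1 < n
      · right
        rw [nvg_2 n k b h]
        have e1 : ((0 : Fin 3) + 1) = 1 := rfl
        have e2 : ((0 : Fin 3) + 2) = 2 := rfl
        simp only [nvr, e1, e2, if_true, if_neg nv10, if_neg nv20, if_neg nv21]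
        omega
      · left; exact nvg_2' n k b h

/-! ### one vertex -/

theorem nv_rot (n : ℕ) (hn : 3 ≤ n) (f : Fin n × Bool) (i : Fin 3) :
    (rot (nvX n hn)) (f, i) = nvg n (f, i + 2) := rfl

theorem nv_sc (n : ℕ) (hn : 3 ≤ n) (f : Fin n × Bool) (i : Fin 3) :
    (rot (nvX n hn)).SameCycle (f, i) (nvg n (f, i + 2)) := sc_rot_self (X := nvX n hn) (f, i)

theorem nv_sc0 (n : ℕ) (hn : 3 ≤ n) (k : ℕ) (hk : k < n) (b : Bool) :
    (rot (nvX n hn)).SameCycle ((⟨k, hk⟩, b), 0) ((⟨0, by omega⟩, b), 0) := by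
  induction k with
  | zero => exact Equiv.Perm.SameCycle.refl _ _
  | succ k ih =>
    have h1 := nv_sc n hn (⟨k, by omega⟩, b) 0
    have e : ((0 : Fin 3) + 2) = 2 := rfl
    rw [e, nvg_2 n ⟨k, by omega⟩ b hk] at h1
    exact h1.symm.trans (ih (by omega))

theorem nv_sc2 (n : ℕ) (hn : 3 ≤ n) (k : ℕ) (hk : k + 1 < n) (b : Bool) :
    (rot (nvX n hn)).SameCycle ((⟨k, by omega⟩, b), 2) ((⟨k + 1, hk⟩, !b), 2) := by
  have h1 := nv_sc n hn (⟨k + 1, hk⟩, b) 1
  have e1 : ((1 : Fin 3) + 2) = 0 := rfl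
  have h0 : (⟨k + 1, hk⟩ : Fin n).1 ≠ 0 := Nat.succ_ne_zero k
  rw [e1, nvg_0' n ⟨k + 1, hk⟩ b h0] at h1
  have h2 := nv_sc n hn (⟨k + 1, hk⟩, !b) 2
  have e2 : ((2 : Fin 3) + 2) = 1 := rfl
  rw [e2, nvg_1, Bool.not_not] at h2
  exact h1.symm.trans h2.symm

theorem nv_top (n : ℕ) (hn : 3 ≤ n) (b : Bool) :
    (rot (nvX n hn)).SameCycle ((⟨n - 1, by omega⟩, b), 2) ((⟨0, by omega⟩, !b), 0) := by
  have h1 := nv_sc n hn (⟨n - 1, by omega⟩, !b) 0
  have e : ((0 : Fin 3) + 2) = 2 := rfl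
  rw [e, nvg_2' n ⟨n - 1, by omega⟩ (!b) (by show ¬ n - 1 + 1 < n; omega), Bool.not_not] at h1
  exact h1.symm.trans (nv_sc0 n hn (n - 1) (by omega) (!b))

theorem nv_down (n : ℕ) (hn : 3 ≤ n) (j : ℕ) (hj : j < n) (b : Bool) :
    (rot (nvX n hn)).SameCycle ((⟨n - 1 - j, by omega⟩, b), 2)
      ((⟨0, by omega⟩, if Even j then !b else b), 0) := by
  induction j generalizing b with
  | zero =>
    simp only [Nat.sub_zero, Even.zero, if_true]
    exact nv_top n hn b
  | succ j ih =>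
    have h1 := nv_sc2 n hn (n - 1 - (j + 1)) (by omega) b
    have h2 := ih (by omega) (!b)
    have e : (⟨n - 1 - (j + 1) + 1, by omega⟩ : Fin n) = ⟨n - 1 - j, by omega⟩ := by
      apply Fin.ext
      show n - 1 - (j + 1) + 1 = n - 1 - j
      omega
    rw [e] at h1
    have h3 := h1.trans h2
    have e2 : (if Even j then !!b else !b) = (if Even (j + 1) then !b else b) := by
      by_cases hj2 : Even j
      · have : ¬ Even (j + 1) := by rw [Nat.even_add_one]; exact not_not.2 hj2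
        rw [if_pos hj2, if_neg this, Bool.not_not]
      · have : Even (j + 1) := by rw [Nat.even_add_one]; exact hj2
        rw [if_neg hj2, if_pos this]
    rw [e2] at h3
    exact h3

theorem nv_flip (n : ℕ) (hn : 3 ≤ n) (ho : Odd n) (b : Bool) :
    (rot (nvX n hn)).SameCycle ((⟨0, by omega⟩, b), 0) ((⟨0, by omega⟩, !b), 0) := by
  -- (0,b),1 ~ (0,!b),0
  have h1 := nv_sc n hn (⟨0, by omega⟩, b) 1
  have e1 : ((1 : Fin 3) + 2) = 0 := rfl
  rw [e1, nvg_0 n ⟨0, by omega⟩ b rfl] at h1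
  -- (0,!b),2 ~ (0,b),1
  have h2 := nv_sc n hn (⟨0, by omega⟩, !b) 2
  have e2 : ((2 : Fin 3) + 2) = 1 := rfl
  rw [e2, nvg_1, Bool.not_not] at h2
  have h3 := nv_down n hn (n - 1) (by omega) (!b)
  have he : Even (n - 1) := by
    obtain ⟨m, hm⟩ := ho
    exact ⟨m, by omega⟩
  rw [if_pos he, Bool.not_not] at h3
  have e : (⟨n - 1 - (n - 1), by omega⟩ : Fin n) = ⟨0, by omega⟩ := by
    apply Fin.ext
    show n - 1 - (n - 1) = 0
    omega
  rw [e] at h3
  exact (h3.symm.trans h2).trans h1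

theorem nv_all (n : ℕ) (hn : 3 ≤ n) (ho : Odd n) (x : D (nvX n hn)) :
    (rot (nvX n hn)).SameCycle x ((⟨0, by omega⟩, true), 0) := by
  have hb : ∀ b : Bool, (rot (nvX n hn)).SameCycle ((⟨0, by omega⟩, b), 0)
      ((⟨0, by omega⟩, true), 0) := by
    intro b
    cases b
    · exact nv_flip n hn ho false
    · exact Equiv.Perm.SameCycle.refl _ _
  have h2 : ∀ (k : Fin n) (b : Bool), (rot (nvX n hn)).SameCycle ((k, b), 2)
      ((⟨0, by omega⟩, true), 0) := by
    intro k b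
    have h3 := nv_down n hn (n - 1 - k.1) (by omega) b
    have e : (⟨n - 1 - (n - 1 - k.1), by omega⟩ : Fin n) = k := by
      apply Fin.ext
      show n - 1 - (n - 1 - k.1) = k.1
      have := k.2
      omega
    rw [e] at h3
    exact h3.trans (hb _)
  rcases x with ⟨⟨k, b⟩, i⟩
  fin_cases i
  · exact (nv_sc0 n hn k.1 k.2 b).trans (hb b)
  · have h3 := nv_sc n hn (k, !b) 2
    have e2 : ((2 : Fin 3) + 2) = 1 := rfl
    rw [e2, nvg_1, Bool.not_not] at h3
    exact h3.symm.trans (h2 k (!b))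
  · exact h2 k b

/-! ### the scale -/

/-- the scale at the darts with the number 2 -/
def nvT (b : Bool) (k : ℕ) : ℝ :=
  if k = 0 then (if b then 3 / 2 else 2)
  else if Odd k then (if b then 1 else 3) else (if b then 3 else 1)

/-- a scale at the vertex -/
def nvs (n : ℕ) (x : (Fin n × Bool) × Fin 3) : ℝ :=
  if x.2 = 0 then (if x.1.2 then 1 else 3)
  else if x.2 = 1 then
    (if x.1.1.1 = 0 then (if x.1.2 then 3 else 1) else nvT x.1.2 (x.1.1.1 - 1))
  else nvT x.1.2 x.1.1.1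

theorem nvT_step (b : Bool) (k : ℕ) :
    nvT (!b) k * (nvd (!b) (k + 1) / nvd b (k + 1)) = nvT b (k + 1) := by
  rcases Nat.eq_zero_or_pos k with h | h
  · subst h
    cases b <;> simp [nvT, nvd_true, nvd_false_one]
  · have h1 : nvd false (k + 1) = 1 := nvd_false_two _ (by omega)
    have h2 : ¬ k = 0 := by omega
    have h3 : ¬ k + 1 = 0 := by omega
    by_cases ho : Odd k
    · have h4 : ¬ Odd (k + 1) := by
        rw [Nat.not_odd_iff_even]
        exact ho.add_one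
      cases b <;> simp [nvT, nvd_true, h1, h2, ho, h4]
    · have h4 : Odd (k + 1) := (Nat.not_odd_iff_even.1 ho).add_one
      cases b <;> simp [nvT, nvd_true, h1, h2, ho, h4]

theorem nv_scale (n : ℕ) (hn : 3 ≤ n) (ho : Odd n) (x : D (nvX n hn)) :
    nvs n (rot (nvX n hn) x) * (nvX n hn).mu (pv x) = nvs n x := by
  rcases x with ⟨⟨k, b⟩, i⟩
  show nvs n (nvg n ((k, b), i + 2)) * nvm n ((k, b), i + 2) = nvs n ((k, b), i)
  fin_cases i
  · show nvs n (nvg n ((k, b), 2)) * nvm n ((k, b), 2) = nvs n ((k, b), 0)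
    rw [nvm_2, mul_one]
    by_cases h : k.1 + 1 < n
    · rw [nvg_2 n k b h]
      simp [nvs]
    · rw [nvg_2' n k b h]
      have hk := k.2
      have h0 : ¬ k.1 = 0 := by omega
      have he : ¬ Odd k.1 := by
        obtain ⟨m, hm⟩ := ho
        rw [Nat.not_odd_iff_even]
        exact ⟨m, by omega⟩
      cases b <;> simp [nvs, nvT, h0, he, nv20, nv21]
  · show nvs n (nvg n ((k, b), 0)) * nvm n ((k, b), 0) = nvs n ((k, b), 1)
    rw [nvm_0, mul_one]
    by_cases h : k.1 = 0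
    · rw [nvg_0 n k b h]
      cases b <;> simp [nvs, h]
    · rw [nvg_0' n k b h]
      simp [nvs, h, nv20, nv21]
  · show nvs n (nvg n ((k, b), 1)) * nvm n ((k, b), 1) = nvs n ((k, b), 2)
    rw [nvm_1, nvg_1]
    by_cases h : k.1 = 0
    · cases b
      · simp [nvs, nvT, h, nvd_true, nvd_false_zero]
        norm_num
      · simp [nvs, nvT, h, nvd_true, nvd_false_zero]
    · obtain ⟨j, hj⟩ : ∃ j, k.1 = j + 1 := ⟨k.1 - 1, by omega⟩
      have h2 := nvT_step b j
      simp only [nvs, nv10, nv20, nv21, if_false, if_true, hj, Nat.add_sub_cancel]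
      exact h2

theorem nvs_pos (n : ℕ) (x : (Fin n × Bool) × Fin 3) : 0 < nvs n x := by
  have hT : ∀ b k, 0 < nvT b k := by
    intro b k
    unfold nvT
    split_ifs <;> norm_num
  unfold nvs
  split_ifs <;> first | exact hT _ _ | norm_num

theorem nv_hol (n : ℕ) (hn : 3 ≤ n) (ho : Odd n) (x : D (nvX n hn)) (m : ℕ) :
    (∏ k ∈ range m, (nvX n hn).mu (pv (((rot (nvX n hn)) ^ k) x))) *
      nvs n (((rot (nvX n hn)) ^ m) x) = nvs n x := by
  induction m with
  | zero => simp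
  | succ m ih =>
    rw [prod_range_succ, pow_succ', Equiv.Perm.mul_apply]
    have h1 := nv_scale n hn ho (((rot (nvX n hn)) ^ m) x)
    rw [← ih, ← h1]
    ring

theorem nv_conn0 (n : ℕ) (hn : 3 ≤ n) (k : ℕ) (hk : k < n) (b : Bool) :
    Relation.ReflTransGen (fun a c : (nvX n hn).F => ∃ i j, (nvX n hn).glue (a, i) = (c, j))
      (⟨k, hk⟩, b) (⟨0, by omega⟩, b) := by
  induction k with
  | zero => exact Relation.ReflTransGen.refl
  | succ k ih =>
    refine Relation.ReflTransGen.head ?_ (ih (by omega))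
    exact ⟨0, 2, nvg_0' n ⟨k + 1, hk⟩ b (Nat.succ_ne_zero k)⟩

theorem nv_aff (n : ℕ) (hn : 3 ≤ n) (ho : Odd n) : IsAffine (nvX n hn) where
  conn f g := by
    have hs0 : Std.Symm (fun a c : (nvX n hn).F => ∃ i j, (nvX n hn).glue (a, i) = (c, j)) := by
      refine ⟨?_⟩
      rintro a c ⟨i, j, h⟩
      exact ⟨j, i, by rw [← h, (nvX n hn).glue_glue]⟩
    have hs1 : Std.Symm (Relation.ReflTransGen
        (fun a c : (nvX n hn).F => ∃ i j, (nvX n hn).glue (a, i) = (c, j))) :=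
      Relation.ReflTransGen.stdSymm
    have hs := hs1.symm
    have h0 : ∀ f : (nvX n hn).F, Relation.ReflTransGen
        (fun a c : (nvX n hn).F => ∃ i j, (nvX n hn).glue (a, i) = (c, j)) f
        (⟨0, by omega⟩, true) := by
      rintro ⟨k, b⟩
      have h1 := nv_conn0 n hn k.1 k.2 b
      cases b
      · exact h1.tail ⟨0, 0, nvg_0 n ⟨0, by omega⟩ false rfl⟩
      · exact h1
    exact (h0 f).trans (hs _ _ (h0 g))
  nonempty := ⟨(⟨0, by omega⟩, true)⟩
  hol x m hm := by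
    have h := nv_hol n hn ho x m
    rw [hm] at h
    have hp := nvs_pos n x
    exact (mul_eq_right₀ hp.ne').1 h
  cone x := by
    classical
    refine ⟨n, by omega, ?_⟩
    unfold tot
    rw [filter_true_of_mem (fun y _ => (nv_all n hn ho x).trans (nv_all n hn ho y).symm)]
    have hT := P_TRI P_TH
    have h1 : ∑ y : D (nvX n hn), th y = ∑ f : (nvX n hn).F, Real.pi := by
      rw [Fintype.sum_prod_type]
      apply sum_congr rfl
      intro f _
      rw [Fin.sum_univ_three]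
      exact hT (nvX n hn) (f, 0)
    have h2 : ∑ f : (nvX n hn).F, Real.pi = 2 * Real.pi * n := by
      rw [sum_const, card_univ]
      have h3 : Fintype.card (nvX n hn).F = n * 2 := by
        show Fintype.card (Fin n × Bool) = n * 2
        rw [Fintype.card_prod, Fintype.card_fin, Fintype.card_bool]
      rw [h3]
      simp only [nsmul_eq_mul]
      push_cast; ring
    rw [← h2, ← h1]

theorem P_NONV : T_NONV := by
  intro g hg
  have hn : 3 ≤ 2 * g - 1 := by omega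
  have ho : Odd (2 * g - 1) := ⟨g - 1, by omega⟩
  refine ⟨nvX (2 * g - 1) hn, nvi _, nvr _, nv_hyp _ hn, nv_aff _ hn ho, ?_, ?_⟩
  · have h1 : numV (nvX (2 * g - 1) hn) = 1 := by
      unfold numV
      rw [Nat.card_eq_one_iff_unique]
      refine ⟨⟨?_⟩, ⟨Quotient.mk _ ((⟨0, by omega⟩, true), 0)⟩⟩
      intro a b
      induction a using Quotient.inductionOn with
      | h x =>
        induction b using Quotient.inductionOn with
        | h y =>
          apply Quotient.sound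
          exact (nv_all _ hn ho x).trans (nv_all _ hn ho y).symm
    have h3 : Fintype.card (nvX (2 * g - 1) hn).F = (2 * g - 1) * 2 := by
      show Fintype.card (Fin (2 * g - 1) × Bool) = (2 * g - 1) * 2
      rw [Fintype.card_prod, Fintype.card_fin, Fintype.card_bool]
    have h2 : Fintype.card (D (nvX (2 * g - 1) hn)) = (2 * g - 1) * 2 * 3 := by
      rw [Fintype.card_prod, h3, Fintype.card_fin]
    unfold HasGenus
    rw [h1, h2, h3]
    omega
  · rintro ⟨c, hc, h⟩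
    have hp := hc (⟨0, by omega⟩, true)
    have h1 := h ((⟨0, by omega⟩, true), 0)
    have h2 := h ((⟨0, by omega⟩, true), 1)
    have e1 : (nvX (2 * g - 1) hn).glue ((⟨0, by omega⟩, true), 0) =
      ((⟨0, by omega⟩, false), 0) := nvg_0 (2 * g - 1) ⟨0, by omega⟩ true rfl
    have e2 : (nvX (2 * g - 1) hn).glue ((⟨0, by omega⟩, true), 1) =
      ((⟨0, by omega⟩, false), 1) := nvg_1 (2 * g - 1) ⟨0, by omega⟩ true
    have m1 : (nvX (2 * g - 1) hn).mu ((⟨0, by omega⟩, true), 0) = 1 :=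
      nvm_0 (2 * g - 1) ⟨0, by omega⟩ true
    have m2 : (nvX (2 * g - 1) hn).mu ((⟨0, by omega⟩, true), 1) = 3 / 2 := by
      have := nvm_1 (2 * g - 1) ⟨0, by omega⟩ true
      rw [Bool.not_true, nvd_false_zero, nvd_true, div_one] at this
      exact this
    rw [e1, m1] at h1
    rw [e2, m2] at h2
    simp only at h1 h2
    linarith

end Pool.Agent.HYE
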