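import Pool.Agent.HYE.Targets

/-!
# HYE: the normalisation
-/

set_option autoImplicit false

open Finset

noncomputable section

namespace Pool.Agent.HYE

open Pool.Agent.GTW

/-- a function on the triangles which makes the gluing maps in `Z` translations -/
theorem exists_scale (X : Glued) (ι : X.F → X.F) (rk : D X → ℕ) (h : Hyp X ι rk) :
    ∀ (n : ℕ) (Z : Finset (D X)), Z.card ≤ n → (∀ x ∈ Z, X.glue x ∈ Z) →
      (∀ x ∈ Z, X.glue x ≠ jj ι x) →
      ∃ S : X.F → ℝ, (∀ f, 0 < S f) ∧ ∀ x ∈ Z, S (X.glue x).1 * X.mu x = S x.1 := by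
  classical
  intro n
  induction n with
  | zero =>
    intro Z hZ _ _
    have h0 : Z = ∅ := by
      rw [← Finset.card_eq_zero]; omega
    refine ⟨fun _ => 1, fun _ => one_pos, ?_⟩
    intro x hx
    rw [h0] at hx
    exact absurd hx (Finset.notMem_empty x)
  | succ n ih =>
    intro Z hZ hg hj
    rcases Z.eq_empty_or_nonempty with h0 | hne
    · refine ⟨fun _ => 1, fun _ => one_pos, ?_⟩
      intro x hx
      rw [h0] at hx
      exact absurd hx (Finset.notMem_empty x)
    obtain ⟨x, hx, hmin⟩ := Finset.exists_min_image Z rk hne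
    have hz : X.glue x ∈ Z := hg x hx
    have halt := (h.alt x).resolve_left (hj x hx)
    have hnx : nx (X.glue x) ∉ Z := fun hc => absurd (hmin _ hc) (not_le.2 halt.1)
    have hpv : pv (X.glue x) ∉ Z := fun hc => absurd (hmin _ hc) (not_le.2 halt.2)
    have hxz : X.glue x ≠ x := X.glue_ne x
    obtain ⟨S', hS'pos, hS'⟩ := ih ((Z.erase x).erase (X.glue x)) (by
      rw [Finset.card_erase_of_mem (Finset.mem_erase.2 ⟨hxz, hz⟩), Finset.card_erase_of_mem hx]
      omega) (by
      intro y hy
      simp only [Finset.mem_erase, ne_eq] at hy ⊢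
      refine ⟨fun hc => hy.2.1 (glue_inj hc), fun hc => hy.1 ?_, hg y hy.2.2⟩
      rw [← hc, X.glue_glue]) (by
      intro y hy
      simp only [Finset.mem_erase, ne_eq] at hy
      exact hj y hy.2.2)
    have hx1 : x.1 ≠ (X.glue x).1 := by
      intro hc
      rcases eq_or (X.glue x) x hc with h1 | h1 | h1
      · exact hxz h1.symm
      · rw [← h1] at hnx
        exact hnx hx
      · rw [← h1] at hpv
        exact hpv hx
    have hZ' : ∀ y ∈ (Z.erase x).erase (X.glue x), y.1 ≠ (X.glue x).1 := by
      intro y hy hc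
      simp only [Finset.mem_erase, ne_eq] at hy
      rcases eq_or (X.glue x) y hc with h1 | h1 | h1
      · exact hy.1 h1
      · rw [← h1] at hnx
        exact hnx hy.2.2
      · rw [← h1] at hpv
        exact hpv hy.2.2
    refine ⟨Function.update S' (X.glue x).1 (S' x.1 / X.mu x), ?_, ?_⟩
    · intro f
      by_cases hf : f = (X.glue x).1
      · rw [hf, Function.update_self]
        exact div_pos (hS'pos _) (X.mu_pos _)
      · rw [Function.update_of_ne hf]
        exact hS'pos f
    · intro y hy
      by_cases h1 : y = x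
      · rw [h1, Function.update_self, Function.update_of_ne hx1,
          div_mul_cancel₀ _ (X.mu_pos x).ne']
      by_cases h2 : y = X.glue x
      · rw [h2, X.glue_glue, Function.update_self, Function.update_of_ne hx1,
          eq_div_iff (X.mu_pos x).ne', mul_assoc, mu_glue, mul_one]
      have hy' : y ∈ (Z.erase x).erase (X.glue x) := by
        simp only [Finset.mem_erase, ne_eq]
        exact ⟨h2, h1, hy⟩
      have hgy' : X.glue y ∈ (Z.erase x).erase (X.glue x) := by
        simp only [Finset.mem_erase, ne_eq]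
        refine ⟨fun hc => h1 (glue_inj hc), fun hc => h2 ?_, hg y hy⟩
        rw [← hc, X.glue_glue]
      rw [Function.update_of_ne (hZ' _ hy'), Function.update_of_ne (hZ' _ hgy')]
      exact hS' y hy'

/-- the surface with rescaled triangles -/
@[reducible] def resc (X : Glued) (S : X.F → ℝ) (hS : ∀ f, 0 < S f) : Glued where
  F := X.F
  fin := X.fin
  dec := X.dec
  v x := (S x.1 : ℂ) * X.v x
  glue := X.glue
  mu x := X.mu x * S (X.glue x).1 / S x.1
  sum_zero f := by
    have h0 := X.sum_zero f
    show (S f : ℂ) * X.v (f, 0) + (S f : ℂ) * X.v (f, 1) + (S f : ℂ) * X.v (f, 2) = 0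
    linear_combination (S f : ℂ) * h0
  pos f := by
    have h0 := X.pos f
    have h1 := hS f
    have e : ((starRingEnd ℂ) ((S f : ℂ) * X.v (f, 0)) * ((S f : ℂ) * X.v (f, 1))).im =
        S f * S f * ((starRingEnd ℂ) (X.v (f, 0)) * X.v (f, 1)).im := by
      have e1 : (starRingEnd ℂ) ((S f : ℂ) * X.v (f, 0)) * ((S f : ℂ) * X.v (f, 1)) =
          ((S f * S f : ℝ) : ℂ) * ((starRingEnd ℂ) (X.v (f, 0)) * X.v (f, 1)) := by
        rw [map_mul, Complex.conj_ofReal]
        push_cast
        ring
      rw [e1, Complex.im_ofReal_mul]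
    rw [e]
    positivity
  glue_glue := X.glue_glue
  glue_ne := X.glue_ne
  mu_pos x := div_pos (mul_pos (X.mu_pos x) (hS _)) (hS _)
  v_glue x := by
    have h0 := X.v_glue x
    have h1 : (S x.1 : ℂ) ≠ 0 := by exact_mod_cast (hS x.1).ne'
    rw [h0]
    push_cast
    field_simp

theorem P_NORM : T_NORM := by
  classical
  intro X ι rk h
  obtain ⟨S, hS, hSz⟩ := exists_scale X ι rk h _
    (Finset.univ.filter fun x : D X => X.glue x ≠ jj ι x) le_rfl (by
      intro x hx
      rw [Finset.mem_filter] at hx ⊢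
      refine ⟨Finset.mem_univ _, ?_⟩
      intro hc
      apply hx.2
      rw [X.glue_glue] at hc
      have h1 := congrArg (jj ι) hc
      rw [jj_jj h.inv] at h1
      exact h1.symm) (by
      intro x hx
      exact (Finset.mem_filter.1 hx).2)
  refine ⟨resc X S hS, ι, rk, ⟨h.inv, h.comm, h.alt⟩, ?_, ?_, ?_⟩
  · intro x hx
    have h1 := hSz x (Finset.mem_filter.2 ⟨Finset.mem_univ _, hx⟩)
    show X.mu x * S (X.glue x).1 / S x.1 = 1
    rw [mul_comm, h1, div_self (hS _).ne']
  · rintro ⟨n, d, p, hn, hd, hp, hst, hpn, hinj, hmul⟩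
    have hst' : ∀ k < n, Step (X := X) d (p k) (p (k + 1)) := by
      intro k hk
      obtain ⟨y, hy1, hy2, hy3, r, hr, hr2⟩ := hst k hk
      have hSy : (0 : ℝ) < S (p k).1.1 := hS _
      refine ⟨y, hy1, hy2, hy3, r / S (p k).1.1, div_pos hr hSy, ?_⟩
      have hpt : ∀ (x : D X) (s : ℝ),
          pt (X := resc X S hS) x s = (S x.1 : ℂ) * pt (X := X) x s := by
        intro x s
        rcases x with ⟨f, i⟩
        fin_cases i <;> simp [pt, cor, resc] <;> ring
      rw [hpt, hpt, hy1] at hr2
      have hne : (S (p k).1.1 : ℂ) ≠ 0 := by exact_mod_cast hSy.ne'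
      push_cast
      have h3 : (S (p k).1.1 : ℂ) * (pt (X := X) y (1 - (p (k + 1)).2) -
          pt (X := X) (p k).1 (p k).2) = r * d := by
        rw [← hr2]; ring
      field_simp
      linear_combination h3
    refine ⟨n, d, p, hn, hd, hp, hst', hpn, hinj, ?_⟩
    intro hone
    apply hmul
    have hfac : ∀ k ∈ range n, (resc X S hS).mu ((resc X S hS).glue (p (k + 1)).1) =
        X.mu (X.glue (p (k + 1)).1) * (S (p (k + 1)).1.1 / S (p k).1.1) := by
      intro k hk
      obtain ⟨y, hy1, hy2, hy3, r, hr, hr2⟩ := hst' k (Finset.mem_range.1 hk)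
      show X.mu (X.glue (p (k + 1)).1) * S (X.glue (X.glue (p (k + 1)).1)).1 /
        S (X.glue (p (k + 1)).1).1 = _
      rw [X.glue_glue]
      have e1 : (X.glue (p (k + 1)).1).1 = (p k).1.1 := by
        rw [hy3, X.glue_glue, hy1]
      rw [e1, mul_div_assoc]
    rw [Finset.prod_congr rfl hfac, Finset.prod_mul_distrib, hone, one_mul]
    have htel : ∀ m : ℕ, ∏ k ∈ range m, S (p (k + 1)).1.1 / S (p k).1.1 =
        S (p m).1.1 / S (p 0).1.1 := by
      intro m
      induction m with
      | zero => simp [(hS (p 0).1.1).ne']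
      | succ m ihm =>
        rw [Finset.prod_range_succ, ihm]
        have ha := (hS (p 0).1.1).ne'
        have hb := (hS (p m).1.1).ne'
        field_simp
    rw [htel, hpn, div_self (hS _).ne']
  · rintro ⟨c, hc, hc2⟩
    refine ⟨fun f => c f * S f, fun f => mul_pos (hc f) (hS f), ?_⟩
    intro x
    have h1 : c (X.glue x).1 * (X.mu x * S (X.glue x).1 / S x.1) = c x.1 := hc2 x
    have h2 := (hS x.1).ne'
    field_simp at h1
    show c (X.glue x).1 * S (X.glue x).1 * X.mu x = c x.1 * S x.1
    linear_combination h1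

end Pool.Agent.HYE
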