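import Pool.Agent.HYE.Targets

/-!
# HYE: the symmetry of the gallery about its midpoint
-/

set_option autoImplicit false

open Finset

noncomputable section

namespace Pool.Agent.HYE

open Pool.Agent.GTW

theorem PAL_sub (p a b : ℂ) : crs p (a - b) = crs p a - crs p b := by
  rw [crs_eq, crs_eq, crs_eq]
  simp only [Complex.sub_re, Complex.sub_im]
  ring

theorem PAL_add (p a b : ℂ) : crs p (a + b) = crs p a + crs p b := by
  rw [crs_eq, crs_eq, crs_eq]
  simp only [Complex.add_re, Complex.add_im]
  ring

theorem P_PAL : T_PAL := by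
  intro S a N lab l r ψ hG hH hmin i
  induction i with
  | zero =>
    intro _
    have h1 := hG.exit
    have h2 : S.e (lab N) = S.e a := by
      have h3 := S.e_cr (lab N)
      rw [h1, S.e_J] at h3
      exact (neg_injective h3).symm
    have h4 := hG.vec N le_rfl
    have h5 := hG.vec 0 (Nat.zero_le _)
    rw [hG.zero] at h5
    rw [Nat.sub_zero, hG.zero]
    refine ⟨h1, ?_, add_comm _ _⟩
    linear_combination h4 - h5 + h2
  | succ i ih =>
    intro hi
    have hi' : i < N := hi
    obtain ⟨h1, h2, h3⟩ := ih hi'.le
    obtain ⟨k, hk⟩ : ∃ k, N - (i + 1) = k := ⟨_, rfl⟩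
    have hk1 : N - i = k + 1 := by omega
    have hkN : k < N := by omega
    rw [hk1] at h1 h2 h3
    rw [hk]
    have hz : lab (k + 1) = S.J (S.cr (lab i)) := by
      have h4 := congrArg S.cr h1
      rw [S.cr2, ← S.Jcr] at h4
      exact h4
    have hv0 := hG.vec i hi'.le
    have hv1 := hG.vec (i + 1) hi
    have hvk := hG.vec k hkN.le
    have he := S.e_sum (S.cr (lab i))
    have hez := S.e_cr (lab i)
    have hek := S.e_cr (lab k)
    have hL := hH.left
    have hR := hH.right
    rcases hG.step i hi' with ⟨hA, hA'⟩ | ⟨hB, hB'⟩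
    · rcases hG.step k hkN with ⟨hC, hC'⟩ | ⟨hD, hD'⟩
      · exfalso
        have h5 : S.cr (lab k) = S.J (S.nx (S.nx (S.cr (lab i)))) := by
          have h6 : S.nx (S.nx (S.nx (S.cr (lab k)))) = S.nx (S.nx (S.J (S.cr (lab i)))) := by
            rw [← hC, hz]
          rw [S.nx3] at h6
          rw [h6, S.Jnx, S.Jnx]
        have h7 : S.e (lab k) = S.e (S.nx (S.nx (S.cr (lab i)))) := by
          rw [h5, S.e_J] at hek
          exact (neg_injective hek).symm
        rw [hA] at hv1
        have h8 : l k = l 0 + r N - l (i + 1) := by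
          linear_combination hvk + h7 + hv1 - hv0 + he - hez + h3 - hC' + hA'
        have h9 := hL k hkN.le
        have h10 := hL (i + 1) hi
        have h11 := hR N le_rfl
        rw [h8] at h9
        rw [PAL_sub] at h9 h10 h11
        rw [PAL_sub, PAL_add] at h9
        linarith
      · have h5 : S.cr (lab k) = S.J (lab (i + 1)) := by
          have h6 : S.nx (S.nx (S.nx (S.cr (lab k)))) = S.nx (S.J (S.cr (lab i))) := by
            rw [← hD, hz]
          rw [S.nx3] at h6
          rw [h6, hA, S.Jnx]
        have h7 : S.e (lab k) = S.e (lab (i + 1)) := by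
          rw [h5, S.e_J] at hek
          exact (neg_injective hek).symm
        refine ⟨h5, ?_, ?_⟩
        · linear_combination h2 - hD' + hA'
        · linear_combination h2 - hD' + hA' + hv1 - hvk - h7
    · rcases hG.step k hkN with ⟨hC, hC'⟩ | ⟨hD, hD'⟩
      · have h5 : S.cr (lab k) = S.J (lab (i + 1)) := by
          have h6 : S.nx (S.nx (S.nx (S.cr (lab k)))) = S.nx (S.nx (S.J (S.cr (lab i)))) := by
            rw [← hC, hz]
          rw [S.nx3] at h6
          rw [h6, hB, S.Jnx, S.Jnx]
        have h7 : S.e (lab k) = S.e (lab (i + 1)) := by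
          rw [h5, S.e_J] at hek
          exact (neg_injective hek).symm
        refine ⟨h5, ?_, ?_⟩
        · linear_combination h3 - hC' + hB' - hv1 + hvk + h7
        · linear_combination h3 - hC' + hB'
      · exfalso
        have h5 : S.cr (lab k) = S.J (S.nx (S.cr (lab i))) := by
          have h6 : S.nx (S.nx (S.nx (S.cr (lab k)))) = S.nx (S.J (S.cr (lab i))) := by
            rw [← hD, hz]
          rw [S.nx3] at h6
          rw [h6, S.Jnx]
        have h7 : S.e (lab k) = S.e (S.nx (S.cr (lab i))) := by
          rw [h5, S.e_J] at hek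
          exact (neg_injective hek).symm
        rw [hB] at hv1
        have h8 : r k = l 0 + r N - r (i + 1) := by
          linear_combination -hvk - h7 - hv1 + hv0 - he + hez + h2 - hD' + hB'
        have h9 := hR k hkN.le
        have h10 := hmin (i + 1) hi
        rw [h8] at h9
        rw [PAL_sub] at h9 h10
        rw [PAL_sub, PAL_add] at h9
        linarith

end Pool.Agent.HYE
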