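import Pool.Agent.HYE.Targets

/-!
# HYE: PAR, the exit of the gallery is the nearest right vertex
-/

set_option autoImplicit false

open Finset

noncomputable section

namespace Pool.Agent.HYE

open Pool.Agent.GTW

theorem par_crs_sub (a b c : ℂ) : crs a (b - c) = crs a b - crs a c := by
  simp only [crs_eq, Complex.sub_re, Complex.sub_im]; ring

theorem par_crs_neg (a b : ℂ) : crs a (-b) = -crs a b := by
  simp only [crs_eq, Complex.neg_re, Complex.neg_im]; ring

theorem par_even {x y z : ℕ} (h : x + y = z) (hz : Even z) : Odd x ↔ Odd y := by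
  have h1 : Even (x + y) := h ▸ hz
  rw [Nat.even_add] at h1
  rw [← Nat.not_even_iff_odd, ← Nat.not_even_iff_odd, h1]

theorem P_PAR (h1 : T_MEM) (h2 : T_EVEN) (h3 : T_TRI) (h4 : T_CROSS) (h5 : T_COMP) : T_PAR := by
  intro S a T hc N lab l r ψ hg hh i hi
  by_contra hcon
  rw [not_le] at hcon
  obtain ⟨hl, hhl⟩ : ∃ hl : ℕ → ℝ, ∀ i, hl i = -crs ψ (l i - l 0) := ⟨_, fun _ => rfl⟩
  obtain ⟨hr, hhr⟩ : ∃ hr : ℕ → ℝ, ∀ i, hr i = -crs ψ (r i - l 0) := ⟨_, fun _ => rfl⟩
  have ehl : ∀ i, crs ψ (l i - l 0) = -hl i := fun i => by rw [hhl]; ring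
  have ehr : ∀ i, crs ψ (r i - l 0) = -hr i := fun i => by rw [hhr]; ring
  have hl0 : hl 0 = 0 := by
    rw [hhl, sub_self, crs_eq]; simp
  have hlle : ∀ i ≤ N, hl i ≤ 0 := by
    intro i hi
    have := hh.left i hi
    rw [hhl]; linarith
  have hrpos : ∀ i ≤ N, 0 < hr i := by
    intro i hi
    have := hh.right i hi
    rw [hhr]; linarith
  have hlen : ∀ i ≤ N, crs ψ (S.e (lab i)) = hr i - hl i := by
    intro i hi
    have e : l i - r i = (l i - l 0) - (r i - l 0) := by ring
    rw [← hg.vec i hi, e, par_crs_sub, ehl, ehr]; ring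
  have hlenc : ∀ i ≤ N, crs ψ (S.e (S.cr (lab i))) = -(hr i - hl i) := by
    intro i hi
    rw [S.e_cr, par_crs_neg, hlen i hi]
  have hea : 0 < crs ψ (S.e a) := by
    have h6 := hlen 0 (Nat.zero_le _)
    rw [hg.zero] at h6
    have := hrpos 0 (Nat.zero_le _)
    rw [h6, hl0]; linarith
  have hJa : S.J a ∉ T := by
    intro h6
    apply hc.a_nin
    have := hc.J_in _ h6
    rwa [S.J2] at this
  have hmem : ∀ i, 1 ≤ i → i ≤ N → lab i ∈ T := h1 S a T hc N lab l r ψ hg hh
  have hncr : ∀ i ≤ N, lab i ≠ S.cr a := by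
    intro i hi h6
    have h7 := hlen i hi
    rw [h6, S.e_cr, par_crs_neg] at h7
    have := hrpos i hi
    have := hlle i hi
    linarith
  have hnJcr : ∀ i < N, lab i ≠ S.J (S.cr a) := by
    intro i hi h6
    apply hg.noexit i hi
    rw [h6, S.Jcr, S.cr2]
  -- the minimal right vertex
  have hri : hr i < hr N := by
    have e : r i - r N = (r i - l 0) - (r N - l 0) := by ring
    rw [e, par_crs_sub, ehr, ehr] at hcon
    linarith
  obtain ⟨j, hjm, hjmin⟩ := Finset.exists_min_image (range (N + 1)) hr ⟨0, by simp⟩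
  rw [Finset.mem_range] at hjm
  have hjN : j ≤ N := by omega
  have hjmin' : ∀ k ≤ N, hr j ≤ hr k := fun k hk => hjmin k (Finset.mem_range.2 (by omega))
  have hjlt : hr j < hr N := lt_of_le_of_lt (hjmin' i hi) hri
  have hrho := hrpos j hjN
  have hj1 : 1 ≤ j := by
    by_contra hj0
    have hj0 : j = 0 := by omega
    have h6 : S.e (lab N) = S.e a := by
      have h7 : lab N = S.cr (S.J a) := by rw [← hg.exit, S.cr2]
      rw [h7, S.e_cr, S.e_J, neg_neg]
    have h7 := hlen N le_rfl
    have h8 := hlen 0 (Nat.zero_le _)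
    rw [h6, ← hg.zero, h8, hl0] at h7
    have := hlle N le_rfl
    rw [hj0] at hjlt
    linarith
  -- the two levels
  obtain ⟨h0, hh0, hh0a, hh0b⟩ : ∃ h0 : ℝ, 0 < h0 ∧ 2 * h0 ≤ hr j ∧ 2 * h0 ≤ hr N - hr j := by
    refine ⟨min (hr j) (hr N - hr j) / 2, ?_, ?_, ?_⟩
    · have : 0 < min (hr j) (hr N - hr j) := lt_min hrho (by linarith)
      linarith
    · have := min_le_left (hr j) (hr N - hr j)
      linarith
    · have := min_le_right (hr j) (hr N - hr j)
      linarith
  have hh0r : ∀ i ≤ N, h0 < -crs ψ (r i - l 0) := by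
    intro i hi
    rw [← hhr]
    have := hjmin' i hi
    linarith
  obtain ⟨h, hmemh, hnot⟩ :=
    (Set.Ioo_infinite (show hr j - h0 < hr j by linarith)).exists_notMem_finset
    ((((range (N + 1)) ×ˢ (range (N + 1))).image (fun p : ℕ × ℕ => hl p.2 + (h0 - hl p.1))) ∪
     (((range (N + 1)) ×ˢ (range (N + 1))).image (fun p : ℕ × ℕ => hl p.2 + (hr p.1 - h0))) ∪
     (((range (N + 1)) ×ˢ (range (N + 1))).image (fun p : ℕ × ℕ => hr p.2 - (h0 - hl p.1))) ∪
     (((range (N + 1)) ×ˢ (range (N + 1))).image (fun p : ℕ × ℕ => hr p.2 - (hr p.1 - h0))))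
  obtain ⟨hha, hhb⟩ := hmemh
  have hn1 : ∀ k ≤ N, ∀ i ≤ N, h0 + crs ψ (l i - l 0) ≠ h - hl k := by
    intro k hk i hi he
    apply hnot
    simp only [Finset.mem_union]
    left; left; left
    rw [Finset.mem_image]
    refine ⟨(i, k), by simp; omega, ?_⟩
    rw [ehl] at he
    simp only
    linarith
  have hn2 : ∀ k ≤ N, ∀ i ≤ N, -crs ψ (r i - l 0) - h0 ≠ h - hl k := by
    intro k hk i hi he
    apply hnot
    simp only [Finset.mem_union]
    left; left; right
    rw [Finset.mem_image]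
    refine ⟨(i, k), by simp; omega, ?_⟩
    rw [ehr] at he
    simp only
    linarith
  have hn3 : ∀ k ≤ N, ∀ i ≤ N, h0 + crs ψ (l i - l 0) ≠ hr k - h := by
    intro k hk i hi he
    apply hnot
    simp only [Finset.mem_union]
    left; right
    rw [Finset.mem_image]
    refine ⟨(i, k), by simp; omega, ?_⟩
    rw [ehl] at he
    simp only
    linarith
  have hn4 : ∀ k ≤ N, ∀ i ≤ N, -crs ψ (r i - l 0) - h0 ≠ hr k - h := by
    intro k hk i hi he
    apply hnot
    simp only [Finset.mem_union]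
    right
    rw [Finset.mem_image]
    refine ⟨(i, k), by simp; omega, ?_⟩
    rw [ehr] at he
    simp only
    linarith
  have hhpos : 0 < h := by linarith
  have hhr' : ∀ k ≤ N, h < hr k := fun k hk => lt_of_lt_of_le hhb (hjmin' k hk)
  -- (a)
  have ha : cS S N lab l r ψ h0 (S.cr (lab 0)) (h - hl 0) = 1 := by
    unfold cS
    rw [Finset.sum_eq_single_of_mem 0 (Finset.mem_range.2 (by omega))]
    · rw [if_pos, if_neg]
      · rintro ⟨h6 | h6, h7⟩
        · rw [hg.zero] at h6
          exact hncr _ (by omega) h6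
        · rw [hg.zero] at h6
          rcases Nat.lt_or_ge 1 N with h8 | h8
          · exact hnJcr 1 h8 h6
          · have h9 : 0 + 1 = N := by omega
            rw [ehr, hl0, h9] at h7
            linarith
      · refine ⟨Or.inl rfl, ?_⟩
        rw [ehl, hl0]
        linarith
    · intro i hi hi0
      rw [Finset.mem_range] at hi
      have e1 : ¬((S.cr (lab i) = S.cr (lab 0) ∨ S.cr (lab i) = S.J (S.cr (lab 0))) ∧
          h0 + crs ψ (l i - l 0) < h - hl 0) := by
        rintro ⟨h6 | h6, h7⟩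
        · rw [hg.zero] at h6
          have h8 := congrArg S.cr h6
          rw [S.cr2, S.cr2] at h8
          exact hc.a_nin (h8 ▸ hmem i (by omega) hi.le)
        · rw [hg.zero, S.Jcr] at h6
          have h8 := congrArg S.cr h6
          rw [S.cr2, S.cr2] at h8
          exact hJa (h8 ▸ hmem i (by omega) hi.le)
      have e2 : ¬((lab (i + 1) = S.cr (lab 0) ∨ lab (i + 1) = S.J (S.cr (lab 0))) ∧
          -crs ψ (r (i + 1) - l 0) - h0 < h - hl 0) := by
        rintro ⟨h6 | h6, h7⟩
        · rw [hg.zero] at h6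
          exact hncr _ (by omega) h6
        · rw [hg.zero] at h6
          rcases Nat.lt_or_ge (i + 1) N with h8 | h8
          · exact hnJcr (i + 1) h8 h6
          · have h9 : i + 1 = N := by omega
            rw [ehr, hl0, h9] at h7
            linarith
      rw [if_neg e1, if_neg e2, add_zero]
  -- (b)
  have hb : ∀ k < N, Odd (cS S N lab l r ψ h0 (S.cr (lab k)) (h - hl k)) →
      Odd (cS S N lab l r ψ h0 (lab (k + 1)) (hr (k + 1) - h)) := by
    intro k hk hodd
    have hz3 : S.nx (S.nx (S.nx (S.cr (lab k)))) = S.cr (lab k) := S.nx3 _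
    have hm1 := hmem (k + 1) (by omega) (by omega)
    have hlk := hlle k hk.le
    have hlk1 := hlle (k + 1) (by omega)
    have hrk := hhr' k hk.le
    have hrk1 := hhr' (k + 1) (by omega)
    have hek := hlenc k hk.le
    have hek1 := hlen (k + 1) (by omega)
    rcases hg.step k hk with ⟨h6, h7⟩ | ⟨h6, h7⟩
    · have hrr : hr (k + 1) = hr k := by rw [hhr, hhr, h7]
      have hzT : S.cr (lab k) ∈ T := by
        rw [← hz3]
        exact hc.nx_in _ (hc.nx_in _ (h6 ▸ hm1))
      have h8 := h3 S a N lab l r ψ hg hh h0 hh0 hh0r (S.cr (lab k)) (hr (k + 1) - h)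
        (by linarith) (Or.inl ⟨by rw [hek, hrr]; linarith, by rw [← h6, hek1]; linarith⟩)
      have h9 := h5 S a N lab l r ψ hg hh h0 (S.cr (lab k)) (hr k - hl k) (h - hl k)
        (Or.inr (by rw [hek]; ring)) (by linarith) (hn1 k hk.le) (hn2 k hk.le)
      have h10 : hr k - hl k - (h - hl k) = hr (k + 1) - h := by rw [hrr]; ring
      rw [h10] at h9
      have h11 := (par_even h9 (h2 S a T hc N lab l r ψ hg hh _ hzT)).1 hodd
      rw [h8, ← h6] at h11
      exact h11
    · have hll : hl (k + 1) = hl k := by rw [hhl, hhl, h7]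
      have hnx : S.nx (lab (k + 1)) = S.cr (lab k) := by rw [h6, hz3]
      have h8 := h3 S a N lab l r ψ hg hh h0 hh0 hh0r (lab (k + 1)) (h - hl k)
        (by linarith) (Or.inr ⟨by rw [hek1, hll]; linarith, by rw [hnx, hek]; linarith⟩)
      rw [hnx] at h8
      have h9 := h5 S a N lab l r ψ hg hh h0 (lab (k + 1)) (hr (k + 1) - hl (k + 1))
        (hr (k + 1) - h) (Or.inl hek1.symm) (by linarith) (hn3 (k + 1) (by omega))
        (hn4 (k + 1) (by omega))
      have h10 : hr (k + 1) - hl (k + 1) - (hr (k + 1) - h) = h - hl k := by rw [hll]; ring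
      rw [h10, h8] at h9
      exact (par_even h9 (h2 S a T hc N lab l r ψ hg hh _ hm1)).2 hodd
  -- (c)
  have hcc : ∀ k, 1 ≤ k → k < N → Odd (cS S N lab l r ψ h0 (lab k) (hr k - h)) →
      Odd (cS S N lab l r ψ h0 (S.cr (lab k)) (h - hl k)) := by
    intro k hk1 hk hodd
    have hm := hmem k hk1 hk.le
    have hcT : S.cr (lab k) ∈ T := hc.cr_in _ hm (hncr k hk.le) (hnJcr k hk)
    have h6 := h4 S a N lab l r ψ hg h0 (lab k) (fun h => hc.a_nin (h ▸ hm))
      (fun h => hJa (h ▸ hm)) (hncr k hk.le) (hnJcr k hk) (hr k - h)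
    have hlk := hlle k hk.le
    have hrk := hrpos k hk.le
    have h9 := h5 S a N lab l r ψ hg hh h0 (S.cr (lab k)) (hr k - hl k) (h - hl k)
      (Or.inr (by rw [hlenc k hk.le]; ring)) (by linarith) (hn1 k hk.le) (hn2 k hk.le)
    have h10 : hr k - hl k - (h - hl k) = hr k - h := by ring
    rw [h10, ← h6] at h9
    exact (par_even h9 (h2 S a T hc N lab l r ψ hg hh _ hcT)).2 hodd
  -- (d)
  have hd : ∀ k, 1 ≤ k → k ≤ N → Odd (cS S N lab l r ψ h0 (lab k) (hr k - h)) := by
    intro k
    induction k with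
    | zero => intro hk; omega
    | succ k ih =>
      intro _ hk
      apply hb k (by omega)
      rcases Nat.eq_zero_or_pos k with h6 | h6
      · rw [h6, ha]; exact odd_one
      · exact hcc k h6 (by omega) (ih h6 (by omega))
  have hfin := hd j hj1 hjN
  have hzero : cS S N lab l r ψ h0 (lab j) (hr j - h) = 0 := by
    unfold cS
    apply Finset.sum_eq_zero
    intro i hi
    rw [Finset.mem_range] at hi
    have e1 : ¬((S.cr (lab i) = lab j ∨ S.cr (lab i) = S.J (lab j)) ∧
        h0 + crs ψ (l i - l 0) < hr j - h) := by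
      rintro ⟨_, h7⟩
      rw [ehl] at h7
      have := hlle i hi.le
      linarith
    have e2 : ¬((lab (i + 1) = lab j ∨ lab (i + 1) = S.J (lab j)) ∧
        -crs ψ (r (i + 1) - l 0) - h0 < hr j - h) := by
      rintro ⟨_, h7⟩
      rw [ehr] at h7
      have := hjmin' (i + 1) (by omega)
      linarith
    rw [if_neg e1, if_neg e2, add_zero]
  rw [hzero] at hfin
  exact absurd hfin (by decide)

end Pool.Agent.HYE
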