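import Pool.Agent.HYE.Targets

/-!
# HYE: a path through a symmetric part (PASS)
-/

set_option autoImplicit false

open Finset

noncomputable section

namespace Pool.Agent.HYE

open Pool.Agent.GTW

/-- the dart of a label, in the version `c` -/
def PASS_A {X : Glued} (ι : X.F → X.F) (c : Bool) (x : D X × Bool) : D X :=
  if x.2 = c then x.1 else jj ι x.1

/-- the scale -/
def PASS_s (m : ℝ) (c b : Bool) : ℝ := if b = c then 1 else m

theorem PASS_s_pos {m : ℝ} (hm : 0 < m) (c b : Bool) : 0 < PASS_s m c b := by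
  unfold PASS_s
  split_ifs
  · exact one_pos
  · exact hm

/-- crossing a side -/
def PASS_cr {X : Glued} (ι : X.F → X.F) (x : D X × Bool) : D X × Bool :=
  if X.glue x.1 = jj ι x.1 then (x.1, !x.2) else (X.glue x.1, x.2)

theorem PASS_glue {X : Glued} {ι : X.F → X.F} {rk : D X → ℕ} (h : Hyp X ι rk) (c : Bool)
    (x : D X × Bool) : X.glue (PASS_A ι c x) = PASS_A ι c (PASS_cr ι x) := by
  rcases x with ⟨y, b⟩
  by_cases hy : X.glue y = jj ι y
  · cases b <;> cases c <;> simp [PASS_A, PASS_cr, hy, h.comm, jj_jj h.inv]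
  · cases b <;> cases c <;> simp [PASS_A, PASS_cr, hy, h.comm]

theorem PASS_v {X : Glued} {ι : X.F → X.F} {m : ℝ} (c : Bool) (x : D X × Bool)
    (hx : X.v (jj ι x.1) = -((m : ℂ) * X.v x.1)) :
    X.v (PASS_A ι c x) = sg c * ((PASS_s m c x.2 : ℝ) : ℂ) * (sg x.2 * X.v x.1) := by
  rcases x with ⟨y, b⟩
  have hx' : X.v (jj ι y) = -((m : ℂ) * X.v y) := hx
  cases b <;> cases c <;> simp [PASS_A, PASS_s, sg, hx']

theorem PASS_e_cr {X : Glued} {ι : X.F → X.F} (hn : Nrm X ι) (x : D X × Bool) :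
    sg (PASS_cr ι x).2 * X.v (PASS_cr ι x).1 = -(sg x.2 * X.v x.1) := by
  rcases x with ⟨y, b⟩
  by_cases hy : X.glue y = jj ι y
  · simp only [PASS_cr, hy, if_true]
    rw [sg_not]; ring
  · simp only [PASS_cr, hy, if_false]
    rw [X.v_glue, hn y hy]
    push_cast; ring

theorem PASS_sg_ne (c : Bool) : sg c ≠ 0 := by
  cases c <;> simp [sg]

theorem PASS_mu {X : Glued} {ι : X.F → X.F} {rk : D X → ℕ} (h : Hyp X ι rk) (hn : Nrm X ι)
    {m : ℝ} (hm : 0 < m) (c : Bool) (x : D X × Bool)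
    (hx : X.v (jj ι x.1) = -((m : ℂ) * X.v x.1))
    (hx' : X.v (jj ι (PASS_cr ι x).1) = -((m : ℂ) * X.v (PASS_cr ι x).1)) :
    X.mu (PASS_A ι c x) = PASS_s m c (PASS_cr ι x).2 / PASS_s m c x.2 := by
  have h1 := X.v_glue (PASS_A ι c x)
  rw [PASS_glue h, PASS_v c _ hx', PASS_v c _ hx, PASS_e_cr hn] at h1
  have hs := PASS_s_pos hm c x.2
  have hz : sg c * (sg x.2 * X.v x.1) ≠ 0 :=
    mul_ne_zero (PASS_sg_ne c) (mul_ne_zero (PASS_sg_ne _) (v_ne _))
  have h2 : ((PASS_s m c (PASS_cr ι x).2 : ℝ) : ℂ) * (sg c * (sg x.2 * X.v x.1)) =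
      ((X.mu (PASS_A ι c x) * PASS_s m c x.2 : ℝ) : ℂ) * (sg c * (sg x.2 * X.v x.1)) := by
    push_cast
    linear_combination -h1
  have h3 := mul_right_cancel₀ hz h2
  have h4 : PASS_s m c (PASS_cr ι x).2 = X.mu (PASS_A ι c x) * PASS_s m c x.2 := by
    exact_mod_cast h3
  rw [eq_div_iff hs.ne']
  exact h4.symm

theorem PASS_nx {X : Glued} (ι : X.F → X.F) (c : Bool) (x : D X × Bool) :
    PASS_A ι c (nx x.1, x.2) = nx (PASS_A ι c x) := by
  unfold PASS_A
  split_ifs <;> rfl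

theorem PASS_nx2 {X : Glued} (ι : X.F → X.F) (c : Bool) (x : D X × Bool) :
    PASS_A ι c (nx (nx x.1), x.2) = nx (nx (PASS_A ι c x)) := by
  unfold PASS_A
  split_ifs <;> rfl

theorem PASS_key {X : Glued} {ι : X.F → X.F} {rk : D X → ℕ} (h : Hyp X ι rk) (hn : Nrm X ι)
    {m : ℝ} {y0 : D X} {T : Set X.F} (hm : 0 < m) (hs : Sym X ι m y0 T)
    {N : ℕ} {lab : ℕ → D X × Bool} {l r : ℕ → ℂ}
    (g0 : lab 0 = (y0, true)) (gv : ∀ i ≤ N, l i - r i = sg (lab i).2 * X.v (lab i).1)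
    (gs : ∀ i < N, (lab (i + 1) = (nx (PASS_cr ι (lab i)).1, (PASS_cr ι (lab i)).2) ∧
        r (i + 1) = r i) ∨
      (lab (i + 1) = (nx (nx (PASS_cr ι (lab i)).1), (PASS_cr ι (lab i)).2) ∧
        l (i + 1) = l i))
    (ge : PASS_cr ι (lab N) = (y0, false))
    (hT : ∀ i, 1 ≤ i → i ≤ N → (lab i).1.1 ∈ T) {d : ℂ} {θ u : ℕ → ℝ}
    (hθ : ∀ i ≤ N, 0 < θ i ∧ θ i < 1)
    (hu : ∀ i < N, 0 < u i ∧
      r (i + 1) + θ (i + 1) * (l (i + 1) - r (i + 1)) - (r i + θ i * (l i - r i)) = u i * d)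
    (c : Bool) (xx : D X) (t k : ℝ) (h1 : (PASS_A ι c (y0, true)).1 = xx.1)
    (h2 : PASS_A ι c (y0, true) ≠ xx) (ht0 : 0 < t) (ht1 : t < 1) (hk : 0 < k)
    (h3 : pt (PASS_A ι c (y0, true)) (θ 0) - pt xx t = k * (sg c * d)) :
    ∀ n ≤ N, Pth (sg c * d) (xx, t) (X.glue (PASS_A ι c (lab n)), 1 - θ n)
      (PASS_s m c (PASS_cr ι (lab n)).2 / PASS_s m c true) := by
  -- the vectors
  have hlab : ∀ i ≤ N, X.v (jj ι (lab i).1) = -((m : ℂ) * X.v (lab i).1) := by
    intro i hi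
    rcases Nat.eq_zero_or_pos i with h0 | h0
    · rw [h0, g0]; exact hs.self
    · exact hs.all _ (hT i h0 hi)
  have hcrT : ∀ i < N, (PASS_cr ι (lab i)).1.1 ∈ T := by
    intro i hi
    have h4 := hT (i + 1) (by omega) (by omega)
    rcases gs i hi with ⟨h5, -⟩ | ⟨h5, -⟩
    · rw [h5] at h4; exact h4
    · rw [h5] at h4; exact h4
  have hcr : ∀ i ≤ N, X.v (jj ι (PASS_cr ι (lab i)).1) =
      -((m : ℂ) * X.v (PASS_cr ι (lab i)).1) := by
    intro i hi
    rcases Nat.lt_or_eq_of_le hi with h0 | h0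
    · exact hs.all _ (hcrT i h0)
    · rw [h0, ge]; exact hs.self
  have hlab2 : ∀ i < N, (lab (i + 1)).2 = (PASS_cr ι (lab i)).2 := by
    intro i hi
    rcases gs i hi with ⟨h5, -⟩ | ⟨h5, -⟩ <;> rw [h5]
  intro n
  induction n with
  | zero =>
    intro _
    have hθ0 := hθ 0 (Nat.zero_le _)
    have hst : Step (sg c * d) (xx, t) (X.glue (PASS_A ι c (lab 0)), 1 - θ 0) := by
      refine ⟨PASS_A ι c (lab 0), ?_, ?_, rfl, k, hk, ?_⟩
      · rw [g0]; exact h1
      · rw [g0]; exact h2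
      · have e : (1 : ℝ) - (1 - θ 0) = θ 0 := by ring
        show pt (PASS_A ι c (lab 0)) (1 - (1 - θ 0)) - pt xx t = k * (sg c * d)
        rw [e, g0]; exact h3
    have hp : Pth (sg c * d) (xx, t) (X.glue (PASS_A ι c (lab 0)), 1 - θ 0)
        (X.mu (X.glue (X.glue (PASS_A ι c (lab 0))))) := by
      refine Pth.one ht0 ht1 ?_ ?_ hst
      · show 0 < 1 - θ 0
        linarith [hθ0.2]
      · show 1 - θ 0 < 1
        linarith [hθ0.1]
    have hmu := PASS_mu h hn hm c (lab 0) (hlab 0 (Nat.zero_le _)) (hcr 0 (Nat.zero_le _))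
    have h02 : (lab 0).2 = true := by rw [g0]
    rw [X.glue_glue, hmu, h02] at hp
    exact hp
  | succ n ih =>
    intro hn1
    have hnN : n < N := hn1
    have hp := ih hnN.le
    obtain ⟨hu0, hu1⟩ := hu n hnN
    have hθn := hθ n hnN.le
    have hθn1 := hθ (n + 1) hn1
    have hsc := PASS_s_pos hm c (PASS_cr ι (lab n)).2
    have ez : X.glue (PASS_A ι c (lab n)) = PASS_A ι c (PASS_cr ι (lab n)) := PASS_glue h c _
    have vz : X.v (PASS_A ι c (PASS_cr ι (lab n))) =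
        -(sg c * ((PASS_s m c (PASS_cr ι (lab n)).2 : ℝ) : ℂ) * (l n - r n)) := by
      rw [PASS_v c _ (hcr n hnN.le), PASS_e_cr hn, gv n hnN.le]
      ring
    have vy : X.v (PASS_A ι c (lab (n + 1))) =
        sg c * ((PASS_s m c (PASS_cr ι (lab n)).2 : ℝ) : ℂ) * (l (n + 1) - r (n + 1)) := by
      rw [PASS_v c _ (hlab (n + 1) hn1), hlab2 n hnN, gv (n + 1) hn1, hlab2 n hnN]
    have hst : Step (sg c * d) (X.glue (PASS_A ι c (lab n)), 1 - θ n)
        (X.glue (PASS_A ι c (lab (n + 1))), 1 - θ (n + 1)) := by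
      refine ⟨PASS_A ι c (lab (n + 1)), ?_, ?_, rfl,
        PASS_s m c (PASS_cr ι (lab n)).2 * u n, mul_pos hsc hu0, ?_⟩
      · show (PASS_A ι c (lab (n + 1))).1 = (X.glue (PASS_A ι c (lab n))).1
        rw [ez]
        rcases gs n hnN with ⟨h5, -⟩ | ⟨h5, -⟩
        · rw [h5, PASS_nx]; rfl
        · rw [h5, PASS_nx2]; rfl
      · show PASS_A ι c (lab (n + 1)) ≠ X.glue (PASS_A ι c (lab n))
        rw [ez]
        rcases gs n hnN with ⟨h5, -⟩ | ⟨h5, -⟩
        · rw [h5, PASS_nx]; exact nx_ne _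
        · rw [h5, PASS_nx2, nx_nx]; exact pv_ne _
      · have e : (1 : ℝ) - (1 - θ (n + 1)) = θ (n + 1) := by ring
        show pt (PASS_A ι c (lab (n + 1))) (1 - (1 - θ (n + 1))) -
          pt (X.glue (PASS_A ι c (lab n))) (1 - θ n) =
          ((PASS_s m c (PASS_cr ι (lab n)).2 * u n : ℝ) : ℂ) * (sg c * d)
        rw [e, ez]
        rcases gs n hnN with ⟨h5, h7⟩ | ⟨h5, h7⟩
        · have ey : PASS_A ι c (lab (n + 1)) = nx (PASS_A ι c (PASS_cr ι (lab n))) := by
            rw [h5, PASS_nx]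
          rw [ey] at vy ⊢
          rw [pt, pt, cor_nx, vy, vz]
          push_cast
          rw [h7] at hu1 ⊢
          linear_combination
            (sg c * ((PASS_s m c (PASS_cr ι (lab n)).2 : ℝ) : ℂ)) * hu1
        · have ey : PASS_A ι c (lab (n + 1)) = pv (PASS_A ι c (PASS_cr ι (lab n))) := by
            rw [h5, PASS_nx2, nx_nx]
          have ec := cor_nx (pv (PASS_A ι c (PASS_cr ι (lab n))))
          rw [nx_pv] at ec
          rw [ey] at vy ⊢
          rw [pt, pt, ec, vy, vz]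
          push_cast
          rw [h7] at hu1 ⊢
          linear_combination
            (sg c * ((PASS_s m c (PASS_cr ι (lab n)).2 : ℝ) : ℂ)) * hu1
    have hq : Pth (sg c * d) (X.glue (PASS_A ι c (lab n)), 1 - θ n)
        (X.glue (PASS_A ι c (lab (n + 1))), 1 - θ (n + 1))
        (X.mu (X.glue (X.glue (PASS_A ι c (lab (n + 1)))))) := by
      refine Pth.one ?_ ?_ ?_ ?_ hst
      · show 0 < 1 - θ n
        linarith [hθn.2]
      · show 1 - θ n < 1
        linarith [hθn.1]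
      · show 0 < 1 - θ (n + 1)
        linarith [hθn1.2]
      · show 1 - θ (n + 1) < 1
        linarith [hθn1.1]
    have hmu := PASS_mu h hn hm c (lab (n + 1)) (hlab (n + 1) hn1) (hcr (n + 1) hn1)
    rw [X.glue_glue, hmu, hlab2 n hnN] at hq
    have hpq := Pth.trans hp hq
    have e : PASS_s m c (PASS_cr ι (lab n)).2 / PASS_s m c true *
        (PASS_s m c (PASS_cr ι (lab (n + 1))).2 / PASS_s m c (PASS_cr ι (lab n)).2) =
        PASS_s m c (PASS_cr ι (lab (n + 1))).2 / PASS_s m c true := by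
      have h8 := (PASS_s_pos hm c true).ne'
      field_simp
    rw [e] at hpq
    exact hpq

theorem P_PASS : T_PASS := by
  intro X ι rk h hn m y0 T hm hs N lab l r hg hT d θ u hθ hu x t k hx1 hx2 ht0 ht1 hk
  have g0 : lab 0 = (y0, true) := hg.zero
  have gv : ∀ i ≤ N, l i - r i = sg (lab i).2 * X.v (lab i).1 := hg.vec
  have gs : ∀ i < N, (lab (i + 1) = (nx (PASS_cr ι (lab i)).1, (PASS_cr ι (lab i)).2) ∧
        r (i + 1) = r i) ∨
      (lab (i + 1) = (nx (nx (PASS_cr ι (lab i)).1), (PASS_cr ι (lab i)).2) ∧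
        l (i + 1) = l i) := hg.step
  have ge : PASS_cr ι (lab N) = (y0, false) := hg.exit
  have hend : ∀ c : Bool, X.glue (PASS_A ι c (lab N)) = PASS_A ι c (y0, false) := by
    intro c
    rw [PASS_glue h, ge]
  constructor
  · intro h3
    have key := PASS_key h hn hm hs g0 gv gs ge hT hθ hu true x t k hx1.symm
      (fun h4 => hx2 (by rw [← h4]; rfl)) ht0 ht1 hk
      (by
        show pt y0 (θ 0) - pt x t = k * (1 * d)
        rw [one_mul]; exact h3) N le_rfl
    rw [hend true, ge] at key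
    have e1 : sg true * d = d := by
      show (1 : ℂ) * d = d
      rw [one_mul]
    have e2 : PASS_s m true false / PASS_s m true true = m := by
      simp [PASS_s]
    rw [e1] at key
    have key' : Pth d (x, t) (jj ι y0, 1 - θ N) (PASS_s m true false / PASS_s m true true) :=
      key
    rw [e2] at key'
    exact key'
  · intro h3
    have key := PASS_key h hn hm hs g0 gv gs ge hT hθ hu false (jj ι x) t k
      (by
        show ι y0.1 = ι x.1
        rw [hx1])
      (fun h4 => hx2 (by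
        have h5 : jj ι (jj ι y0) = jj ι (jj ι x) := congrArg (jj ι) h4
        rw [jj_jj h.inv, jj_jj h.inv] at h5
        exact h5.symm)) ht0 ht1 hk
      (by
        show pt (jj ι y0) (θ 0) - pt (jj ι x) t = k * (-1 * d)
        rw [h3]; ring) N le_rfl
    rw [hend false, ge] at key
    have e1 : sg false * d = -d := by
      show (-1 : ℂ) * d = -d
      ring
    have e2 : PASS_s m false false / PASS_s m false true = m⁻¹ := by
      simp [PASS_s]
    rw [e1] at key
    have key' : Pth (-d) (jj ι x, t) (y0, 1 - θ N)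
        (PASS_s m false false / PASS_s m false true) := key
    rw [e2] at key'
    exact key'

end Pool.Agent.HYE
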