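import Pool.Agent.HYE.Targets

/-!
# HYE: the count of the end points in a triangle
-/

set_option autoImplicit false

open Finset

noncomputable section

namespace Pool.Agent.HYE

open Pool.Agent.GTW

theorem TRI_sub (p a b : ℂ) : crs p (a - b) = crs p a - crs p b := by
  rw [crs_eq, crs_eq, crs_eq]
  simp only [Complex.sub_re, Complex.sub_im]
  ring

theorem TRI_add (p a b : ℂ) : crs p (a + b) = crs p a + crs p b := by
  rw [crs_eq, crs_eq, crs_eq]
  simp only [Complex.add_re, Complex.add_im]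
  ring

theorem TRI_neg (p a : ℂ) : crs p (-a) = -crs p a := by
  rw [crs_eq, crs_eq]
  simp only [Complex.neg_re, Complex.neg_im]
  ring

theorem TRI_zero (p : ℂ) : crs p 0 = 0 := by
  rw [crs_eq]
  simp

theorem TRI_self (p : ℂ) : crs p p = 0 := by
  rw [crs_eq]
  ring

theorem TRI_ne1 (S : TS) (x : S.L) : ¬(S.nx x = x ∨ S.nx x = S.J x) := by
  have h := S.e_pos x
  rintro (h1 | h1)
  · rw [h1, TRI_self] at h
    exact lt_irrefl _ h
  · rw [h1, S.e_J, TRI_neg, TRI_self, neg_zero] at h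
    exact lt_irrefl _ h

theorem TRI_flip (S : TS) {x z : S.L} (h : ¬(x = z ∨ x = S.J z)) : ¬(z = x ∨ z = S.J x) := by
  rintro (h1 | h1)
  · exact h (Or.inl h1.symm)
  · apply h
    right
    rw [h1, S.J2]

theorem TRI_ne2 (S : TS) (x : S.L) : ¬(x = S.nx (S.nx x) ∨ x = S.J (S.nx (S.nx x))) := by
  have h := TRI_ne1 S (S.nx (S.nx x))
  rw [S.nx3] at h
  exact h

theorem TRI_ne3 (S : TS) (x : S.L) :
    ¬(S.nx (S.nx x) = S.nx x ∨ S.nx (S.nx x) = S.J (S.nx x)) := TRI_ne1 S (S.nx x)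

/-- the sum of the vectors of a triangle, seen from the direction `ψ` -/
theorem TRI_tot (S : TS) (ψ : ℂ) (x : S.L) :
    crs ψ (S.e x) + crs ψ (S.e (S.nx x)) + crs ψ (S.e (S.nx (S.nx x))) = 0 := by
  rw [← TRI_add, ← TRI_add, S.e_sum, TRI_zero]

open Classical in
/-- the four cases of one triangle, the side `z` is one of the three sides -/
theorem TRI_term (S : TS) (ψ : ℂ) (z b y : S.L) (L0 R0 L1 R1 h0 d : ℝ)
    (hz : crs ψ (S.e z) = R0 - L0) (hb : crs ψ (S.e b) = L1 - R1) (hL0 : 0 ≤ L0) (hL1 : 0 ≤ L1)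
    (hR0 : h0 < -R0) (hR1 : h0 < -R1) (hh : 0 < h0) (hd : 0 < d)
    (st : (b = S.nx z ∧ R1 = R0) ∨ (b = S.nx (S.nx z) ∧ L1 = L0))
    (hO : d < -crs ψ (S.e y) ∧ d < crs ψ (S.e (S.nx y)) ∨
      d < crs ψ (S.e y) ∧ d < -crs ψ (S.e (S.nx y)))
    (hc : z = y ∨ z = S.nx y ∨ z = S.nx (S.nx y)) :
    ((if (z = y ∨ z = S.J y) ∧ -R0 - h0 < d then 1 else 0) +
      (if (b = y ∨ b = S.J y) ∧ h0 + L1 < d then 1 else 0) : ℕ) =
    (if (z = S.nx y ∨ z = S.J (S.nx y)) ∧ h0 + L0 < d then 1 else 0) +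
      (if (b = S.nx y ∨ b = S.J (S.nx y)) ∧ -R1 - h0 < d then 1 else 0) := by
  have htot := TRI_tot S ψ y
  have n1 := TRI_ne1 S y
  have n1' := TRI_flip S n1
  have n2 := TRI_ne2 S y
  have n2' := TRI_flip S n2
  have n3 := TRI_ne3 S y
  have n3' := TRI_flip S n3
  rcases hc with hc | hc | hc
  · rcases st with ⟨st, sv⟩ | ⟨st, sv⟩
    · rw [hc] at st
      rw [st, hc, sv]
      simp only [n1, n1', true_or, false_and, true_and, if_false]
      ring
    · rw [hc] at st hz
      rw [st] at hb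
      rw [st, hc]
      have e1 : ¬(-R0 - h0 < d) := by
        rcases hO with ⟨o1, o2⟩ | ⟨o1, o2⟩
        · linarith
        · linarith
      simp only [n1', n2', n3, e1, false_and, and_false, if_false]
  · rcases st with ⟨st, sv⟩ | ⟨st, sv⟩
    · rw [hc] at st hz
      rw [st] at hb
      rw [st, hc]
      have e1 : ¬(h0 + L0 < d) := by
        rcases hO with ⟨o1, o2⟩ | ⟨o1, o2⟩
        · linarith
        · linarith
      simp only [n1, n2', n3, e1, false_and, and_false, if_false]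
    · rw [hc, S.nx3] at st
      rw [st, hc, sv]
      simp only [n1, n1', true_or, false_and, true_and, if_false]
      ring
  · rcases st with ⟨st, sv⟩ | ⟨st, sv⟩
    · rw [hc, S.nx3] at st
      rw [hc] at hz
      rw [st] at hb
      rw [st, hc]
      have e1 : ¬(h0 + L1 < d) := by
        rcases hO with ⟨o1, o2⟩ | ⟨o1, o2⟩
        · linarith
        · linarith
      simp only [n1', n2', n3, e1, false_and, and_false, if_false]
    · rw [hc, S.nx3] at st
      rw [hc] at hz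
      rw [st] at hb
      rw [st, hc]
      have e1 : ¬(-R1 - h0 < d) := by
        rcases hO with ⟨o1, o2⟩ | ⟨o1, o2⟩
        · linarith
        · linarith
      simp only [n1, n2', n3, e1, false_and, and_false, if_false]

theorem P_TRI : T_TRI := by
  intro S a N lab l r ψ hG hH h0 hh hr y d hd hO
  unfold cE cS
  refine Finset.sum_congr rfl fun i hi => ?_
  rw [Finset.mem_range] at hi
  have v0 := hG.vec i hi.le
  have v1 := hG.vec (i + 1) hi
  have hz : crs ψ (S.e (S.cr (lab i))) = crs ψ (r i - l 0) - crs ψ (l i - l 0) := by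
    rw [S.e_cr, ← v0, ← TRI_sub]
    congr 1
    ring
  have hb : crs ψ (S.e (lab (i + 1))) = crs ψ (l (i + 1) - l 0) - crs ψ (r (i + 1) - l 0) := by
    rw [← v1, ← TRI_sub]
    congr 1
    ring
  have hst : (lab (i + 1) = S.nx (S.cr (lab i)) ∧ crs ψ (r (i + 1) - l 0) = crs ψ (r i - l 0)) ∨
      (lab (i + 1) = S.nx (S.nx (S.cr (lab i))) ∧
        crs ψ (l (i + 1) - l 0) = crs ψ (l i - l 0)) := by
    rcases hG.step i hi with ⟨h1, h2⟩ | ⟨h1, h2⟩
    · left
      exact ⟨h1, by rw [h2]⟩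
    · right
      exact ⟨h1, by rw [h2]⟩
  have key : ∀ y' : S.L, (d < -crs ψ (S.e y') ∧ d < crs ψ (S.e (S.nx y')) ∨
      d < crs ψ (S.e y') ∧ d < -crs ψ (S.e (S.nx y'))) →
      (S.cr (lab i) = y' ∨ S.cr (lab i) = S.nx y' ∨ S.cr (lab i) = S.nx (S.nx y')) → _ :=
    fun y' hO' hc' => TRI_term S ψ (S.cr (lab i)) (lab (i + 1)) y' (crs ψ (l i - l 0))
      (crs ψ (r i - l 0)) (crs ψ (l (i + 1) - l 0)) (crs ψ (r (i + 1) - l 0)) h0 d hz hb
      (hH.left i hi.le) (hH.left (i + 1) hi) (hr i hi.le) (hr (i + 1) hi) hh hd hst hO' hc'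
  by_cases c1 : S.cr (lab i) = y ∨ S.cr (lab i) = S.nx y ∨ S.cr (lab i) = S.nx (S.nx y)
  · exact key y hO c1
  by_cases c2 : S.cr (lab i) = S.J y ∨ S.cr (lab i) = S.nx (S.J y) ∨
      S.cr (lab i) = S.nx (S.nx (S.J y))
  · have hO' : d < -crs ψ (S.e (S.J y)) ∧ d < crs ψ (S.e (S.nx (S.J y))) ∨
        d < crs ψ (S.e (S.J y)) ∧ d < -crs ψ (S.e (S.nx (S.J y))) := by
      rw [← S.Jnx, S.e_J, S.e_J, TRI_neg, TRI_neg, neg_neg, neg_neg]
      exact hO.symm
    have h1 := key (S.J y) hO' c2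
    rw [← S.Jnx, S.J2, S.J2] at h1
    have e : ∀ (p q : Prop) (i1 : Decidable p) (i2 : Decidable q), (p ↔ q) →
        (@ite ℕ p i1 1 0) = (@ite ℕ q i2 1 0) := by
      intro p q i1 i2 h
      by_cases hp : p
      · rw [if_pos hp, if_pos (h.mp hp)]
      · rw [if_neg hp, if_neg (fun hq => hp (h.mpr hq))]
    refine Eq.trans (congrArg₂ (· + ·) (e _ _ _ _ ?_) (e _ _ _ _ ?_))
      (h1.trans (congrArg₂ (· + ·) (e _ _ _ _ ?_) (e _ _ _ _ ?_)))
    all_goals exact and_congr Or.comm Iff.rfl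
  · push Not at c1 c2
    obtain ⟨a1, a2, a3⟩ := c1
    obtain ⟨b1, b2, b3⟩ := c2
    rw [← S.Jnx] at b2
    rw [← S.Jnx, ← S.Jnx] at b3
    have d1 : ¬(S.cr (lab i) = y ∨ S.cr (lab i) = S.J y) := by
      rintro (h | h)
      · exact a1 h
      · exact b1 h
    have d2 : ¬(S.cr (lab i) = S.nx y ∨ S.cr (lab i) = S.J (S.nx y)) := by
      rintro (h | h)
      · exact a2 h
      · exact b2 h
    have d3 : ¬(lab (i + 1) = y ∨ lab (i + 1) = S.J y) := by
      rcases hst with ⟨h1, -⟩ | ⟨h1, -⟩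
      · rw [h1]
        rintro (h | h)
        · apply a3
          rw [← h, S.nx3]
        · apply b3
          rw [S.Jnx, S.Jnx, ← h, S.nx3]
      · rw [h1]
        rintro (h | h)
        · apply a2
          rw [← h, S.nx3]
        · apply b2
          rw [S.Jnx, ← h, S.nx3]
    have d4 : ¬(lab (i + 1) = S.nx y ∨ lab (i + 1) = S.J (S.nx y)) := by
      rcases hst with ⟨h1, -⟩ | ⟨h1, -⟩
      · rw [h1]
        rintro (h | h)
        · apply a1
          have h2 := congrArg (fun x => S.nx (S.nx x)) h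
          simpa only [S.nx3] using h2
        · apply b1
          have h2 := congrArg (fun x => S.nx (S.nx x)) h
          simpa only [S.Jnx, S.nx3] using h2
      · rw [h1]
        rintro (h | h)
        · apply a3
          have h2 := congrArg S.nx h
          simpa only [S.nx3] using h2
        · apply b3
          have h2 := congrArg S.nx h
          simpa only [S.Jnx, S.nx3] using h2
    simp only [d1, d2, d3, d4, false_and, if_false]

end Pool.Agent.HYE
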