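import Pool.Agent.HYE.Targets

/-!
# HYE: the wedge (target T_WED)
-/

set_option autoImplicit false

open Finset

noncomputable section

namespace Pool.Agent.HYE

open Pool.Agent.GTW

theorem WED_plu (a b c d : ℂ) :
    crs a b * crs c d - crs a c * crs b d + crs a d * crs b c = 0 := by
  simp only [crs_eq]
  ring

theorem WED_sub (a b c : ℂ) : crs a (b - c) = crs a b - crs a c := by
  simp only [crs_eq, Complex.sub_re, Complex.sub_im]
  ring

theorem WED_sub' (a b c : ℂ) : crs (a - b) c = crs a c - crs b c := by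
  simp only [crs_eq, Complex.sub_re, Complex.sub_im]
  ring

theorem WED_anti (a b : ℂ) : crs a b = -crs b a := by
  simp only [crs_eq]
  ring

theorem WED_self (a : ℂ) : crs a a = 0 := by
  simp only [crs_eq]
  ring

theorem WED_smul (t : ℝ) (a b : ℂ) : crs a ((t : ℂ) * b) = t * crs a b := by
  simp only [crs_eq, Complex.mul_re, Complex.mul_im, Complex.ofReal_re, Complex.ofReal_im]
  ring

/-- the coordinate along `ψ` -/
theorem WED_coord (p a b : ℂ) : (p.re ^ 2 + p.im ^ 2) * crs a b =
    (p.re * a.re + p.im * a.im) * crs p b - crs p a * (p.re * b.re + p.im * b.im) := by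
  simp only [crs_eq]
  ring

theorem P_WED (h : T_MONO) : T_WED := by
  intro N l r ψ hPG hug _ hpar t ht i0 hi0
  obtain ⟨x, hx⟩ : ∃ x : ℂ, x = l 0 - t * ψ := ⟨_, rfl⟩
  rw [← hx]
  have hψx : ∀ z : ℂ, crs ψ (z - x) = crs ψ (z - l 0) := by
    intro z
    rw [hx, WED_sub, WED_sub, WED_sub, WED_smul, WED_self]
    ring
  have hlx : ∀ i ≤ N, 0 ≤ crs ψ (l i - x) := by
    intro i hi
    rw [hψx]
    exact hug.left i hi
  have hrx : ∀ i ≤ N, crs ψ (r i - x) < 0 := by
    intro i hi
    rw [hψx]
    exact hug.right i hi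
  have he : ∀ i, crs ψ (l i - r i) = crs ψ (l i - x) - crs ψ (r i - x) := by
    intro i
    simp only [WED_sub]
    ring
  have hepos : ∀ i ≤ N, 0 < crs ψ (l i - r i) := by
    intro i hi
    rw [he]
    linarith [hlx i hi, hrx i hi]
  -- (1)
  have hA : ∀ i ≤ N, 0 < crs (l i - r i) (x - r i) := by
    intro i hi
    have h1 := h N l r hPG x ψ hlx (fun k hk => (hrx k hk).le) hepos 0 i (Nat.zero_le _) hi
    have h0 : crs (l 0 - r 0) (x - r 0) = t * crs ψ (l 0 - r 0) := by
      have h2 : x - r 0 = (l 0 - r 0) - t * ψ := by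
        rw [hx]
        ring
      rw [h2, WED_sub, WED_self, WED_smul, WED_anti (l 0 - r 0) ψ]
      ring
    rw [h0, mul_div_assoc, div_self (hepos 0 (Nat.zero_le _)).ne', mul_one] at h1
    have h3 := hepos i hi
    rw [le_div_iff₀ h3] at h1
    have := mul_pos ht h3
    linarith
  have hAr : ∀ i, crs (l i - r i) (x - r i) = crs (r i - x) (l i - x) := by
    intro i
    simp only [crs_eq, Complex.sub_re, Complex.sub_im]
    ring
  have hn : 0 < ψ.re ^ 2 + ψ.im ^ 2 := by
    have h1 := hug.right 0 (Nat.zero_le _)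
    rw [crs_eq] at h1
    by_contra h2
    have h3 : ψ.re = 0 := by nlinarith [sq_nonneg ψ.re, sq_nonneg ψ.im]
    have h4 : ψ.im = 0 := by nlinarith [sq_nonneg ψ.re, sq_nonneg ψ.im]
    rw [h3, h4] at h1
    simp at h1
  -- (2)
  obtain ⟨g, hg⟩ : ∃ g : ℕ → ℝ, g = fun i =>
    (ψ.re * (r i - x).re + ψ.im * (r i - x).im) / (-crs ψ (r i - x)) := ⟨_, rfl⟩
  obtain ⟨j, hj, hmax⟩ := Finset.exists_max_image (range (N + 1)) g ⟨0, by simp⟩
  have hjN : j ≤ N := by
    have := Finset.mem_range.1 hj
    omega
  have hlead : ∀ i ≤ N, crs (r j - x) (r i - x) ≤ 0 := by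
    intro i hi
    have h1 := hmax i (Finset.mem_range.2 (by omega))
    rw [hg] at h1
    simp only at h1
    have h2 := hrx i hi
    have h3 := hrx j hjN
    rw [div_le_div_iff₀ (by linarith) (by linarith)] at h1
    have h4 := WED_coord ψ (r j - x) (r i - x)
    by_contra h5
    push Not at h5
    have h6 := mul_pos hn h5
    linarith
  -- (3)
  have hdl : ∀ i ≤ N, 0 < crs (r j - x) (l i - x) := by
    intro i hi
    have h1 := WED_plu ψ (r i - x) (r j - x) (l i - x)
    have h2 := hA i hi
    rw [hAr] at h2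
    have h3 := hlead i hi
    have h4 := hlx i hi
    have h5 := hrx i hi
    have h6 := hrx j hjN
    have h7 := WED_anti (r i - x) (r j - x)
    rw [h7] at h1
    have h8 : 0 < -crs ψ (r j - x) * crs (r i - x) (l i - x) := mul_pos (by linarith) h2
    have h9 : 0 ≤ crs ψ (l i - x) * -crs (r j - x) (r i - x) := mul_nonneg h4 (by linarith)
    have h10 : 0 < -crs ψ (r i - x) * crs (r j - x) (l i - x) := by linarith
    exact (pos_iff_pos_of_mul_pos h10).1 (by linarith)
  have hde : ∀ i ≤ N, 0 < crs (r j - x) (l i - r i) := by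
    intro i hi
    have h1 : crs (r j - x) (l i - r i) = crs (r j - x) (l i - x) - crs (r j - x) (r i - x) := by
      simp only [WED_sub]
      ring
    rw [h1]
    linarith [hlead i hi, hdl i hi]
  -- (4)
  have h4 : 0 ≤ crs (l N - r N) (r j - r N) := by
    have h1 := h N l r hPG x (r j - x) (fun k hk => (hdl k hk).le) hlead hde j N hjN le_rfl
    have h2 : crs (l j - r j) (x - r j) = crs (r j - x) (l j - r j) := by
      simp only [crs_eq, Complex.sub_re, Complex.sub_im]
      ring
    rw [h2, div_self (hde j hjN).ne', le_div_iff₀ (hde N le_rfl), one_mul] at h1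
    have h3 : crs (l N - r N) (r j - r N) =
        crs (l N - r N) (x - r N) - crs (r j - x) (l N - r N) := by
      simp only [crs_eq, Complex.sub_re, Complex.sub_im]
      ring
    linarith
  -- (5)
  have h5 : crs (r N - x) (r j - x) ≤ 0 := by
    have h1 : crs ψ (l N - r N) * crs (r N - x) (r j - x) =
        -(crs (l N - r N) (r j - r N) * -crs ψ (r N - x) +
          -crs ψ (r j - r N) * crs (l N - r N) (x - r N)) := by
      simp only [crs_eq, Complex.sub_re, Complex.sub_im]
      ring
    have h2 := hrx N le_rfl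
    have h3 := hpar j hjN
    have h6 := hA N le_rfl
    have h7 : 0 ≤ crs (l N - r N) (r j - r N) * -crs ψ (r N - x) :=
      mul_nonneg h4 (by linarith)
    have h8 : 0 ≤ -crs ψ (r j - r N) * crs (l N - r N) (x - r N) :=
      mul_nonneg (by linarith) h6.le
    by_contra h9
    push Not at h9
    have h10 := mul_pos (hepos N le_rfl) h9
    linarith
  -- (6)
  have h6 : -crs ψ (r j - x) * crs (r N - x) (r i0 - x) =
      -crs ψ (r i0 - x) * crs (r N - x) (r j - x) +
      -crs ψ (r N - x) * crs (r j - x) (r i0 - x) := by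
    simp only [crs_eq, Complex.sub_re, Complex.sub_im]
    ring
  have h7 := hrx j hjN
  have h8 := hrx i0 hi0
  have h9 := hrx N le_rfl
  have h10 := hlead i0 hi0
  have h11 : -crs ψ (r i0 - x) * crs (r N - x) (r j - x) ≤ 0 :=
    mul_nonpos_of_nonneg_of_nonpos (by linarith) h5
  have h12 : -crs ψ (r N - x) * crs (r j - x) (r i0 - x) ≤ 0 :=
    mul_nonpos_of_nonneg_of_nonpos (by linarith) h10
  by_contra h13
  push Not at h13
  have h14 : 0 < -crs ψ (r j - x) * crs (r N - x) (r i0 - x) := mul_pos (by linarith) h13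
  linarith

end Pool.Agent.HYE
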