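import Pool.Agent.HYE.Main
import Pool.Agent.HYE.P_EXIT
import Pool.Agent.HYE.P_EVEN
import Pool.Agent.HYE.P_TRI
import Pool.Agent.HYE.P_CROSS
import Pool.Agent.HYE.P_PAR
import Pool.Agent.HYE.P_PAL
import Pool.Agent.HYE.P_LINE
import Pool.Agent.HYE.P_WED
import Pool.Agent.HYE.P_PASS
import Pool.Agent.HYE.P_CORE
import Pool.Agent.HYE.P_MAIN
import Pool.Agent.HYE.P_NORM
import Pool.Agent.HYE.P_NONV

/-!
# HYE: the theorem
-/

set_option autoImplicit false

noncomputable section

namespace Pool.Agent.HYE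

open Pool.Agent.GTW

/-- A hyperelliptic affine surface that is not a translation surface has a hyperbolic closed
regular geodesic. -/
theorem hyperelliptic (X : Glued) (ι : X.F → X.F) (rk : D X → ℕ) (h : Hyp X ι rk)
    (hn : ¬ IsTranslation X) : HasHyperbolic X :=
  final P_NORM (P_MAIN (P_CORE (P_FB P_EXIT
    (P_PAR P_MEM (P_EVEN P_MEM) P_TRI P_CROSS P_COMP) P_PAL (P_WED P_MONO))
    P_LINE P_PASS)) X ι rk h hn

end Pool.Agent.HYE
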