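import Pool.Agent.HYE.Targets

/-!
# HYE: CAP, MEM, FB
-/

set_option autoImplicit false

open Finset

noncomputable section

namespace Pool.Agent.HYE

open Pool.Agent.GTW

theorem P_CAP : T_CAP := by
  intro X ι rk h hn m y0 T hs
  have hgl : ∀ y : D X, X.glue y ≠ jj ι y → X.glue (X.glue y) ≠ jj ι (X.glue y) := by
    intro y hy h3
    apply hy
    rw [X.glue_glue, ← h.comm] at h3
    have := congrArg X.glue h3
    rwa [X.glue_glue] at this
  refine ⟨hs.nin, ?_, fun x hx => hx, fun x hx => hx, ?_⟩
  · by_cases hy : X.glue y0 = jj ι y0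
    · left
      show (if X.glue y0 = jj ι y0 then (y0, !true) else (X.glue y0, true)) = (y0, !true)
      rw [if_pos hy]
    · right
      show (if X.glue y0 = jj ι y0 then (y0, !true) else (X.glue y0, true)).1.1 ∈ T
      rw [if_neg hy]
      rcases hs.gin with h1 | h1
      · exact absurd h1 hy
      · exact h1
  · rintro ⟨y, b⟩ hx h1 h2
    have hyT : y.1 ∈ T := hx
    have e1 : (ts X ι rk h hn).cr (y0, true) =
      if X.glue y0 = jj ι y0 then (y0, !true) else (X.glue y0, true) := rfl
    have e2 : (ts X ι rk h hn).J ((ts X ι rk h hn).cr (y0, true)) =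
      ((if X.glue y0 = jj ι y0 then (y0, !true) else (X.glue y0, true)).1,
        !(if X.glue y0 = jj ι y0 then (y0, !true) else (X.glue y0, true)).2) := rfl
    rw [e1] at h1
    rw [e2] at h2
    show (if X.glue y = jj ι y then (y, !b) else (X.glue y, b)).1.1 ∈ T
    by_cases hy : X.glue y = jj ι y
    · rw [if_pos hy]; exact hyT
    · rw [if_neg hy]
      have hne : y ≠ X.glue y0 := by
        intro he
        by_cases hy0 : X.glue y0 = jj ι y0
        · apply hy
          rw [he, X.glue_glue, hy0, jj_jj h.inv]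
        · rw [if_neg hy0] at h1 h2
          cases b
          · exact h2 (by rw [he]; rfl)
          · exact h1 (by rw [he])
      rcases hs.cl y hyT hne with h3 | h3
      · exact absurd h3 hy
      · exact h3

theorem crs_add_right (a b c : ℂ) : crs a (b + c) = crs a b + crs a c := by
  simp only [crs_eq, Complex.add_re, Complex.add_im]; ring

theorem crs_sub_right (a b c : ℂ) : crs a (b - c) = crs a b - crs a c := by
  simp only [crs_eq, Complex.sub_re, Complex.sub_im]; ring

theorem crs_neg_right (a b : ℂ) : crs a (-b) = -crs a b := by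
  simp only [crs_eq, Complex.neg_re, Complex.neg_im]; ring

theorem crs_neg_left (a b : ℂ) : crs (-a) b = -crs a b := by
  simp only [crs_eq, Complex.neg_re, Complex.neg_im]; ring

/-- the labels of a gallery point to the left -/
theorem Hug.e_pos {S : TS} {a : S.L} {N : ℕ} {lab : ℕ → S.L} {l r : ℕ → ℂ} {ψ : ℂ}
    (hg : Gal S a N lab l r) (hh : Hug ψ N l r) (i : ℕ) (hi : i ≤ N) :
    0 < crs ψ (S.e (lab i)) := by
  rw [← hg.vec i hi]
  have h1 := hh.left i hi
  have h2 := hh.right i hi
  have e : l i - r i = (l i - l 0) - (r i - l 0) := by ring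
  rw [e, crs_sub_right]
  linarith

theorem P_MEM : T_MEM := by
  intro S a T hc N lab l r ψ hg hh i h1 hi
  have ha : 0 < crs ψ (S.e a) := by
    have := Hug.e_pos hg hh 0 (Nat.zero_le _)
    rwa [hg.zero] at this
  have key : ∀ k, k < N → S.cr (lab k) ∈ T := by
    intro k
    induction k with
    | zero =>
      intro hk
      have h2 := hg.noexit 0 hk
      rw [hg.zero] at h2 ⊢
      rcases hc.cr_a with h3 | h3
      · exact absurd h3 h2
      · exact h3
    | succ k ih =>
      intro hk
      have h3 := ih (by omega)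
      have h4 : lab (k + 1) ∈ T := by
        rcases hg.step k (by omega) with ⟨h5, _⟩ | ⟨h5, _⟩
        · rw [h5]; exact hc.nx_in _ h3
        · rw [h5]; exact hc.nx_in _ (hc.nx_in _ h3)
      refine hc.cr_in _ h4 ?_ ?_
      · intro h5
        have h6 := Hug.e_pos hg hh (k + 1) (by omega)
        rw [h5, S.e_cr, crs_neg_right] at h6
        linarith
      · intro h5
        have h6 := hg.noexit (k + 1) hk
        apply h6
        rw [h5, S.Jcr, S.cr2]
  obtain ⟨k, rfl⟩ : ∃ k, i = k + 1 := ⟨i - 1, by omega⟩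
  rcases hg.step k (by omega) with ⟨h5, _⟩ | ⟨h5, _⟩
  · rw [h5]; exact hc.nx_in _ (key k (by omega))
  · rw [h5]; exact hc.nx_in _ (hc.nx_in _ (key k (by omega)))

/-- a gallery has the geometry `PG` -/
theorem Gal.pg {S : TS} {a : S.L} {N : ℕ} {lab : ℕ → S.L} {l r : ℕ → ℂ}
    (hg : Gal S a N lab l r) : PG N l r := by
  intro i hi
  have v1 := hg.vec i hi.le
  have v2 := hg.vec (i + 1) hi
  have hs := S.e_sum (S.cr (lab i))
  have hp := S.e_pos (S.cr (lab i))
  rw [S.e_cr, ← v1] at hs hp
  rcases hg.step i hi with ⟨h5, h6⟩ | ⟨h5, h6⟩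
  · left
    refine ⟨h6, ?_⟩
    rw [h5, h6] at v2
    rw [← v2, crs_neg_left] at hp
    linarith
  · right
    refine ⟨h6, ?_⟩
    rw [h5, h6] at v2
    rw [← v2] at hs
    have e : S.e (S.nx (S.cr (lab i))) = r (i + 1) - r i := by linear_combination hs
    rw [e, crs_neg_left] at hp
    linarith

/-- the summary -/
theorem P_FB (h1 : T_EXIT) (h2 : T_PAR) (h3 : T_PAL) (h4 : T_WED) : T_FB := by
  intro X ι rk h hn m y0 T hs l0 ψ hψ
  have hc := P_CAP X ι rk h hn m y0 T hs
  have he : (ts X ι rk h hn).e (y0, true) = X.v y0 := by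
    show sg true * X.v y0 = X.v y0
    simp [sg]
  obtain ⟨N, lab, l, r, hg, hl, hh⟩ := h1 (ts X ι rk h hn) (y0, true) _ hc ψ l0 (by rw [he]; exact hψ)
  have hpar := h2 (ts X ι rk h hn) (y0, true) _ hc N lab l r ψ hg hh
  have hpal := h3 (ts X ι rk h hn) (y0, true) N lab l r ψ hg hh hpar
  have v0 : l 0 - r 0 = X.v y0 := by
    rw [hg.vec 0 (Nat.zero_le _), hg.zero, he]
  have vN : l N - r N = X.v y0 := by
    have := (hpal 0 (Nat.zero_le _)).2.1
    rw [Nat.sub_zero] at this
    rw [← v0]
    linear_combination this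
  refine ⟨N, lab, l, r, hg, ?_, hl, v0, vN, hh, hg.pg, fun i hi => (hpal i hi).2, ?_⟩
  · intro i h5 h6
    exact P_MEM (ts X ι rk h hn) (y0, true) _ hc N lab l r ψ hg hh i h5 h6
  · exact h4 N l r ψ hg.pg hh (by rw [v0, vN]) hpar

end Pool.Agent.HYE
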