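import Pool.Agent.GTW.Base
import Pool.Agent.GTW.P_PTH

/-!
# HYE: hyperbolic closed geodesics on hyperelliptic affine surfaces (MP_3243b0_gt)
-/

set_option autoImplicit false

open Finset

noncomputable section

namespace Pool.Agent.HYE

open Pool.Agent.GTW

/-! ## The surfaces -/

/-- the dart of the triangle `ι f` with the same number as the dart `x` of the triangle `f` -/
def jj {X : Glued} (ι : X.F → X.F) (x : D X) : D X := (ι x.1, x.2)

/-- **Hyperelliptic triangulation.** `ι` is an involution of the triangles which preserves the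
numbering of the sides and commutes with the gluing. For every side `x` either `x` is glued to its
own image `jj ι x`, or the rank decreases behind `x`: so the triangles, glued along the sides of
the second kind only, form trees. (Then `X` is glued from pairs of polygons `P`, `P'` with the same
triangulation, the side `i` of `P` to the side `i` of `P'`.) -/
structure Hyp (X : Glued) (ι : X.F → X.F) (rk : D X → ℕ) : Prop where
  inv : ∀ f, ι (ι f) = f
  comm : ∀ x : D X, X.glue (jj ι x) = jj ι (X.glue x)
  alt : ∀ x : D X, X.glue x = jj ι x ∨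
    (rk (nx (X.glue x)) < rk x ∧ rk (pv (X.glue x)) < rk x)

/-- normalised: the gluing maps inside the polygons are translations -/
def Nrm (X : Glued) (ι : X.F → X.F) : Prop := ∀ x : D X, X.glue x ≠ jj ι x → X.mu x = 1

/-- The part `T` of the surface behind the side `y0` and the image of this part under `ι` differ by
the factor `m`. -/
structure Sym (X : Glued) (ι : X.F → X.F) (m : ℝ) (y0 : D X) (T : Set X.F) : Prop where
  nin : y0.1 ∉ T
  gin : X.glue y0 = jj ι y0 ∨ (X.glue y0).1 ∈ T
  cl : ∀ y : D X, y.1 ∈ T → y ≠ X.glue y0 → X.glue y = jj ι y ∨ (X.glue y).1 ∈ T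
  self : X.v (jj ι y0) = -((m : ℂ) * X.v y0)
  all : ∀ y : D X, y.1 ∈ T → X.v (jj ι y) = -((m : ℂ) * X.v y)

/-! ## Translation surfaces with an involution -/

/-- A triangulated translation surface with an involution `J` (rotation by `π`): `L` = the sides
of the triangles, `nx x` = the next side (counterclockwise), `cr x` = the side glued to `x`,
`e x` = the vector of the side `x`. -/
structure TS where
  /-- the sides -/
  L : Type
  /-- there are finitely many sides -/
  fin : Finite L
  /-- the next side of the same triangle -/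
  nx : L → L
  /-- the side glued to a side -/
  cr : L → L
  /-- the involution -/
  J : L → L
  /-- the vector of a side -/
  e : L → ℂ
  /-- the rank of a side -/
  rk : L → ℕ
  nx3 : ∀ x, nx (nx (nx x)) = x
  cr2 : ∀ x, cr (cr x) = x
  J2 : ∀ x, J (J x) = x
  Jcr : ∀ x, J (cr x) = cr (J x)
  Jnx : ∀ x, J (nx x) = nx (J x)
  e_sum : ∀ x, e x + e (nx x) + e (nx (nx x)) = 0
  e_pos : ∀ x, 0 < crs (e x) (e (nx x))
  e_cr : ∀ x, e (cr x) = -e x
  e_J : ∀ x, e (J x) = -e x
  rk_lt : ∀ x, cr x ≠ J x → rk (nx (cr x)) < rk x ∧ rk (nx (nx (cr x))) < rk x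

/-- `T` is the part of the surface behind the side `a` (a union of triangles) -/
structure Cap (S : TS) (a : S.L) (T : Set S.L) : Prop where
  a_nin : a ∉ T
  cr_a : S.cr a = S.J a ∨ S.cr a ∈ T
  nx_in : ∀ x ∈ T, S.nx x ∈ T
  J_in : ∀ x ∈ T, S.J x ∈ T
  cr_in : ∀ x ∈ T, x ≠ S.cr a → x ≠ S.J (S.cr a) → S.cr x ∈ T

/-- A gallery: the sides `lab 0 = a, ..., lab N` are crossed one after the other (from the triangle
on the left of the side to the glued one), until the side `a` is crossed in the other direction
(in the copy turned by `π`). The `i`-th side is developed to the segment from `r i` (right) to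
`l i` (left). -/
structure Gal (S : TS) (a : S.L) (N : ℕ) (lab : ℕ → S.L) (l r : ℕ → ℂ) : Prop where
  zero : lab 0 = a
  vec : ∀ i ≤ N, l i - r i = S.e (lab i)
  step : ∀ i < N, (lab (i + 1) = S.nx (S.cr (lab i)) ∧ r (i + 1) = r i) ∨
    (lab (i + 1) = S.nx (S.nx (S.cr (lab i))) ∧ l (i + 1) = l i)
  noexit : ∀ i < N, S.cr (lab i) ≠ S.J a
  exit : S.cr (lab N) = S.J a

/-- The gallery of the trajectory in the direction `ψ` that starts at `l 0`: the vertices `l i`
are on the left side of the line or on it, the vertices `r i` are strictly on the right side. -/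
structure Hug (ψ : ℂ) (N : ℕ) (l r : ℕ → ℂ) : Prop where
  left : ∀ i ≤ N, 0 ≤ crs ψ (l i - l 0)
  right : ∀ i ≤ N, crs ψ (r i - l 0) < 0

/-- the geometry of a gallery: the apex of the next triangle is on the far side of the edge -/
def PG (N : ℕ) (l r : ℕ → ℂ) : Prop := ∀ i < N,
  (r (i + 1) = r i ∧ crs (l i - r i) (l (i + 1) - r i) < 0) ∨
  (l (i + 1) = l i ∧ crs (l i - r i) (r (i + 1) - r i) < 0)

/-! ## The translation surface of a normalised hyperelliptic surface -/

/-- the sign -/
def sg (b : Bool) : ℂ := if b then 1 else -1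

theorem sg_not (b : Bool) : sg (!b) = -sg b := by cases b <;> simp [sg]

theorem jj_jj {X : Glued} {ι : X.F → X.F} (h : ∀ f, ι (ι f) = f) (x : D X) :
    jj ι (jj ι x) = x := by
  rcases x with ⟨f, i⟩; simp [jj, h f]

theorem jj_nx {X : Glued} (ι : X.F → X.F) (x : D X) : jj ι (nx x) = nx (jj ι x) := rfl

theorem jj_pv {X : Glued} (ι : X.F → X.F) (x : D X) : jj ι (pv x) = pv (jj ι x) := rfl

open Classical in
/-- The surface `P ∪ (-P)`: a label `(y, b)` is the dart `y`, in the copy `P` (`b = true`) or
in the copy turned by `π` (`b = false`). -/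
def ts (X : Glued) (ι : X.F → X.F) (rk : D X → ℕ) (h : Hyp X ι rk) (hn : Nrm X ι) : TS where
  L := D X × Bool
  fin := by
    have := X.fin
    infer_instance
  nx x := (nx x.1, x.2)
  cr x := if X.glue x.1 = jj ι x.1 then (x.1, !x.2) else (X.glue x.1, x.2)
  J x := (x.1, !x.2)
  e x := sg x.2 * X.v x.1
  rk x := rk x.1
  nx3 x := by
    show (nx (nx (nx x.1)), x.2) = x
    rw [nx_nx, pv_nx]
  cr2 x := by
    rcases x with ⟨y, b⟩
    by_cases hy : X.glue y = jj ι y
    · simp [hy]
    · have h2 : ¬ y = jj ι (X.glue y) := by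
        rw [← h.comm]
        intro h3
        apply hy
        have := congrArg X.glue h3
        rwa [X.glue_glue] at this
      simp [hy, h2, X.glue_glue]
  J2 x := by simp
  Jcr x := by
    rcases x with ⟨y, b⟩
    by_cases hy : X.glue y = jj ι y <;> simp [hy]
  Jnx x := rfl
  e_sum x := by
    show sg x.2 * X.v x.1 + sg x.2 * X.v (nx x.1) + sg x.2 * X.v (nx (nx x.1)) = 0
    rw [nx_nx]
    linear_combination (sg x.2) * v_sum x.1
  e_pos x := by
    show 0 < crs (sg x.2 * X.v x.1) (sg x.2 * X.v (nx x.1))
    have := crs_pos x.1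
    rcases x with ⟨y, b⟩
    rw [crs_eq] at this ⊢
    cases b <;> simp [sg] <;> simpa using this
  e_cr x := by
    rcases x with ⟨y, b⟩
    by_cases hy : X.glue y = jj ι y
    · simp only [hy, if_true]
      rw [sg_not]; ring
    · simp only [hy, if_false]
      rw [X.v_glue, hn y hy]
      push_cast; ring
  e_J x := by
    show sg (!x.2) * X.v x.1 = -(sg x.2 * X.v x.1)
    rw [sg_not]; ring
  rk_lt x hx := by
    rcases x with ⟨y, b⟩
    by_cases hy : X.glue y = jj ι y
    · exact absurd (by simp [hy]) hx
    · simp only [hy, if_false]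
      rw [nx_nx]
      rcases h.alt y with h1 | h1
      · exact absurd h1 hy
      · exact h1

end Pool.Agent.HYE
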