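import Pool.Agent.HYE.LDefs

/-!
# HYE, local version: CAP, FB
-/

set_option autoImplicit false

open Finset

noncomputable section

namespace Pool.Agent.HYE

open Pool.Agent.GTW

open Classical in
theorem LP_CAP (X : Glued) (ι : X.F → X.F) (rk : D X → ℕ) (Z : Set (D X))
    (h : ZOK X rk Z) (m : ℝ) (y0 : D X) (T : Set X.F) (hs : SymZ X ι Z m y0 T) :
    Cap (tsZ X rk Z h) (y0, true) {x | x.1.1 ∈ T} := by
  refine ⟨hs.nin, ?_, fun x hx => hx, fun x hx => hx, ?_⟩
  · by_cases hy : y0 ∈ Z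
    · right
      show (if y0 ∈ Z then (X.glue y0, true) else (y0, !true)).1.1 ∈ T
      rw [if_pos hy]
      exact hs.gin hy
    · left
      show (if y0 ∈ Z then (X.glue y0, true) else (y0, !true)) = (y0, !true)
      rw [if_neg hy]
  · rintro ⟨y, b⟩ hx h1 h2
    have hyT : y.1 ∈ T := hx
    have e1 : (tsZ X rk Z h).cr (y0, true) =
      if y0 ∈ Z then (X.glue y0, true) else (y0, !true) := rfl
    have e2 : (tsZ X rk Z h).J ((tsZ X rk Z h).cr (y0, true)) =
      ((if y0 ∈ Z then (X.glue y0, true) else (y0, !true)).1,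
        !(if y0 ∈ Z then (X.glue y0, true) else (y0, !true)).2) := rfl
    rw [e1] at h1
    rw [e2] at h2
    show (if y ∈ Z then (X.glue y, b) else (y, !b)).1.1 ∈ T
    by_cases hy : y ∈ Z
    · rw [if_pos hy]
      have hne : y ≠ X.glue y0 := by
        intro he
        by_cases hy0 : y0 ∈ Z
        · rw [if_pos hy0] at h1 h2
          cases b
          · exact h2 (by rw [he]; rfl)
          · exact h1 (by rw [he])
        · apply hy0
          have := h.gl y hy
          rwa [he, X.glue_glue] at this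
      exact hs.cl y hyT hne hy
    · rw [if_neg hy]; exact hyT

/-- the summary -/
theorem LP_FB (h1 : T_EXIT) (h2 : T_PAR) (h3 : T_PAL) (h4 : T_WED) : TL_FB := by
  intro X ι rk Z h m y0 T hs l0 ψ hψ
  have hc := LP_CAP X ι rk Z h m y0 T hs
  have he : (tsZ X rk Z h).e (y0, true) = X.v y0 := by
    show sg true * X.v y0 = X.v y0
    simp [sg]
  obtain ⟨N, lab, l, r, hg, hl, hh⟩ := h1 (tsZ X rk Z h) (y0, true) _ hc ψ l0 (by rw [he]; exact hψ)
  have hpar := h2 (tsZ X rk Z h) (y0, true) _ hc N lab l r ψ hg hh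
  have hpal := h3 (tsZ X rk Z h) (y0, true) N lab l r ψ hg hh hpar
  have v0 : l 0 - r 0 = X.v y0 := by
    rw [hg.vec 0 (Nat.zero_le _), hg.zero, he]
  have vN : l N - r N = X.v y0 := by
    have := (hpal 0 (Nat.zero_le _)).2.1
    rw [Nat.sub_zero] at this
    rw [← v0]
    linear_combination this
  refine ⟨N, lab, l, r, hg, ?_, hl, v0, vN, hh, hg.pg, fun i hi => (hpal i hi).2, ?_⟩
  · intro i h5 h6
    exact P_MEM (tsZ X rk Z h) (y0, true) _ hc N lab l r ψ hg hh i h5 h6
  · exact h4 N l r ψ hg.pg hh (by rw [v0, vN]) hpar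

end Pool.Agent.HYE
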