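import Pool.Agent.HYE.Base

/-!
# HYE, local version: hyperelliptic pieces of arbitrary affine surfaces
-/

set_option autoImplicit false

open Finset

noncomputable section

namespace Pool.Agent.HYE

open Pool.Agent.GTW

/-- **A hyperelliptic piece** of a surface `X`: `R` is a set of triangles (the polygon `P`), `ι` maps
them to other triangles (the polygon `P'`, with the same triangulation). Every side `y` of a triangle
of `P` except one side `δ` is either glued to the corresponding side `jj ι y` of `P'`, or it is a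
diagonal of `P`, and `jj ι y` is the corresponding diagonal of `P'`; the rank decreases behind the
diagonals, so the triangles of `P` form a tree. `conn`: `P` is connected. The sides `δ` and `jj ι δ`
are free: they may be glued to anything. -/
structure Piece (X : Glued) (ι : X.F → X.F) (rk : D X → ℕ) (R : Set X.F) (δ : D X) : Prop where
  mem : δ.1 ∈ R
  inj : ∀ f ∈ R, ∀ g ∈ R, ι f = ι g → f = g
  dis : ∀ f ∈ R, ι f ∉ R
  alt : ∀ y : D X, y.1 ∈ R → y ≠ δ → X.glue y = jj ι y ∨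
    ((X.glue y).1 ∈ R ∧ X.glue y ≠ δ ∧ X.glue (jj ι y) = jj ι (X.glue y) ∧
      rk (nx (X.glue y)) < rk y ∧ rk (pv (X.glue y)) < rk y)
  conn : ∀ T : Set X.F, T ⊆ R → δ.1 ∈ T →
    (∀ y : D X, y.1 ∈ T → (X.glue y).1 ∈ R → (X.glue y).1 ∈ T) → R ⊆ T

/-- The piece is a translation surface: after rescaling the triangles all the gluing maps inside the
piece (of all sides of its triangles except `δ`, `jj ι δ`) are translations, and the free sides
`δ`, `jj ι δ` are opposite vectors. -/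
def TransPiece (X : Glued) (ι : X.F → X.F) (R : Set X.F) (δ : D X) : Prop :=
  ∃ c : X.F → ℝ, (∀ f, 0 < c f) ∧ (∀ y : D X, y.1 ∈ R → y ≠ δ →
    c (X.glue y).1 * X.mu y = c y.1 ∧ c (X.glue (jj ι y)).1 * X.mu (jj ι y) = c (jj ι y).1) ∧
    (c (jj ι δ).1 : ℂ) * X.v (jj ι δ) = -((c δ.1 : ℂ) * X.v δ)

/-- the diagonals of `P` -/
def dg (X : Glued) (ι : X.F → X.F) (R : Set X.F) (δ : D X) : Set (D X) :=
  {y | y.1 ∈ R ∧ y ≠ δ ∧ X.glue y ≠ jj ι y}

/-- normalised: the gluing maps of the diagonals of `P` and `P'` are translations -/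
def NrmP (X : Glued) (ι : X.F → X.F) (R : Set X.F) (δ : D X) : Prop :=
  ∀ y ∈ dg X ι R δ, X.mu y = 1 ∧ X.mu (jj ι y) = 1

/-- a set of diagonals -/
structure ZOK (X : Glued) (rk : D X → ℕ) (Z : Set (D X)) : Prop where
  gl : ∀ x ∈ Z, X.glue x ∈ Z
  mu : ∀ x ∈ Z, X.mu x = 1
  rk : ∀ x ∈ Z, rk (nx (X.glue x)) < rk x ∧ rk (pv (X.glue x)) < rk x

/-- The part `T` of the surface behind the side `y0` and its image under `ι` differ by the
factor `m`; the diagonals are the sides in `Z`. -/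
structure SymZ (X : Glued) (ι : X.F → X.F) (Z : Set (D X)) (m : ℝ) (y0 : D X) (T : Set X.F) :
    Prop where
  nin : y0.1 ∉ T
  gin : y0 ∈ Z → (X.glue y0).1 ∈ T
  w0 : y0 ∉ Z → X.glue y0 = jj ι y0
  cl : ∀ y : D X, y.1 ∈ T → y ≠ X.glue y0 → y ∈ Z → (X.glue y).1 ∈ T
  w : ∀ y : D X, y.1 ∈ T → y ∉ Z → X.glue y = jj ι y
  comm0 : y0 ∈ Z → X.glue (jj ι y0) = jj ι (X.glue y0)
  comm : ∀ y : D X, y.1 ∈ T → y ∈ Z → X.glue (jj ι y) = jj ι (X.glue y)
  self : X.v (jj ι y0) = -((m : ℂ) * X.v y0)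
  all : ∀ y : D X, y.1 ∈ T → X.v (jj ι y) = -((m : ℂ) * X.v y)

open Classical in
/-- the surface `P ∪ (-P)` -/
def tsZ (X : Glued) (rk : D X → ℕ) (Z : Set (D X)) (h : ZOK X rk Z) : TS where
  L := D X × Bool
  fin := by
    have := X.fin
    infer_instance
  nx x := (nx x.1, x.2)
  cr x := if x.1 ∈ Z then (X.glue x.1, x.2) else (x.1, !x.2)
  J x := (x.1, !x.2)
  e x := sg x.2 * X.v x.1
  rk x := rk x.1
  nx3 x := by
    show (nx (nx (nx x.1)), x.2) = x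
    rw [nx_nx, pv_nx]
  cr2 x := by
    rcases x with ⟨y, b⟩
    by_cases hy : y ∈ Z
    · simp [hy, h.gl y hy, X.glue_glue]
    · simp [hy]
  J2 x := by simp
  Jcr x := by
    rcases x with ⟨y, b⟩
    by_cases hy : y ∈ Z <;> simp [hy]
  Jnx x := rfl
  e_sum x := by
    show sg x.2 * X.v x.1 + sg x.2 * X.v (nx x.1) + sg x.2 * X.v (nx (nx x.1)) = 0
    rw [nx_nx]
    linear_combination (sg x.2) * v_sum x.1
  e_pos x := by
    show 0 < crs (sg x.2 * X.v x.1) (sg x.2 * X.v (nx x.1))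
    have := crs_pos x.1
    rcases x with ⟨y, b⟩
    rw [crs_eq] at this ⊢
    cases b <;> simp [sg] <;> simpa using this
  e_cr x := by
    rcases x with ⟨y, b⟩
    by_cases hy : y ∈ Z
    · simp only [hy, if_true]
      rw [X.v_glue, h.mu y hy]
      push_cast; ring
    · simp only [hy, if_false]
      rw [sg_not]; ring
  e_J x := by
    show sg (!x.2) * X.v x.1 = -(sg x.2 * X.v x.1)
    rw [sg_not]; ring
  rk_lt x hx := by
    rcases x with ⟨y, b⟩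
    by_cases hy : y ∈ Z
    · simp only [hy, if_true]
      rw [nx_nx]
      exact h.rk y hy
    · exact absurd (by simp [hy]) hx

/-! ## Targets -/

/-- LFB -/
def TL_FB : Prop := ∀ (X : Glued) (ι : X.F → X.F) (rk : D X → ℕ) (Z : Set (D X))
  (h : ZOK X rk Z) (m : ℝ) (y0 : D X) (T : Set X.F), SymZ X ι Z m y0 T → ∀ l0 ψ : ℂ,
  0 < crs ψ (X.v y0) → ∃ (N : ℕ) (lab : ℕ → D X × Bool) (l r : ℕ → ℂ),
  Gal (tsZ X rk Z h) (y0, true) N lab l r ∧ (∀ i, 1 ≤ i → i ≤ N → (lab i).1.1 ∈ T) ∧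
  l 0 = l0 ∧ l 0 - r 0 = X.v y0 ∧ l N - r N = X.v y0 ∧ Hug ψ N l r ∧ PG N l r ∧
  (∀ i ≤ N, l (N - i) + r i = l 0 + r N ∧ r (N - i) + l i = l 0 + r N) ∧
  ∀ t : ℝ, 0 < t → ∀ i ≤ N, crs (r N - (l 0 - t * ψ)) (r i - (l 0 - t * ψ)) ≤ 0

/-- LPASS, the same as PASS for `SymZ` -/
def TL_PASS : Prop := ∀ (X : Glued) (ι : X.F → X.F) (rk : D X → ℕ) (Z : Set (D X))
  (h : ZOK X rk Z) (m : ℝ) (y0 : D X) (T : Set X.F), 0 < m → SymZ X ι Z m y0 T →
  ∀ (N : ℕ) (lab : ℕ → D X × Bool) (l r : ℕ → ℂ),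
  Gal (tsZ X rk Z h) (y0, true) N lab l r →
  (∀ i, 1 ≤ i → i ≤ N → (lab i).1.1 ∈ T) → ∀ (d : ℂ) (θ u : ℕ → ℝ),
  (∀ i ≤ N, 0 < θ i ∧ θ i < 1) →
  (∀ i < N, 0 < u i ∧
    r (i + 1) + θ (i + 1) * (l (i + 1) - r (i + 1)) - (r i + θ i * (l i - r i)) = u i * d) →
  ∀ (x : D X) (t k : ℝ), x.1 = y0.1 → x ≠ y0 → 0 < t → t < 1 → 0 < k →
  (pt y0 (θ 0) - pt x t = k * d → Pth d (x, t) (jj ι y0, 1 - θ N) m) ∧
  (pt (jj ι y0) (θ 0) - pt (jj ι x) t = -(k * d) →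
    Pth (-d) (jj ι x, t) (y0, 1 - θ N) m⁻¹)

/-- LCORE -/
def TL_CORE : Prop := ∀ (X : Glued) (ι : X.F → X.F) (rk : D X → ℕ) (Z : Set (D X)),
  ZOK X rk Z → ∀ (m1 m2 : ℝ) (y : D X) (T1 T2 : Set X.F), 0 < m1 → 0 < m2 → m1 ≠ m2 →
  SymZ X ι Z m1 y T1 → SymZ X ι Z m2 (nx y) T2 → HasHyperbolic X

/-- LMAIN -/
def TL_MAIN : Prop := ∀ (X : Glued) (ι : X.F → X.F) (rk : D X → ℕ) (R : Set X.F) (δ : D X),
  Piece X ι rk R δ → NrmP X ι R δ → HasHyperbolic X ∨ TransPiece X ι R δ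

/-- LNORM: the normalisation -/
def TL_NORM : Prop := ∀ (X : Glued) (ι : X.F → X.F) (rk : D X → ℕ) (R : Set X.F) (δ : D X),
  Piece X ι rk R δ →
  ∃ (Y : Glued) (κ : Y.F → Y.F) (rk' : D Y → ℕ) (R' : Set Y.F) (δ' : D Y),
    Piece Y κ rk' R' δ' ∧ NrmP Y κ R' δ' ∧
    (HasHyperbolic Y → HasHyperbolic X) ∧ (TransPiece Y κ R' δ' → TransPiece X ι R δ)

end Pool.Agent.HYE
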