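import Pool.Agent.HYE.LDefs
import Pool.Agent.HYE.P_MAIN

/-!
# HYE, local version: MAIN (induction over the tree of triangles)
-/

set_option autoImplicit false

open Finset

noncomputable section

namespace Pool.Agent.HYE

open Pool.Agent.GTW

namespace LMAIN

variable {X : Glued} {ι : X.F → X.F} {rk : D X → ℕ} {R : Set X.F} {δ : D X}

/-- the facts on a diagonal -/
theorem alt_dg (h : Piece X ι rk R δ) {y : D X} (hy : y ∈ dg X ι R δ) :
    (X.glue y).1 ∈ R ∧ X.glue y ≠ δ ∧ X.glue (jj ι y) = jj ι (X.glue y) ∧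
      rk (nx (X.glue y)) < rk y ∧ rk (pv (X.glue y)) < rk y := by
  rcases h.alt y hy.1 hy.2.1 with h1 | h1
  · exact absurd h1 hy.2.2
  · exact h1

/-- the sides which are not diagonals -/
theorem not_dg {y : D X} (hR : y.1 ∈ R) (hd : y ≠ δ) (hy : y ∉ dg X ι R δ) :
    X.glue y = jj ι y := by
  by_contra h1
  exact hy ⟨hR, hd, h1⟩

theorem zok (h : Piece X ι rk R δ) (hn : NrmP X ι R δ) : ZOK X rk (dg X ι R δ) := by
  refine ⟨?_, fun x hx => (hn x hx).1, fun x hx => (alt_dg h hx).2.2.2⟩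
  intro x hx
  obtain ⟨h1, h2, -, -⟩ := alt_dg h hx
  refine ⟨h1, h2, ?_⟩
  rw [X.glue_glue]
  intro h3
  apply h.dis _ h1
  have h4 := congrArg Prod.fst h3
  have h5 : x.1 = ι (X.glue x).1 := h4
  rw [← h5]
  exact hx.1

/-- the vector of the glued side of a diagonal -/
theorem v_glue_dg (hn : NrmP X ι R δ) {y : D X} (hy : y ∈ dg X ι R δ) :
    X.v (X.glue y) = -X.v y := by
  rw [X.v_glue, (hn y hy).1]
  push_cast
  ring

theorem v_jj_dg (h : Piece X ι rk R δ) (hn : NrmP X ι R δ) {y : D X}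
    (hy : y ∈ dg X ι R δ) : X.v (jj ι (X.glue y)) = -X.v (jj ι y) := by
  rw [← (alt_dg h hy).2.2.1, X.v_glue, (hn y hy).2]
  push_cast
  ring

/-- the properties of the part behind a side -/
structure Q (X : Glued) (ι : X.F → X.F) (R : Set X.F) (δ : D X) (y : D X) (T : Set X.F) :
    Prop where
  sub : T ⊆ R
  nin : y.1 ∉ T
  gin : y ∈ dg X ι R δ → (X.glue y).1 ∈ T
  cl : ∀ w : D X, w.1 ∈ T → w ≠ X.glue y → w ∈ dg X ι R δ → (X.glue w).1 ∈ T

/-- the union -/
theorem stepQ (h : Piece X ι rk R δ) (y : D X) (hy : y ∈ dg X ι R δ) (T1 T2 : Set X.F)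
    (s1 : Q X ι R δ (nx (X.glue y)) T1) (s2 : Q X ι R δ (pv (X.glue y)) T2) :
    Q X ι R δ y {f | f = (X.glue y).1 ∨ f ∈ T1 ∨ f ∈ T2} := by
  obtain ⟨a1, -, -, a2, a3⟩ := alt_dg h hy
  refine ⟨?_, ?_, fun _ => Or.inl rfl, ?_⟩
  · rintro f (h1 | h1 | h1)
    · rw [h1]; exact a1
    · exact s1.sub h1
    · exact s2.sub h1
  · rintro (h1 | h1 | h1)
    · rcases eq_or (X.glue y) y h1 with h4 | h4 | h4
      · exact X.glue_ne y h4.symm
      · rw [← h4] at a2
        exact lt_irrefl _ a2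
      · rw [← h4] at a3
        exact lt_irrefl _ a3
    · have h2 : y ≠ X.glue (nx (X.glue y)) := by
        intro h3
        have h4 := congrArg X.glue h3
        rw [X.glue_glue] at h4
        exact nx_ne _ h4.symm
      exact s1.nin (s1.cl y h1 h2 hy)
    · have h2 : y ≠ X.glue (pv (X.glue y)) := by
        intro h3
        have h4 := congrArg X.glue h3
        rw [X.glue_glue] at h4
        exact pv_ne _ h4.symm
      exact s2.nin (s2.cl y h1 h2 hy)
  · rintro w (h1 | h1 | h1) hw hwZ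
    · rcases eq_or (X.glue y) w h1 with h4 | h4 | h4
      · exact absurd h4 hw
      · right; left
        rw [h4] at hwZ ⊢
        exact s1.gin hwZ
      · right; right
        rw [h4] at hwZ ⊢
        exact s2.gin hwZ
    · by_cases h2 : w = X.glue (nx (X.glue y))
      · left
        rw [h2, X.glue_glue]
        rfl
      · exact Or.inr (Or.inl (s1.cl w h1 h2 hwZ))
    · by_cases h2 : w = X.glue (pv (X.glue y))
      · left
        rw [h2, X.glue_glue]
        rfl
      · exact Or.inr (Or.inr (s2.cl w h1 h2 hwZ))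

/-- the symmetry of the union -/
theorem stepS (h : Piece X ι rk R δ) (hn : NrmP X ι R δ) (y : D X) (hy : y ∈ dg X ι R δ)
    (m : ℝ) (T1 T2 : Set X.F)
    (q : Q X ι R δ y {f | f = (X.glue y).1 ∨ f ∈ T1 ∨ f ∈ T2})
    (hδ : δ.1 ∉ {f | f = (X.glue y).1 ∨ f ∈ T1 ∨ f ∈ T2})
    (s1 : SymZ X ι (dg X ι R δ) m (nx (X.glue y)) T1)
    (s2 : SymZ X ι (dg X ι R δ) m (pv (X.glue y)) T2) :
    SymZ X ι (dg X ι R δ) m y {f | f = (X.glue y).1 ∨ f ∈ T1 ∨ f ∈ T2} := by
  have hz : X.v (jj ι (X.glue y)) = -((m : ℂ) * X.v (X.glue y)) :=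
    MAIN_third m _ s1.self s2.self
  have hself : X.v (jj ι y) = -((m : ℂ) * X.v y) := by
    rw [v_jj_dg h hn hy, v_glue_dg hn hy] at hz
    linear_combination -hz
  refine ⟨q.nin, q.gin, fun h1 => absurd hy h1, q.cl, ?_, fun _ => (alt_dg h hy).2.2.1,
    fun w _ hw => (alt_dg h hw).2.2.1, hself, ?_⟩
  · intro w hw hwZ
    refine not_dg (q.sub hw) ?_ hwZ
    rintro rfl
    exact hδ hw
  · rintro w (h1 | h1 | h1)
    · rcases eq_or (X.glue y) w h1 with h4 | h4 | h4
      · rw [h4]; exact hz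
      · rw [h4]; exact s1.self
      · rw [h4]; exact s2.self
    · exact s1.all w h1
    · exact s2.all w h1

/-- the claim -/
theorem claim (hC : TL_CORE) (h : Piece X ι rk R δ) (hn : NrmP X ι R δ)
    (hH : ¬ HasHyperbolic X) :
    ∀ (k : ℕ) (y : D X), rk y = k → y.1 ∈ R → ∃ T : Set X.F, Q X ι R δ y T ∧
      (y = δ ∨ δ.1 ∈ T ∨ ∃ m : ℝ, 0 < m ∧ SymZ X ι (dg X ι R δ) m y T) := by
  intro k
  induction k using Nat.strong_induction_on with
  | _ k ih =>
    intro y hk hyR
    by_cases hy : y ∈ dg X ι R δ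
    · obtain ⟨a1, -, -, a2, a3⟩ := alt_dg h hy
      obtain ⟨T1, q1, e1⟩ := ih _ (hk ▸ a2) (nx (X.glue y)) rfl a1
      obtain ⟨T2, q2, e2⟩ := ih _ (hk ▸ a3) (pv (X.glue y)) rfl a1
      have q := stepQ h y hy T1 T2 q1 q2
      refine ⟨_, q, Or.inr ?_⟩
      by_cases hδ : δ.1 ∈ {f | f = (X.glue y).1 ∨ f ∈ T1 ∨ f ∈ T2}
      · exact Or.inl hδ
      · right
        rcases e1 with e1 | e1 | ⟨m1, hm1, s1⟩
        · exact absurd (Or.inl (by rw [← e1]; rfl)) hδ
        · exact absurd (Or.inr (Or.inl e1)) hδ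
        rcases e2 with e2 | e2 | ⟨m2, hm2, s2⟩
        · exact absurd (Or.inl (by rw [← e2]; rfl)) hδ
        · exact absurd (Or.inr (Or.inr e2)) hδ
        have hm : m1 = m2 := by
          by_contra hne
          apply hH
          refine hC X ι rk _ (zok h hn) m1 m2 _ T1 T2 hm1 hm2 hne s1 ?_
          rw [nx_nx]
          exact s2
        subst hm
        exact ⟨m1, hm1, stepS h hn y hy m1 T1 T2 q hδ s1 s2⟩
    · refine ⟨∅, ⟨fun _ h1 => h1.elim, fun h1 => h1, fun h1 => absurd h1 hy,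
        fun _ h1 => h1.elim⟩, ?_⟩
      by_cases hd : y = δ
      · exact Or.inl hd
      · right; right
        have hg := not_dg hyR hd hy
        refine ⟨X.mu y, X.mu_pos y, ⟨fun h1 => h1, fun h1 => absurd h1 hy, fun _ => hg,
          fun _ h1 => h1.elim, fun _ h1 => h1.elim, fun h1 => absurd h1 hy,
          fun _ h1 => h1.elim, ?_, fun _ h1 => h1.elim⟩⟩
        rw [← hg]
        exact X.v_glue y

/-- the factor is the same on the whole piece -/
theorem factor (hC : TL_CORE) (h : Piece X ι rk R δ) (hn : NrmP X ι R δ)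
    (hH : ¬ HasHyperbolic X) :
    ∃ m : ℝ, 0 < m ∧ ∀ y : D X, y.1 ∈ R → X.v (jj ι y) = -((m : ℂ) * X.v y) := by
  obtain ⟨T1, q1, e1⟩ := claim hC h hn hH _ (nx δ) rfl h.mem
  obtain ⟨T2, q2, e2⟩ := claim hC h hn hH _ (pv δ) rfl h.mem
  rcases e1 with e1 | e1 | ⟨m1, hm1, s1⟩
  · exact absurd e1 (nx_ne _)
  · exact absurd e1 q1.nin
  rcases e2 with e2 | e2 | ⟨m2, hm2, s2⟩
  · exact absurd e2 (pv_ne _)
  · exact absurd e2 q2.nin
  have hm : m1 = m2 := by
    by_contra hne
    apply hH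
    refine hC X ι rk _ (zok h hn) m1 m2 _ T1 T2 hm1 hm2 hne s1 ?_
    rw [nx_nx]
    exact s2
  subst hm
  refine ⟨m1, hm1, ?_⟩
  have hsub : {f | f = δ.1 ∨ f ∈ T1 ∨ f ∈ T2} ⊆ R := by
    rintro f (h1 | h1 | h1)
    · rw [h1]; exact h.mem
    · exact q1.sub h1
    · exact q2.sub h1
  have hR : R ⊆ {f | f = δ.1 ∨ f ∈ T1 ∨ f ∈ T2} := by
    refine h.conn _ hsub (Or.inl rfl) ?_
    intro y hyT hyR
    by_cases hd : y = δ
    · exfalso
      subst hd
      rcases h.alt (X.glue y) hyR (X.glue_ne y) with h2 | ⟨-, h2, -⟩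
      · rw [X.glue_glue] at h2
        have h3 : y.1 = ι (X.glue y).1 := congrArg Prod.fst h2
        apply h.dis _ hyR
        rw [← h3]
        exact h.mem
      · exact h2 (X.glue_glue y)
    · have hy : y ∈ dg X ι R δ := by
        by_contra h2
        have h3 := not_dg (hsub hyT) hd h2
        rw [h3] at hyR
        exact h.dis _ (hsub hyT) hyR
      rcases hyT with h1 | h1 | h1
      · rcases eq_or δ y h1 with h4 | h4 | h4
        · exact absurd h4 hd
        · right; left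
          rw [h4] at hy ⊢
          exact q1.gin hy
        · right; right
          rw [h4] at hy ⊢
          exact q2.gin hy
      · by_cases h2 : y = X.glue (nx δ)
        · left
          rw [h2, X.glue_glue]
          rfl
        · exact Or.inr (Or.inl (q1.cl y h1 h2 hy))
      · by_cases h2 : y = X.glue (pv δ)
        · left
          rw [h2, X.glue_glue]
          rfl
        · exact Or.inr (Or.inr (q2.cl y h1 h2 hy))
  intro y hy
  rcases hR hy with h1 | h1 | h1
  · rcases eq_or δ y h1 with h4 | h4 | h4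
    · rw [h4]; exact MAIN_third m1 _ s1.self s2.self
    · rw [h4]; exact s1.self
    · rw [h4]; exact s2.self
  · exact s1.all y h1
  · exact s2.all y h1

end LMAIN

/-- LMAIN -/
theorem LP_MAIN (hC : TL_CORE) : TL_MAIN := by
  intro X ι rk R δ h hn
  by_cases hH : HasHyperbolic X
  · exact Or.inl hH
  right
  obtain ⟨m, hm, hv⟩ := LMAIN.factor hC h hn hH
  classical
  refine ⟨fun f => if f ∈ R then m else 1, ?_, ?_, ?_⟩
  · intro f
    show 0 < (if f ∈ R then m else 1)
    split_ifs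
    · exact hm
    · exact one_pos
  swap
  · have h1 : (jj ι δ).1 ∉ R := h.dis _ h.mem
    show ((if (jj ι δ).1 ∈ R then m else 1 : ℝ) : ℂ) * X.v (jj ι δ) =
      -(((if δ.1 ∈ R then m else 1 : ℝ) : ℂ) * X.v δ)
    rw [if_neg h1, if_pos h.mem, hv δ h.mem]
    push_cast
    ring
  intro y hyR hd
  show (if (X.glue y).1 ∈ R then m else 1) * X.mu y = (if y.1 ∈ R then m else 1) ∧
    (if (X.glue (jj ι y)).1 ∈ R then m else 1) * X.mu (jj ι y) =
      (if (jj ι y).1 ∈ R then m else 1)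
  have hj : ∀ w : D X, w.1 ∈ R → (jj ι w).1 ∉ R := fun w hw => h.dis _ hw
  by_cases hy : y ∈ dg X ι R δ
  · obtain ⟨a1, -, a2, -⟩ := LMAIN.alt_dg h hy
    rw [if_pos a1, if_pos hyR, (hn y hy).1, a2, if_neg (hj _ a1), if_neg (hj _ hyR),
      (hn y hy).2]
    exact ⟨mul_one m, one_mul 1⟩
  · have hg := LMAIN.not_dg hyR hd hy
    have hg2 : X.glue (jj ι y) = y := by rw [← hg, X.glue_glue]
    have e1 := hv y hyR
    have hvy := v_ne y
    have e2 : X.mu y = m := by
      rw [← hg, X.v_glue] at e1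
      have e5 : (X.mu y : ℂ) * X.v y = (m : ℂ) * X.v y := by linear_combination -e1
      have e6 := mul_right_cancel₀ hvy e5
      exact_mod_cast e6
    have e3 : m * X.mu (jj ι y) = 1 := by
      have e4 := X.v_glue (jj ι y)
      rw [hg2, e1] at e4
      have e7 : ((m * X.mu (jj ι y) : ℝ) : ℂ) * X.v y = ((1 : ℝ) : ℂ) * X.v y := by
        push_cast
        linear_combination -e4
      have e8 := mul_right_cancel₀ hvy e7
      exact_mod_cast e8
    rw [hg2, hg, if_neg (hj _ hyR), if_pos hyR, e2, one_mul, e3]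
    exact ⟨rfl, rfl⟩

end Pool.Agent.HYE
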