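import Pool.Agent.HYE.LDefs
import Pool.Agent.HYE.P_NORM

/-!
# HYE, local version: the normalisation
-/

set_option autoImplicit false

open Finset

noncomputable section

namespace Pool.Agent.HYE

open Pool.Agent.GTW

/-- a function on the triangles which makes the gluing maps in `Z` translations -/
theorem exists_scaleZ (X : Glued) (rk : D X → ℕ) :
    ∀ (n : ℕ) (Z : Finset (D X)), Z.card ≤ n → (∀ x ∈ Z, X.glue x ∈ Z) →
      (∀ x ∈ Z, rk (nx (X.glue x)) < rk x ∧ rk (pv (X.glue x)) < rk x) →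
      ∃ S : X.F → ℝ, (∀ f, 0 < S f) ∧ ∀ x ∈ Z, S (X.glue x).1 * X.mu x = S x.1 := by
  classical
  intro n
  induction n with
  | zero =>
    intro Z hZ _ _
    have h0 : Z = ∅ := by
      rw [← Finset.card_eq_zero]; omega
    refine ⟨fun _ => 1, fun _ => one_pos, ?_⟩
    intro x hx
    rw [h0] at hx
    exact absurd hx (Finset.notMem_empty x)
  | succ n ih =>
    intro Z hZ hg hj
    rcases Z.eq_empty_or_nonempty with h0 | hne
    · refine ⟨fun _ => 1, fun _ => one_pos, ?_⟩
      intro x hx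
      rw [h0] at hx
      exact absurd hx (Finset.notMem_empty x)
    obtain ⟨x, hx, hmin⟩ := Finset.exists_min_image Z rk hne
    have hz : X.glue x ∈ Z := hg x hx
    have halt := hj x hx
    have hnx : nx (X.glue x) ∉ Z := fun hc => absurd (hmin _ hc) (not_le.2 halt.1)
    have hpv : pv (X.glue x) ∉ Z := fun hc => absurd (hmin _ hc) (not_le.2 halt.2)
    have hxz : X.glue x ≠ x := X.glue_ne x
    obtain ⟨S', hS'pos, hS'⟩ := ih ((Z.erase x).erase (X.glue x)) (by
      rw [Finset.card_erase_of_mem (Finset.mem_erase.2 ⟨hxz, hz⟩), Finset.card_erase_of_mem hx]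
      omega) (by
      intro y hy
      simp only [Finset.mem_erase, ne_eq] at hy ⊢
      refine ⟨fun hc => hy.2.1 (glue_inj hc), fun hc => hy.1 ?_, hg y hy.2.2⟩
      rw [← hc, X.glue_glue]) (by
      intro y hy
      simp only [Finset.mem_erase, ne_eq] at hy
      exact hj y hy.2.2)
    have hx1 : x.1 ≠ (X.glue x).1 := by
      intro hc
      rcases eq_or (X.glue x) x hc with h1 | h1 | h1
      · exact hxz h1.symm
      · rw [← h1] at hnx
        exact hnx hx
      · rw [← h1] at hpv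
        exact hpv hx
    have hZ' : ∀ y ∈ (Z.erase x).erase (X.glue x), y.1 ≠ (X.glue x).1 := by
      intro y hy hc
      simp only [Finset.mem_erase, ne_eq] at hy
      rcases eq_or (X.glue x) y hc with h1 | h1 | h1
      · exact hy.1 h1
      · rw [← h1] at hnx
        exact hnx hy.2.2
      · rw [← h1] at hpv
        exact hpv hy.2.2
    refine ⟨Function.update S' (X.glue x).1 (S' x.1 / X.mu x), ?_, ?_⟩
    · intro f
      by_cases hf : f = (X.glue x).1
      · rw [hf, Function.update_self]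
        exact div_pos (hS'pos _) (X.mu_pos _)
      · rw [Function.update_of_ne hf]
        exact hS'pos f
    · intro y hy
      by_cases h1 : y = x
      · rw [h1, Function.update_self, Function.update_of_ne hx1,
          div_mul_cancel₀ _ (X.mu_pos x).ne']
      by_cases h2 : y = X.glue x
      · rw [h2, X.glue_glue, Function.update_self, Function.update_of_ne hx1,
          eq_div_iff (X.mu_pos x).ne', mul_assoc, mu_glue, mul_one]
      have hy' : y ∈ (Z.erase x).erase (X.glue x) := by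
        simp only [Finset.mem_erase, ne_eq]
        exact ⟨h2, h1, hy⟩
      have hgy' : X.glue y ∈ (Z.erase x).erase (X.glue x) := by
        simp only [Finset.mem_erase, ne_eq]
        refine ⟨fun hc => h1 (glue_inj hc), fun hc => h2 ?_, hg y hy⟩
        rw [← hc, X.glue_glue]
      rw [Function.update_of_ne (hZ' _ hy'), Function.update_of_ne (hZ' _ hgy')]
      exact hS' y hy'

/-- rescaling the triangles does not change the hyperbolic closed geodesics -/
theorem resc_hyp (X : Glued) (S : X.F → ℝ) (hS : ∀ f, 0 < S f)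
    (h : HasHyperbolic (resc X S hS)) : HasHyperbolic X := by
  obtain ⟨n, d, p, hn, hd, hp, hst, hpn, hinj, hmul⟩ := h
  have hst' : ∀ k < n, Step (X := X) d (p k) (p (k + 1)) := by
    intro k hk
    obtain ⟨y, hy1, hy2, hy3, r, hr, hr2⟩ := hst k hk
    have hSy : (0 : ℝ) < S (p k).1.1 := hS _
    refine ⟨y, hy1, hy2, hy3, r / S (p k).1.1, div_pos hr hSy, ?_⟩
    have hpt : ∀ (x : D X) (s : ℝ),
        pt (X := resc X S hS) x s = (S x.1 : ℂ) * pt (X := X) x s := by
      intro x s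
      rcases x with ⟨f, i⟩
      fin_cases i <;> simp [pt, cor, resc] <;> ring
    rw [hpt, hpt, hy1] at hr2
    have hne : (S (p k).1.1 : ℂ) ≠ 0 := by exact_mod_cast hSy.ne'
    push_cast
    have h3 : (S (p k).1.1 : ℂ) * (pt (X := X) y (1 - (p (k + 1)).2) -
        pt (X := X) (p k).1 (p k).2) = r * d := by
      rw [← hr2]; ring
    field_simp
    linear_combination h3
  refine ⟨n, d, p, hn, hd, hp, hst', hpn, hinj, ?_⟩
  intro hone
  apply hmul
  have hfac : ∀ k ∈ range n, (resc X S hS).mu ((resc X S hS).glue (p (k + 1)).1) =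
      X.mu (X.glue (p (k + 1)).1) * (S (p (k + 1)).1.1 / S (p k).1.1) := by
    intro k hk
    obtain ⟨y, hy1, hy2, hy3, r, hr, hr2⟩ := hst' k (Finset.mem_range.1 hk)
    show X.mu (X.glue (p (k + 1)).1) * S (X.glue (X.glue (p (k + 1)).1)).1 /
      S (X.glue (p (k + 1)).1).1 = _
    rw [X.glue_glue]
    have e1 : (X.glue (p (k + 1)).1).1 = (p k).1.1 := by
      rw [hy3, X.glue_glue, hy1]
    rw [e1, mul_div_assoc]
  rw [Finset.prod_congr rfl hfac, Finset.prod_mul_distrib, hone, one_mul]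
  have htel : ∀ m : ℕ, ∏ k ∈ range m, S (p (k + 1)).1.1 / S (p k).1.1 =
      S (p m).1.1 / S (p 0).1.1 := by
    intro m
    induction m with
    | zero => simp [(hS (p 0).1.1).ne']
    | succ m ihm =>
      rw [Finset.prod_range_succ, ihm]
      have ha := (hS (p 0).1.1).ne'
      have hb := (hS (p m).1.1).ne'
      field_simp
  rw [htel, hpn, div_self (hS _).ne']

theorem LP_NORM : TL_NORM := by
  classical
  intro X ι rk R δ h
  -- the diagonals
  have hdg : ∀ y ∈ dg X ι R δ, X.glue y ∈ dg X ι R δ ∧ X.glue (jj ι y) = jj ι (X.glue y) ∧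
      rk (nx (X.glue y)) < rk y ∧ rk (pv (X.glue y)) < rk y := by
    rintro y ⟨h1, h2, h3⟩
    obtain ⟨a1, a2, a3, a4, a5⟩ := (h.alt y h1 h2).resolve_left h3
    refine ⟨⟨a1, a2, ?_⟩, a3, a4, a5⟩
    rw [X.glue_glue]
    intro hc
    apply h.dis _ a1
    have : y.1 = ι (X.glue y).1 := congrArg Prod.fst hc
    rw [← this]
    exact h1
  -- the rank
  obtain ⟨r, hr1, hr2⟩ : ∃ r : D X → ℕ, (∀ x : D X, x.1 ∈ R → r x = rk x) ∧
      ∀ x : D X, x.1 ∈ R → r (jj ι x) = rk x := by
    refine ⟨fun x => if x.1 ∈ R then rk x else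
      if hx : ∃ x' : D X, x'.1 ∈ R ∧ jj ι x' = x then rk hx.choose else 0, ?_, ?_⟩
    · intro x hx
      show (if x.1 ∈ R then _ else _) = _
      rw [if_pos hx]
    · intro x hx
      have hex : ∃ x' : D X, x'.1 ∈ R ∧ jj ι x' = jj ι x := ⟨x, hx, rfl⟩
      show (if (jj ι x).1 ∈ R then _ else
        if hx : ∃ x' : D X, x'.1 ∈ R ∧ jj ι x' = jj ι x then rk hx.choose else 0) = _
      have hn : (jj ι x).1 ∉ R := h.dis x.1 hx
      rw [if_neg hn, dif_pos hex]
      congr 1
      obtain ⟨h1, h2⟩ := hex.choose_spec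
      have h3 : (jj ι hex.choose).1 = (jj ι x).1 := congrArg (fun z : D X => z.1) h2
      have h4 : (jj ι hex.choose).2 = (jj ι x).2 := congrArg (fun z : D X => z.2) h2
      exact Prod.ext (h.inj _ h1 _ hx h3) h4
  obtain ⟨S, hS, hSz⟩ := exists_scaleZ X r _
    (Finset.univ.filter fun x : D X => x ∈ dg X ι R δ ∨ ∃ y ∈ dg X ι R δ, jj ι y = x) le_rfl (by
      intro x hx
      rw [Finset.mem_filter] at hx ⊢
      refine ⟨Finset.mem_univ _, ?_⟩
      rcases hx.2 with h1 | ⟨y, h1, h2⟩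
      · exact Or.inl (hdg x h1).1
      · refine Or.inr ⟨X.glue y, (hdg y h1).1, ?_⟩
        rw [← h2, (hdg y h1).2.1]) (by
      intro x hx
      rw [Finset.mem_filter] at hx
      rcases hx.2 with h1 | ⟨y, h1, h2⟩
      · obtain ⟨b1, _, b3, b4⟩ := hdg x h1
        rw [hr1 x h1.1, hr1 (nx (X.glue x)) b1.1, hr1 (pv (X.glue x)) b1.1]
        exact ⟨b3, b4⟩
      · obtain ⟨b1, b2, b3, b4⟩ := hdg y h1
        rw [← h2, b2, ← jj_nx, ← jj_pv, hr2 y h1.1, hr2 (nx (X.glue y)) b1.1,
          hr2 (pv (X.glue y)) b1.1]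
        exact ⟨b3, b4⟩)
  refine ⟨resc X S hS, ι, rk, R, δ, ⟨h.mem, h.inj, h.dis, h.alt, h.conn⟩, ?_,
    resc_hyp X S hS, ?_⟩
  · intro y hy
    have hy' : y ∈ dg X ι R δ := hy
    have h1 := hSz y (Finset.mem_filter.2 ⟨Finset.mem_univ _, Or.inl hy'⟩)
    have h2 := hSz (jj ι y) (Finset.mem_filter.2 ⟨Finset.mem_univ _, Or.inr ⟨y, hy', rfl⟩⟩)
    refine ⟨?_, ?_⟩
    · show X.mu y * S (X.glue y).1 / S y.1 = 1
      rw [mul_comm, h1, div_self (hS _).ne']
    · show X.mu (jj ι y) * S (X.glue (jj ι y)).1 / S (jj ι y).1 = 1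
      rw [mul_comm, h2, div_self (hS _).ne']
  · rintro ⟨c, hc, hc2, hc3⟩
    have key : ∀ x : D X, c (X.glue x).1 * (X.mu x * S (X.glue x).1 / S x.1) = c x.1 →
        c (X.glue x).1 * S (X.glue x).1 * X.mu x = c x.1 * S x.1 := by
      intro x h1
      have h2 := (hS x.1).ne'
      field_simp at h1
      linear_combination h1
    refine ⟨fun f => c f * S f, fun f => mul_pos (hc f) (hS f), ?_, ?_⟩
    · intro y hy hyd
      exact ⟨key y (hc2 y hy hyd).1, key (jj ι y) (hc2 y hy hyd).2⟩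
    · have h1 : (c (jj ι δ).1 : ℂ) * ((S (jj ι δ).1 : ℂ) * X.v (jj ι δ)) =
        -((c δ.1 : ℂ) * ((S δ.1 : ℂ) * X.v δ)) := hc3
      show ((c (jj ι δ).1 * S (jj ι δ).1 : ℝ) : ℂ) * X.v (jj ι δ) =
        -(((c δ.1 * S δ.1 : ℝ) : ℂ) * X.v δ)
      push_cast
      linear_combination h1

end Pool.Agent.HYE
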