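import Pool.Agent.HYE.LDefs

/-!
# HYE: unions of hyperelliptic pieces
-/

set_option autoImplicit false

noncomputable section

namespace Pool.Agent.HYE

open Pool.Agent.GTW

/-- `f` is a triangle of the piece `j`, i.e. of the polygon `P` (`f ∈ R j`) or of `P'`. -/
def InPiece {X : Glued} {k : Type} (ι : k → X.F → X.F) (R : k → Set X.F) (f : X.F) (j : k) :
    Prop := f ∈ R j ∨ ∃ g ∈ R j, ι j g = f

/-- **The surface `X` is a union of hyperelliptic pieces** (indexed by `k`): every triangle belongs
to exactly one of them. The free sides `δ j`, `jj (ι j) (δ j)` of the pieces are glued to each other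
in any way. -/
structure Pieces (X : Glued) (k : Type) (ι : k → X.F → X.F) (rk : k → D X → ℕ)
    (R : k → Set X.F) (δ : k → D X) : Prop where
  piece : ∀ j, Piece X (ι j) (rk j) (R j) (δ j)
  cover : ∀ f, ∃ j, InPiece ι R f j
  disj : ∀ (f : X.F) (i j : k), InPiece ι R f i → InPiece ι R f j → i = j

/-- examples: cyclic chains of `g` slit tori -/
def T_NONV2 : Prop := ∀ g : ℕ, 2 ≤ g → ∃ (X : Glued) (ι : Fin g → X.F → X.F)
  (rk : Fin g → D X → ℕ) (R : Fin g → Set X.F) (δ : Fin g → D X),
  Pieces X (Fin g) ι rk R δ ∧ IsAffine X ∧ HasGenus X g ∧ ¬ IsTranslation X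

end Pool.Agent.HYE
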