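import Pool.Agent.HYE.All
import Pool.Agent.HYE.LBase
import Pool.Agent.HYE.LPieces
import Pool.Agent.HYE.LP_PASS
import Pool.Agent.HYE.LP_CORE
import Pool.Agent.HYE.LP_MAIN
import Pool.Agent.HYE.LP_NORM

/-!
# HYE: surfaces that contain, or are unions of, hyperelliptic pieces
-/

set_option autoImplicit false

noncomputable section

namespace Pool.Agent.HYE

open Pool.Agent.GTW

/-- A hyperelliptic piece of a surface without hyperbolic closed geodesics is a translation
surface. -/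
theorem piece_dichotomy (X : Glued) (ι : X.F → X.F) (rk : D X → ℕ) (R : Set X.F) (δ : D X)
    (h : Piece X ι rk R δ) : HasHyperbolic X ∨ TransPiece X ι R δ := by
  obtain ⟨Y, κ, rk', R', δ', h1, h2, h3, h4⟩ := LP_NORM X ι rk R δ h
  have hC : TL_CORE := LP_CORE (LP_FB P_EXIT
    (P_PAR P_MEM (P_EVEN P_MEM) P_TRI P_CROSS P_COMP) P_PAL (P_WED P_MONO)) P_LINE LP_PASS
  rcases LP_MAIN hC Y κ rk' R' δ' h1 h2 with h5 | h5
  · exact Or.inl (h3 h5)
  · exact Or.inr (h4 h5)

/-- a free side of the piece `j` -/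
def FreeIn {X : Glued} {k : Type} (ι : k → X.F → X.F) (δ : k → D X) (x : D X) (j : k) : Prop :=
  x = δ j ∨ x = jj (ι j) (δ j)

variable {X : Glued} {k : Type} {ι : k → X.F → X.F} {rk : k → D X → ℕ} {R : k → Set X.F}
  {δ : k → D X}

theorem jj_inj {X : Glued} {ι : X.F → X.F} {rk : D X → ℕ} {R : Set X.F} {δ : D X}
    (h : Piece X ι rk R δ) {x y : D X} (hx : x.1 ∈ R) (hy : y.1 ∈ R) (e : jj ι x = jj ι y) :
    x = y := by
  have e1 : (jj ι x).1 = (jj ι y).1 := by rw [e]
  have e2 : (jj ι x).2 = (jj ι y).2 := by rw [e]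
  exact Prod.ext (h.inj _ hx _ hy e1) e2

/-- a side of a triangle of the piece `j` which is not free is glued to such a side of the
piece `j` -/
theorem Pieces.nonfree (h : Pieces X k ι rk R δ) {j : k} {x : D X} (hx : InPiece ι R x.1 j)
    (hf : ¬ FreeIn ι δ x j) :
    InPiece ι R (X.glue x).1 j ∧ ¬ FreeIn ι δ (X.glue x) j := by
  have hp := h.piece j
  have hjR : ∀ y : D X, y.1 ∈ R j → jj (ι j) y ≠ δ j := by
    intro y hy e
    apply hp.dis y.1 hy
    have : (jj (ι j) y).1 ∈ R j := by rw [e]; exact hp.mem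
    exact this
  rcases hx with hx | ⟨g, hg, hgx⟩
  · have hne : x ≠ δ j := fun e => hf (Or.inl e)
    rcases hp.alt x hx hne with h1 | ⟨h1, h2, -, -, -⟩
    · rw [h1]
      refine ⟨Or.inr ⟨x.1, hx, rfl⟩, ?_⟩
      rintro (h2 | h2)
      · exact hjR x hx h2
      · exact hne (jj_inj hp hx hp.mem h2)
    · refine ⟨Or.inl h1, ?_⟩
      rintro (h3 | h3)
      · exact h2 h3
      · rw [h3] at h1
        exact hp.dis _ hp.mem h1
  · obtain ⟨y, hy, rfl⟩ : ∃ y : D X, y.1 ∈ R j ∧ x = jj (ι j) y :=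
      ⟨(g, x.2), hg, Prod.ext hgx.symm rfl⟩
    have hne : y ≠ δ j := fun e => hf (Or.inr (by rw [e]))
    rcases hp.alt y hy hne with h1 | ⟨h1, h2, h3, -, -⟩
    · rw [← h1, X.glue_glue]
      refine ⟨Or.inl hy, ?_⟩
      rintro (h2 | h2)
      · exact hne h2
      · rw [h2] at hy
        exact hp.dis _ hp.mem hy
    · rw [h3]
      refine ⟨Or.inr ⟨_, h1, rfl⟩, ?_⟩
      rintro (h4 | h4)
      · exact hjR _ h1 h4
      · exact h2 (jj_inj hp h1 hp.mem h4)

/-- free sides are glued to free sides -/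
theorem Pieces.free (h : Pieces X k ι rk R δ) {i j : k} {x : D X} (hx : InPiece ι R x.1 j)
    (hf : FreeIn ι δ x j) (hz : InPiece ι R (X.glue x).1 i) : FreeIn ι δ (X.glue x) i := by
  by_contra hc
  obtain ⟨h1, h2⟩ := h.nonfree hz hc
  rw [X.glue_glue] at h1 h2
  have := h.disj _ _ _ h1 hx
  subst this
  exact h2 hf

/-- A union of hyperelliptic pieces is a translation surface or it has a hyperbolic closed
geodesic. -/
theorem pieces (h : Pieces X k ι rk R δ) (hH : ¬ HasHyperbolic X) : IsTranslation X := by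
  have hT : ∀ j, TransPiece X (ι j) (R j) (δ j) := fun j =>
    (piece_dichotomy X (ι j) (rk j) (R j) (δ j) (h.piece j)).resolve_left hH
  choose c hc hg hd using hT
  choose idx hidx using h.cover
  have hi : ∀ f j, InPiece ι R f j → idx f = j := fun f j hf => h.disj f _ _ (hidx f) hf
  have hL : ∀ j, 0 < c j (δ j).1 * ‖X.v (δ j)‖ := fun j =>
    mul_pos (hc j _) (norm_pos_iff.2 (v_ne _))
  refine ⟨fun f => c (idx f) f / (c (idx f) (δ (idx f)).1 * ‖X.v (δ (idx f))‖),
    fun f => div_pos (hc _ _) (hL _), ?_⟩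
  have hfree : ∀ (j : k) (x : D X), FreeIn ι δ x j →
      c j x.1 * ‖X.v x‖ = c j (δ j).1 * ‖X.v (δ j)‖ := by
    intro j x hx
    rcases hx with rfl | rfl
    · rfl
    · have e := congrArg norm (hd j)
      rw [norm_neg, norm_mul, norm_mul, Complex.norm_real, Complex.norm_real,
        Real.norm_of_nonneg (hc j _).le, Real.norm_of_nonneg (hc j _).le] at e
      exact e
  intro x
  have hx := hidx x.1
  show c (idx (X.glue x).1) (X.glue x).1 /
      (c (idx (X.glue x).1) (δ (idx (X.glue x).1)).1 * ‖X.v (δ (idx (X.glue x).1))‖) * X.mu x =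
    c (idx x.1) x.1 / (c (idx x.1) (δ (idx x.1)).1 * ‖X.v (δ (idx x.1))‖)
  by_cases hf : FreeIn ι δ x (idx x.1)
  · have hz := hidx (X.glue x).1
    have hf2 := h.free hx hf hz
    rw [← hfree _ _ hf, ← hfree _ _ hf2]
    have e1 : ‖X.v (X.glue x)‖ = X.mu x * ‖X.v x‖ := by
      rw [X.v_glue, norm_neg, norm_mul, Complex.norm_real, Real.norm_of_nonneg (X.mu_pos x).le]
    rw [e1]
    have n1 : c (idx (X.glue x).1) (X.glue x).1 ≠ 0 := (hc _ _).ne'
    have n2 : c (idx x.1) x.1 ≠ 0 := (hc _ _).ne'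
    have n3 : ‖X.v x‖ ≠ 0 := norm_ne_zero_iff.2 (v_ne x)
    have n4 : X.mu x ≠ 0 := (X.mu_pos x).ne'
    field_simp
  · obtain ⟨h1, -⟩ := h.nonfree hx hf
    have e1 : idx (X.glue x).1 = idx x.1 := hi _ _ h1
    rw [e1]
    have key : c (idx x.1) (X.glue x).1 * X.mu x = c (idx x.1) x.1 := by
      rcases hx with hx | ⟨g, hgR, hgx⟩
      · exact (hg _ x hx (fun e => hf (Or.inl e))).1
      · obtain ⟨y, hy, hxy⟩ : ∃ y : D X, y.1 ∈ R (idx x.1) ∧ x = jj (ι (idx x.1)) y :=
          ⟨(g, x.2), hgR, Prod.ext hgx.symm rfl⟩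
        have hne : y ≠ δ (idx x.1) := by
          intro e
          rw [e] at hxy
          exact hf (Or.inr hxy)
        have := (hg _ y hy hne).2
        rwa [← hxy] at this
    rw [div_mul_eq_mul_div, key]

end Pool.Agent.HYE
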