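import Pool.Agent.HYE.Base

/-!
# HYE: the theorem from the targets
-/

set_option autoImplicit false

noncomputable section

namespace Pool.Agent.HYE

open Pool.Agent.GTW

theorem final (h1 : T_NORM) (h2 : T_MAIN) (X : Glued) (ι : X.F → X.F) (rk : D X → ℕ)
    (h : Hyp X ι rk) (hn : ¬ IsTranslation X) : HasHyperbolic X := by
  obtain ⟨Y, κ, rk', hY, hNY, e1, e2⟩ := h1 X ι rk h
  rcases h2 Y κ rk' hY hNY with h3 | h3
  · exact e1 h3
  · exact absurd (e2 h3) hn

end Pool.Agent.HYE
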