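import Pool.Agent.HYE.LPieces
import Pool.Agent.GTW.P_TH
import Pool.Agent.GTW.P_TRI

/-!
# HYE: unions of hyperelliptic pieces, examples of every genus

Cyclic chains of slit tori. The piece `k` consists of the unit square `P` and the rectangle `P'` of
the width `cwm k` (`2` for `k = 0`, `1 / 2` for `k = 1`, `1` otherwise) and the height `1`.
-/

set_option autoImplicit false

open Finset

noncomputable section

namespace Pool.Agent.HYE

open Pool.Agent.GTW

/-- the ratios of the widths -/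
def cwm (k : ℕ) : ℝ := if k = 0 then 2 else if k = 1 then 1 / 2 else 1

/-- the widths -/
def cwd (b : Bool) (k : ℕ) : ℝ := if b then 1 else cwm k

theorem cwm_pos (k : ℕ) : 0 < cwm k := by
  unfold cwm
  split_ifs <;> norm_num

theorem cwd_pos (b : Bool) (k : ℕ) : 0 < cwd b k := by
  cases b
  · exact cwm_pos k
  · exact one_pos

/-- the neighbour of a piece -/
def cst (n : ℕ) (b : Bool) (k : Fin (n + 2)) : Fin (n + 2) :=
  if b then (finRotate (n + 2)).symm k else finRotate (n + 2) k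

theorem cst_cst (n : ℕ) (b : Bool) (k : Fin (n + 2)) : cst n (!b) (cst n b k) = k := by
  cases b <;> simp [cst]

theorem cfr_val (n : ℕ) (k : Fin (n + 2)) :
    (finRotate (n + 2) k).1 = if k.1 = n + 1 then 0 else k.1 + 1 := by
  rw [finRotate_apply, Fin.val_add_one]
  by_cases h : k = Fin.last (n + 1)
  · have h2 : k.1 = n + 1 := by rw [h]; rfl
    rw [if_pos h, if_pos h2]
  · have h2 : ¬ k.1 = n + 1 := fun h3 => h (Fin.ext h3)
    rw [if_neg h, if_neg h2]

/-- the vectors of the sides -/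
def cvv (n : ℕ) : (Fin (n + 2) × Bool × Fin 2) × Fin 3 → ℂ
  | ((k, b, 0), 0) => sg b * cwd b k
  | ((_, b, 0), 1) => sg b * Complex.I
  | ((k, b, 0), 2) => -(sg b * (cwd b k + Complex.I))
  | ((k, b, 1), 0) => sg b * (cwd b k + Complex.I)
  | ((k, b, 1), 1) => -(sg b * cwd b k)
  | ((_, b, 1), 2) => -(sg b * Complex.I)

/-- the gluing -/
def cgl (n : ℕ) : (Fin (n + 2) × Bool × Fin 2) × Fin 3 → (Fin (n + 2) × Bool × Fin 2) × Fin 3
  | ((k, b, 0), 0) => ((k, !b, 0), 0)
  | ((k, b, 0), 1) => ((k, !b, 0), 1)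
  | ((k, b, 0), 2) => ((k, b, 1), 0)
  | ((k, b, 1), 0) => ((k, b, 0), 2)
  | ((k, b, 1), 1) => ((k, !b, 1), 1)
  | ((k, b, 1), 2) => ((cst n b k, !b, 1), 2)

/-- the dilation factors -/
def cmu (n : ℕ) : (Fin (n + 2) × Bool × Fin 2) × Fin 3 → ℝ
  | ((k, b, 0), 0) => cwd (!b) k / cwd b k
  | ((_, _, 0), 1) => 1
  | ((_, _, 0), 2) => 1
  | ((_, _, 1), 0) => 1
  | ((k, b, 1), 1) => cwd (!b) k / cwd b k
  | ((_, _, 1), 2) => 1

theorem cgl_cgl (n : ℕ) : ∀ x, cgl n (cgl n x) = x
  | ((k, b, 0), 0) => by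
    show ((k, !!b, (0 : Fin 2)), (0 : Fin 3)) = ((k, b, 0), 0)
    rw [Bool.not_not]
  | ((k, b, 0), 1) => by
    show ((k, !!b, (0 : Fin 2)), (1 : Fin 3)) = ((k, b, 0), 1)
    rw [Bool.not_not]
  | ((k, b, 0), 2) => rfl
  | ((k, b, 1), 0) => rfl
  | ((k, b, 1), 1) => by
    show ((k, !!b, (1 : Fin 2)), (1 : Fin 3)) = ((k, b, 1), 1)
    rw [Bool.not_not]
  | ((k, b, 1), 2) => by
    show ((cst n (!b) (cst n b k), !!b, (1 : Fin 2)), (2 : Fin 3)) = ((k, b, 1), 2)
    rw [Bool.not_not, cst_cst]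

theorem cgl_ne (n : ℕ) : ∀ x, cgl n x ≠ x
  | ((k, b, 0), 0) => by
    intro h
    have h3 := congrArg (fun y => y.1.2.1) h
    simp [cgl] at h3
  | ((k, b, 0), 1) => by
    intro h
    have h3 := congrArg (fun y => y.1.2.1) h
    simp [cgl] at h3
  | ((k, b, 0), 2) => by
    intro h
    have h3 := congrArg (fun y => y.2) h
    simp [cgl] at h3
  | ((k, b, 1), 0) => by
    intro h
    have h3 := congrArg (fun y => y.2) h
    simp [cgl] at h3
  | ((k, b, 1), 1) => by
    intro h
    have h3 := congrArg (fun y => y.1.2.1) h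
    simp [cgl] at h3
  | ((k, b, 1), 2) => by
    intro h
    have h3 := congrArg (fun y => y.1.2.1) h
    simp [cgl] at h3

theorem cmu_pos (n : ℕ) : ∀ x, 0 < cmu n x
  | ((_, _, 0), 0) => div_pos (cwd_pos _ _) (cwd_pos _ _)
  | ((_, _, 0), 1) => one_pos
  | ((_, _, 0), 2) => one_pos
  | ((_, _, 1), 0) => one_pos
  | ((_, _, 1), 1) => div_pos (cwd_pos _ _) (cwd_pos _ _)
  | ((_, _, 1), 2) => one_pos

theorem cvg (n : ℕ) : ∀ x, cvv n (cgl n x) = -((cmu n x : ℂ) * cvv n x)
  | ((k, b, 0), 0) => by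
    show sg (!b) * (cwd (!b) k : ℂ) = -(((cwd (!b) k / cwd b k : ℝ) : ℂ) * (sg b * cwd b k))
    have h : (cwd b k : ℂ) ≠ 0 := by exact_mod_cast (cwd_pos b k).ne'
    rw [sg_not]
    push_cast
    field_simp
  | ((k, b, 0), 1) => by
    show sg (!b) * Complex.I = -(((1 : ℝ) : ℂ) * (sg b * Complex.I))
    rw [sg_not]
    push_cast; ring
  | ((k, b, 0), 2) => by
    show sg b * (cwd b k + Complex.I) = -(((1 : ℝ) : ℂ) * (-(sg b * (cwd b k + Complex.I))))
    push_cast; ring
  | ((k, b, 1), 0) => by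
    show -(sg b * (cwd b k + Complex.I)) = -(((1 : ℝ) : ℂ) * (sg b * (cwd b k + Complex.I)))
    push_cast; ring
  | ((k, b, 1), 1) => by
    show -(sg (!b) * (cwd (!b) k : ℂ)) =
      -(((cwd (!b) k / cwd b k : ℝ) : ℂ) * (-(sg b * cwd b k)))
    have h : (cwd b k : ℂ) ≠ 0 := by exact_mod_cast (cwd_pos b k).ne'
    rw [sg_not]
    push_cast
    field_simp
  | ((k, b, 1), 2) => by
    show -(sg (!b) * Complex.I) = -(((1 : ℝ) : ℂ) * (-(sg b * Complex.I)))
    rw [sg_not]
    push_cast; ring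

theorem cv_sum (n : ℕ) : ∀ f, cvv n (f, 0) + cvv n (f, 1) + cvv n (f, 2) = 0
  | (k, b, 0) => by
    show sg b * (cwd b k : ℂ) + sg b * Complex.I + -(sg b * (cwd b k + Complex.I)) = 0
    ring
  | (k, b, 1) => by
    show sg b * (cwd b k + Complex.I) + -(sg b * (cwd b k : ℂ)) + -(sg b * Complex.I) = 0
    ring

theorem cv_pos (n : ℕ) : ∀ f, 0 < ((starRingEnd ℂ) (cvv n (f, 0)) * cvv n (f, 1)).im
  | (k, b, 0) => by
    show 0 < ((starRingEnd ℂ) (sg b * (cwd b k : ℂ)) * (sg b * Complex.I)).im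
    have h := cwd_pos b k
    cases b <;> simpa [sg, Complex.mul_im, Complex.mul_re] using h
  | (k, b, 1) => by
    show 0 < ((starRingEnd ℂ) (sg b * (cwd b k + Complex.I)) * (-(sg b * (cwd b k : ℂ)))).im
    have h := cwd_pos b k
    cases b <;> simpa [sg, Complex.mul_im, Complex.mul_re] using h

/-- the surface -/
def cX (n : ℕ) : Glued where
  F := Fin (n + 2) × Bool × Fin 2
  fin := inferInstance
  dec := inferInstance
  v := cvv n
  glue := cgl n
  mu := cmu n
  sum_zero := cv_sum n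
  pos := cv_pos n
  glue_glue := cgl_cgl n
  glue_ne := cgl_ne n
  mu_pos := cmu_pos n
  v_glue := cvg n

/-! ### the vertices -/

/-- the vertex -/
def ccl (n : ℕ) : (Fin (n + 2) × Bool × Fin 2) × Fin 3 → Bool
  | ((_, b, 0), 0) => b
  | ((_, b, 0), 1) => !b
  | ((_, b, 0), 2) => b
  | ((_, b, 1), 0) => b
  | ((_, b, 1), 1) => b
  | ((_, b, 1), 2) => !b

theorem crot00 (n : ℕ) (k : Fin (n + 2)) (b : Bool) :
    (rot (cX n)) ((k, b, 0), 0) = ((k, b, 1), 0) := rfl

theorem crot01 (n : ℕ) (k : Fin (n + 2)) (b : Bool) :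
    (rot (cX n)) ((k, b, 0), 1) = ((k, !b, 0), 0) := rfl

theorem crot02 (n : ℕ) (k : Fin (n + 2)) (b : Bool) :
    (rot (cX n)) ((k, b, 0), 2) = ((k, !b, 0), 1) := rfl

theorem crot10 (n : ℕ) (k : Fin (n + 2)) (b : Bool) :
    (rot (cX n)) ((k, b, 1), 0) = ((cst n b k, !b, 1), 2) := rfl

theorem crot11 (n : ℕ) (k : Fin (n + 2)) (b : Bool) :
    (rot (cX n)) ((k, b, 1), 1) = ((k, b, 0), 2) := rfl

theorem crot12 (n : ℕ) (k : Fin (n + 2)) (b : Bool) :
    (rot (cX n)) ((k, b, 1), 2) = ((k, !b, 1), 1) := rfl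

theorem ccl_rot (n : ℕ) : ∀ x : D (cX n), ccl n ((rot (cX n)) x) = ccl n x
  | ((_, _, 0), 0) => rfl
  | ((_, _, 0), 1) => rfl
  | ((_, b, 0), 2) => Bool.not_not b
  | ((_, b, 1), 0) => Bool.not_not b
  | ((_, _, 1), 1) => rfl
  | ((_, _, 1), 2) => rfl

theorem csc (n : ℕ) (x y : D (cX n)) (h : (rot (cX n)) x = y) :
    (rot (cX n)).SameCycle x y := by
  rw [← h]
  exact sc_rot_self (X := cX n) x

/-- the first dart of the piece -/
theorem csc0 (n : ℕ) (k : Fin (n + 2)) (b : Bool) :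
    (rot (cX n)).SameCycle ((k, b, 0), 0) ((cst n b k, b, 0), 0) := by
  have h1 := csc n _ _ (crot00 n k b)
  have h2 := csc n _ _ (crot10 n k b)
  have h3 := csc n _ _ (crot12 n (cst n b k) (!b))
  have h4 := csc n _ _ (crot11 n (cst n b k) (!!b))
  have h5 := csc n _ _ (crot02 n (cst n b k) (!!b))
  have h6 := csc n _ _ (crot01 n (cst n b k) (!!!b))
  have h7 := ((((h1.trans h2).trans h3).trans h4).trans h5).trans h6
  rw [Bool.not_not, Bool.not_not] at h7
  exact h7

theorem csc_step (n : ℕ) (k : Fin (n + 2)) (b : Bool) :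
    (rot (cX n)).SameCycle ((k, b, 0), 0) ((finRotate (n + 2) k, b, 0), 0) := by
  cases b
  · exact csc0 n k false
  · have h := csc0 n (finRotate (n + 2) k) true
    have e : cst n true (finRotate (n + 2) k) = k := by simp [cst]
    rw [e] at h
    exact h.symm

theorem csc_zero (n : ℕ) (k : ℕ) (hk : k < n + 2) (b : Bool) :
    (rot (cX n)).SameCycle ((⟨k, hk⟩, b, 0), 0) ((0, b, 0), 0) := by
  induction k with
  | zero => exact Equiv.Perm.SameCycle.refl _ _
  | succ k ih =>
    have h1 := csc_step n ⟨k, by omega⟩ b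
    have e : finRotate (n + 2) ⟨k, by omega⟩ = ⟨k + 1, hk⟩ := by
      apply Fin.ext
      rw [cfr_val, if_neg (by show ¬ k = n + 1; omega)]
    rw [e] at h1
    exact h1.symm.trans (ih (by omega))

theorem csc_all (n : ℕ) : ∀ x : D (cX n),
    (rot (cX n)).SameCycle x ((0, ccl n x, 0), 0)
  | ((k, b, 0), 0) => csc_zero n k.1 k.2 b
  | ((k, b, 0), 1) => (csc n _ _ (crot01 n k b)).trans (csc_zero n k.1 k.2 (!b))
  | ((k, b, 0), 2) => by
    have h1 := csc n _ _ (crot02 n k b)
    have h2 := csc n _ _ (crot01 n k (!b))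
    have h3 := (h1.trans h2).trans (csc_zero n k.1 k.2 (!!b))
    rw [Bool.not_not] at h3
    exact h3
  | ((k, b, 1), 0) => (csc n _ _ (crot00 n k b)).symm.trans (csc_zero n k.1 k.2 b)
  | ((k, b, 1), 1) => by
    have h0 := csc n _ _ (crot11 n k b)
    have h1 := csc n _ _ (crot02 n k b)
    have h2 := csc n _ _ (crot01 n k (!b))
    have h3 := ((h0.trans h1).trans h2).trans (csc_zero n k.1 k.2 (!!b))
    rw [Bool.not_not] at h3
    exact h3
  | ((k, b, 1), 2) => by
    have h := csc n _ _ (crot12 n k b)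
    have h0 := csc n _ _ (crot11 n k (!b))
    have h1 := csc n _ _ (crot02 n k (!b))
    have h2 := csc n _ _ (crot01 n k (!!b))
    have h3 := (((h.trans h0).trans h1).trans h2).trans (csc_zero n k.1 k.2 (!!!b))
    rw [Bool.not_not] at h3
    exact h3

theorem ccl_pow (n : ℕ) (x : D (cX n)) (m : ℕ) : ccl n (((rot (cX n)) ^ m) x) = ccl n x := by
  induction m with
  | zero => rfl
  | succ m ih => rw [pow_succ', Equiv.Perm.mul_apply, ccl_rot, ih]

theorem csc_iff (n : ℕ) (x y : D (cX n)) :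
    (rot (cX n)).SameCycle x y ↔ ccl n x = ccl n y := by
  constructor
  · intro h
    obtain ⟨m, -, hm⟩ := h.exists_pow_eq'
    rw [← hm, ccl_pow]
  · intro h
    have h1 := csc_all n x
    have h2 := csc_all n y
    rw [h] at h1
    exact h1.trans h2.symm

theorem cnumV (n : ℕ) : numV (cX n) = 2 := by
  unfold numV
  have hl : ∀ x y : D (cX n), (rot (cX n)).SameCycle x y → ccl n x = ccl n y :=
    fun x y h => (csc_iff n x y).1 h
  have e : Quotient (Equiv.Perm.SameCycle.setoid (rot (cX n))) ≃ Bool :=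
    Equiv.ofBijective (Quotient.lift (s := Equiv.Perm.SameCycle.setoid (rot (cX n)))
      (fun x => ccl n x) hl) (by
        constructor
        · intro a b
          induction a using Quotient.inductionOn with
          | h x =>
            induction b using Quotient.inductionOn with
            | h y =>
              intro h
              exact Quotient.sound (s := Equiv.Perm.SameCycle.setoid (rot (cX n)))
                ((csc_iff n x y).2 h)
        · intro b
          exact ⟨Quotient.mk _ ((0, b, 0), 0), rfl⟩)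
  rw [Nat.card_congr e, Nat.card_eq_fintype_card, Fintype.card_bool]

/-! ### the scale -/

/-- the scale at the first darts -/
def csa (b : Bool) (k : ℕ) : ℝ :=
  if b then (if k = 1 then 1 else 4) else (if k = 0 then 1 else 4)

/-- the ratio of the widths, seen from `b` -/
def crt (b : Bool) (k : ℕ) : ℝ := cwd b k / cwd (!b) k

theorem crt_pos (b : Bool) (k : ℕ) : 0 < crt b k := div_pos (cwd_pos _ _) (cwd_pos _ _)

theorem csa_pos (b : Bool) (k : ℕ) : 0 < csa b k := by
  unfold csa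
  split_ifs <;> norm_num

/-- a scale at the vertices -/
def css (n : ℕ) : (Fin (n + 2) × Bool × Fin 2) × Fin 3 → ℝ
  | ((k, b, 0), 0) => csa b k
  | ((k, b, 0), 1) => csa (!b) k * crt (!b) k
  | ((k, b, 0), 2) => csa b k * crt b k
  | ((k, b, 1), 0) => csa b k
  | ((k, b, 1), 1) => csa b k * crt b k
  | ((k, b, 1), 2) => csa (!b) k * crt (!b) k ^ 2

theorem css_pos (n : ℕ) : ∀ x, 0 < css n x
  | ((_, _, 0), 0) => csa_pos _ _
  | ((_, _, 0), 1) => mul_pos (csa_pos _ _) (crt_pos _ _)
  | ((_, _, 0), 2) => mul_pos (csa_pos _ _) (crt_pos _ _)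
  | ((_, _, 1), 0) => csa_pos _ _
  | ((_, _, 1), 1) => mul_pos (csa_pos _ _) (crt_pos _ _)
  | ((_, _, 1), 2) => mul_pos (csa_pos _ _) (pow_pos (crt_pos _ _) 2)

theorem csa_true (n : ℕ) (k : Fin (n + 2)) :
    csa true k * crt true k ^ 2 = csa true (finRotate (n + 2) k) := by
  have h := cfr_val n k
  have hk := k.2
  rw [h]
  have e : crt true k = (cwm k)⁻¹ := by simp [crt, cwd]
  rw [e]
  by_cases h0 : k.1 = 0
  · have h1 : ¬ k.1 = n + 1 := by omega
    rw [if_neg h1, h0]
    simp [csa, cwm]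
    norm_num
  · by_cases h1 : k.1 = 1
    · by_cases h2 : k.1 = n + 1
      · rw [if_pos h2, h1]
        simp [csa, cwm]
        norm_num
      · rw [if_neg h2, h1]
        simp [csa, cwm]
        norm_num
    · by_cases h2 : k.1 = n + 1
      · rw [if_pos h2]
        simp [csa, cwm, h0, h1]
      · rw [if_neg h2]
        have h3 : ¬ k.1 + 1 = 1 := by omega
        simp [csa, cwm, h0, h1]

theorem csa_false (n : ℕ) (k : Fin (n + 2)) :
    csa false (finRotate (n + 2) k) * crt false (finRotate (n + 2) k) ^ 2 = csa false k := by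
  have h := cfr_val n k
  have hk := k.2
  have e : ∀ j, crt false j = cwm j := by intro j; simp [crt, cwd]
  rw [e, h]
  by_cases h2 : k.1 = n + 1
  · have h3 : ¬ k.1 = 0 := by omega
    rw [if_pos h2]
    simp [csa, cwm, h3]
    norm_num
  · rw [if_neg h2]
    by_cases h0 : k.1 = 0
    · rw [h0]
      simp [csa, cwm]
      norm_num
    · have h3 : ¬ k.1 + 1 = 1 := by omega
      have h4 : ¬ k.1 + 1 = 0 := by omega
      simp [csa, cwm, h0]

theorem csa_step (n : ℕ) (b : Bool) (k : Fin (n + 2)) :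
    csa b (cst n b k) * crt b (cst n b k) ^ 2 = csa b k := by
  cases b
  · have e : cst n false k = finRotate (n + 2) k := by simp [cst]
    rw [e]
    exact csa_false n k
  · have e : cst n true k = (finRotate (n + 2)).symm k := by simp [cst]
    rw [e, csa_true]
    simp

theorem cs_scale (n : ℕ) : ∀ x : D (cX n),
    css n ((rot (cX n)) x) * (cX n).mu (pv x) = css n x
  | ((k, b, 0), 0) => by
    show csa b k * 1 = csa b k
    rw [mul_one]
  | ((k, b, 0), 1) => by
    show csa (!b) k * (cwd (!b) k / cwd b k) = csa (!b) k * (cwd (!b) k / cwd (!!b) k)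
    rw [Bool.not_not]
  | ((k, b, 0), 2) => by
    show csa (!!b) k * crt (!!b) k * 1 = csa b k * crt b k
    rw [Bool.not_not, mul_one]
  | ((k, b, 1), 0) => by
    show csa (!!b) (cst n b k) * crt (!!b) (cst n b k) ^ 2 * 1 = csa b k
    rw [Bool.not_not, mul_one, csa_step]
  | ((k, b, 1), 1) => by
    show csa b k * crt b k * 1 = csa b k * crt b k
    rw [mul_one]
  | ((k, b, 1), 2) => by
    show csa (!b) k * crt (!b) k * (cwd (!b) k / cwd b k) = csa (!b) k * crt (!b) k ^ 2
    have e : crt (!b) k = cwd (!b) k / cwd b k := by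
      unfold crt
      rw [Bool.not_not]
    rw [← e]
    ring

theorem cs_hol (n : ℕ) (x : D (cX n)) (m : ℕ) :
    (∏ k ∈ range m, (cX n).mu (pv (((rot (cX n)) ^ k) x))) *
      css n (((rot (cX n)) ^ m) x) = css n x := by
  induction m with
  | zero => simp
  | succ m ih =>
    rw [prod_range_succ, pow_succ', Equiv.Perm.mul_apply]
    have h1 := cs_scale n (((rot (cX n)) ^ m) x)
    rw [← ih, ← h1]
    ring

/-! ### the angles -/

theorem cth01 (n : ℕ) (k : Fin (n + 2)) (b : Bool) :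
    th (X := cX n) ((k, b, 0), 1) = Real.pi / 2 := by
  show Complex.arg (-(sg b * (cwd b k : ℂ)) / (sg b * Complex.I)) = Real.pi / 2
  have h := cwd_pos b k
  have hs : sg b ≠ 0 := by cases b <;> simp [sg]
  have e : -(sg b * (cwd b k : ℂ)) / (sg b * Complex.I) = (cwd b k : ℂ) * Complex.I := by
    have hI := Complex.I_ne_zero
    field_simp
    rw [Complex.I_sq]
    ring
  rw [e, Complex.arg_real_mul _ h, Complex.arg_I]

theorem cth12 (n : ℕ) (k : Fin (n + 2)) (b : Bool) :
    th (X := cX n) ((k, b, 1), 2) = Real.pi / 2 := by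
  show Complex.arg (-(-(sg b * (cwd b k : ℂ))) / (-(sg b * Complex.I))) = Real.pi / 2
  have h := cwd_pos b k
  have hs : sg b ≠ 0 := by cases b <;> simp [sg]
  have e : -(-(sg b * (cwd b k : ℂ))) / (-(sg b * Complex.I)) = (cwd b k : ℂ) * Complex.I := by
    have hI := Complex.I_ne_zero
    field_simp
    rw [Complex.I_sq]
    ring
  rw [e, Complex.arg_real_mul _ h, Complex.arg_I]

theorem cth0 (n : ℕ) (k : Fin (n + 2)) (b : Bool) :
    th (X := cX n) ((k, b, 0), 0) + th (X := cX n) ((k, b, 0), 2) = Real.pi / 2 := by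
  have hT : th (X := cX n) ((k, b, 0), 0) + th (X := cX n) ((k, b, 0), 1) +
    th (X := cX n) ((k, b, 0), 2) = Real.pi := P_TRI P_TH (cX n) ((k, b, 0), 0)
  rw [cth01] at hT
  linarith

theorem cth1 (n : ℕ) (k : Fin (n + 2)) (b : Bool) :
    th (X := cX n) ((k, b, 1), 0) + th (X := cX n) ((k, b, 1), 1) = Real.pi / 2 := by
  have hT : th (X := cX n) ((k, b, 1), 0) + th (X := cX n) ((k, b, 1), 1) +
    th (X := cX n) ((k, b, 1), 2) = Real.pi := P_TRI P_TH (cX n) ((k, b, 1), 0)
  rw [cth12] at hT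
  linarith

theorem c_tot (n : ℕ) (x : D (cX n)) : tot x = 2 * Real.pi * (n + 2 : ℕ) := by
  classical
  unfold tot
  have h1 : (univ.filter fun y => (rot (cX n)).SameCycle x y) =
      univ.filter fun y : D (cX n) => ccl n x = ccl n y := by
    ext y
    simp only [mem_filter, mem_univ, true_and]
    exact csc_iff n x y
  have h2 : ∀ c : Bool, ∑ y ∈ univ.filter (fun y : D (cX n) => c = ccl n y), th y =
      2 * Real.pi * (n + 2 : ℕ) := by
    intro c
    rw [sum_filter]
    have h3 : ∑ y : (Fin (n + 2) × Bool × Fin 2) × Fin 3,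
        (if c = ccl n y then th (X := cX n) y else 0) =
        ∑ k : Fin (n + 2), ∑ q : Bool × Fin 2, ∑ i : Fin 3,
          (if c = ccl n ((k, q), i) then th (X := cX n) ((k, q), i) else 0) := by
      rw [Fintype.sum_prod_type, Fintype.sum_prod_type]
      rfl
    have h4 : ∀ k : Fin (n + 2), ∑ q : Bool × Fin 2, ∑ i : Fin 3,
          (if c = ccl n ((k, q), i) then th (X := cX n) ((k, q), i) else 0) =
          2 * Real.pi := by
      intro k
      rw [Fintype.sum_prod_type, Fintype.sum_bool]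
      simp only [Fin.sum_univ_two, Fin.sum_univ_three]
      have a1 := cth0 n k c
      have a2 := cth1 n k c
      have a3 := cth01 n k (!c)
      have a4 := cth12 n k (!c)
      cases c
      · simp only [ccl, Bool.not_true, Bool.not_false, Bool.false_eq_true, if_true,
          if_false] at a3 a4 ⊢
        linarith
      · simp only [ccl, Bool.not_true, Bool.not_false, Bool.false_eq_true, if_true, if_false,
          reduceCtorEq] at a3 a4 ⊢
        linarith
    refine h3.trans ?_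
    rw [sum_congr rfl (fun k _ => h4 k), sum_const, card_univ, Fintype.card_fin, nsmul_eq_mul]
    ring
  have h5 := h2 (ccl n x)
  rw [← h1] at h5
  convert h5

/-! ### connectedness -/

/-- neighbours -/
def cnb (n : ℕ) (a c : (cX n).F) : Prop := ∃ i j, (cX n).glue (a, i) = (c, j)

theorem cnb_symm (n : ℕ) {a c : (cX n).F} (h : cnb n a c) : cnb n c a := by
  obtain ⟨i, j, h⟩ := h
  exact ⟨j, i, by rw [← h, (cX n).glue_glue]⟩

theorem cnb_symm' (n : ℕ) {a c : (cX n).F} (h : Relation.ReflTransGen (cnb n) a c) :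
    Relation.ReflTransGen (cnb n) c a := by
  induction h with
  | refl => exact Relation.ReflTransGen.refl
  | tail _ h2 ih => exact Relation.ReflTransGen.head (cnb_symm n h2) ih

theorem cconn1 (n : ℕ) (k : Fin (n + 2)) : ∀ (b : Bool) (t : Fin 2),
    Relation.ReflTransGen (cnb n) (k, b, t) (k, true, 1)
  | true, 1 => Relation.ReflTransGen.refl
  | true, 0 => Relation.ReflTransGen.single ⟨2, 0, rfl⟩
  | false, 1 => Relation.ReflTransGen.single ⟨1, 1, rfl⟩
  | false, 0 => (Relation.ReflTransGen.single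
      (⟨0, 0, rfl⟩ : cnb n (k, false, 0) (k, true, 0))).tail ⟨2, 0, rfl⟩

theorem cconn2 (n : ℕ) (k : ℕ) (hk : k < n + 2) :
    Relation.ReflTransGen (cnb n) (⟨k, hk⟩, true, 1) (0, true, 1) := by
  induction k with
  | zero => exact Relation.ReflTransGen.refl
  | succ k ih =>
    have h1 : cnb n (⟨k, by omega⟩, false, 1) (⟨k + 1, hk⟩, true, 1) := by
      refine ⟨2, 2, ?_⟩
      show ((cst n false ⟨k, by omega⟩, !false, (1 : Fin 2)), (2 : Fin 3)) =
        ((⟨k + 1, hk⟩, true, 1), 2)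
      have e : cst n false ⟨k, by omega⟩ = ⟨k + 1, hk⟩ := by
        apply Fin.ext
        show (finRotate (n + 2) ⟨k, by omega⟩).1 = k + 1
        rw [cfr_val, if_neg (by show ¬ k = n + 1; omega)]
      rw [e]
      rfl
    have h2 := cconn1 n ⟨k, by omega⟩ false 1
    exact (Relation.ReflTransGen.head (cnb_symm n h1) h2).trans (ih (by omega))

theorem c_aff (n : ℕ) : IsAffine (cX n) where
  conn f g := by
    have h0 : ∀ f : (cX n).F, Relation.ReflTransGen (cnb n) f (0, true, 1) := by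
      rintro ⟨k, b, t⟩
      exact (cconn1 n k b t).trans (cconn2 n k.1 k.2)
    exact (h0 f).trans (cnb_symm' n (h0 g))
  nonempty := ⟨(0, true, 0)⟩
  hol x m hm := by
    have h := cs_hol n x m
    rw [hm] at h
    have hp := css_pos n x
    exact (mul_eq_right₀ hp.ne').1 h
  cone x := ⟨n + 2, by omega, c_tot n x⟩

/-! ### the pieces -/

/-- the involution -/
def cio (n : ℕ) (_ : Fin (n + 2)) (f : Fin (n + 2) × Bool × Fin 2) :
    Fin (n + 2) × Bool × Fin 2 := (f.1, !f.2.1, f.2.2)

/-- the rank -/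
def crk (n : ℕ) (_ : Fin (n + 2)) : (Fin (n + 2) × Bool × Fin 2) × Fin 3 → ℕ
  | ((_, _, 0), 0) => 0
  | ((_, _, 0), 1) => 0
  | ((_, _, 0), 2) => 1
  | ((_, _, 1), 0) => 1
  | ((_, _, 1), 1) => 0
  | ((_, _, 1), 2) => 0

/-- the triangles of the square `j` -/
def cR (n : ℕ) (j : Fin (n + 2)) : Set (Fin (n + 2) × Bool × Fin 2) :=
  {f | f.1 = j ∧ f.2.1 = true}

theorem c_piece (n : ℕ) (j : Fin (n + 2)) :
    Piece (cX n) (cio n j) (crk n j) (cR n j) ((j, true, 1), 2) where
  mem := ⟨rfl, rfl⟩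
  inj := by
    rintro ⟨k, b, t⟩ ⟨h1, h2⟩ ⟨k', b', t'⟩ ⟨h3, h4⟩ h
    simp only at h1 h2 h3 h4
    subst h1 h2 h3 h4
    have h5 := congrArg (fun f => f.2.2) h
    simp only [cio] at h5
    rw [h5]
  dis := by
    rintro ⟨k, b, t⟩ ⟨h1, h2⟩ ⟨h3, h4⟩
    simp only [cio] at h2 h4
    rw [h2] at h4
    exact absurd h4 (by decide)
  alt := by
    have key : ∀ y : (Fin (n + 2) × Bool × Fin 2) × Fin 3, y.1.1 = j → y.1.2.1 = true →
        y ≠ ((j, true, 1), 2) → cgl n y = jj (X := cX n) (cio n j) y ∨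
        ((cgl n y).1 ∈ cR n j ∧ cgl n y ≠ ((j, true, 1), 2) ∧
          cgl n (jj (X := cX n) (cio n j) y) = jj (X := cX n) (cio n j) (cgl n y) ∧
          crk n j (nx (X := cX n) (cgl n y)) < crk n j y ∧
          crk n j (pv (X := cX n) (cgl n y)) < crk n j y) := by
      intro y h1 h2 h3
      match y, h1, h2, h3 with
      | ((k, b, 0), 0), h1, h2, h3 => exact Or.inl rfl
      | ((k, b, 0), 1), h1, h2, h3 => exact Or.inl rfl
      | ((k, b, 0), 2), h1, h2, h3 =>
        right
        refine ⟨⟨h1, h2⟩, ?_, rfl, ?_, ?_⟩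
        · intro h
          have h5 := congrArg (fun y => y.2) h
          simp [cgl] at h5
        · show (0 : ℕ) < 1
          exact one_pos
        · show (0 : ℕ) < 1
          exact one_pos
      | ((k, b, 1), 0), h1, h2, h3 =>
        right
        refine ⟨⟨h1, h2⟩, ?_, rfl, ?_, ?_⟩
        · intro h
          have h5 := congrArg (fun y => y.1.2.2) h
          simp [cgl] at h5
        · show (0 : ℕ) < 1
          exact one_pos
        · show (0 : ℕ) < 1
          exact one_pos
      | ((k, b, 1), 1), h1, h2, h3 => exact Or.inl rfl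
      | ((k, b, 1), 2), h1, h2, h3 =>
        exfalso
        apply h3
        simp only at h1 h2
        rw [h1, h2]
    intro y hy hne
    exact key y hy.1 hy.2 hne
  conn := by
    intro T _ h0 hcl
    have h1 : ((j, true, 0) : (cX n).F) ∈ T := by
      have := hcl ((j, true, 1), 0) h0 ⟨rfl, rfl⟩
      exact this
    rintro ⟨k, b, t⟩ ⟨h2, h3⟩
    simp only at h2 h3
    subst h2 h3
    match t with
    | 0 => exact h1
    | 1 => exact h0

theorem c_inPiece (n : ℕ) (f : (cX n).F) (j : Fin (n + 2))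
    (h : InPiece (cio n) (cR n) f j) : f.1 = j := by
  rcases h with h | ⟨g, h, rfl⟩
  · exact h.1
  · exact h.1

theorem c_pieces (n : ℕ) : Pieces (cX n) (Fin (n + 2)) (cio n) (crk n) (cR n)
    (fun j => ((j, true, 1), 2)) where
  piece j := c_piece n j
  cover := by
    rintro ⟨k, b, t⟩
    refine ⟨k, ?_⟩
    cases b
    · exact Or.inr ⟨(k, true, t), ⟨rfl, rfl⟩, rfl⟩
    · exact Or.inl ⟨rfl, rfl⟩
  disj := fun f i j hi hj => (c_inPiece n f i hi).symm.trans (c_inPiece n f j hj)

/-- Target NONV2. -/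
theorem P_NONV2 : T_NONV2 := by
  intro g hg
  obtain ⟨n, rfl⟩ : ∃ n, g = n + 2 := ⟨g - 2, by omega⟩
  refine ⟨cX n, cio n, crk n, cR n, fun j => ((j, true, 1), 2), c_pieces n, c_aff n, ?_, ?_⟩
  · have h1 : numV (cX n) = 2 := cnumV n
    have h3 : Fintype.card (cX n).F = (n + 2) * 4 := by
      show Fintype.card (Fin (n + 2) × Bool × Fin 2) = (n + 2) * 4
      rw [Fintype.card_prod, Fintype.card_prod, Fintype.card_fin, Fintype.card_bool,
        Fintype.card_fin]
    have h2 : Fintype.card (D (cX n)) = (n + 2) * 4 * 3 := by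
      rw [Fintype.card_prod, h3, Fintype.card_fin]
    unfold HasGenus
    rw [h1, h2, h3]
    omega
  · rintro ⟨c, hc, h⟩
    have hp := hc (0, true, 0)
    have h1 : c (0, false, 0) * (2 / 1) = c (0, true, 0) := by
      have h2 := h ((0, true, 0), 0)
      have e : (cX n).mu ((0, true, 0), 0) = 2 / 1 := by
        show cwd (!true) ((0 : Fin (n + 2)) : ℕ) / cwd true ((0 : Fin (n + 2)) : ℕ) = 2 / 1
        simp [cwd, cwm]
      rw [e] at h2
      exact h2
    have h2 : c (0, false, 0) * 1 = c (0, true, 0) := h ((0, true, 0), 1)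
    linarith

end Pool.Agent.HYE
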