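import Pool.Agent.HYE.Defs

/-!
# HYE: the targets (proofs in Blueprint.lean.txt)
-/

set_option autoImplicit false

open Finset

noncomputable section

namespace Pool.Agent.HYE

open Pool.Agent.GTW

/-- EXIT. The trajectory enters the part `T` through the side `a` immediately to the right of the
vertex `l 0`, in the direction `ψ`; it leaves `T` after finitely many triangles. -/
def T_EXIT : Prop := ∀ (S : TS) (a : S.L) (T : Set S.L), Cap S a T → ∀ ψ l0 : ℂ,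
  0 < crs ψ (S.e a) → ∃ (N : ℕ) (lab : ℕ → S.L) (l r : ℕ → ℂ),
    Gal S a N lab l r ∧ l 0 = l0 ∧ Hug ψ N l r

open Classical in
/-- The number of the end points, on the side `y` (in both copies), of the `N` segments of the
trajectory: the segment number `i` enters its triangle through `cr (lab i)` and leaves it through
`lab (i + 1)`. -/
def cN (S : TS) (N : ℕ) (lab : ℕ → S.L) (y : S.L) : ℕ :=
  ∑ i ∈ range N, ((if S.cr (lab i) = y ∨ S.cr (lab i) = S.J y then 1 else 0) +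
    (if lab (i + 1) = y ∨ lab (i + 1) = S.J y then 1 else 0))

open Classical in
/-- the number of the end points on the side `y` of the line at the distance `h0` from `l 0`, at
a distance `< τ` from the start of `y` (distances are measured by `crs ψ`) -/
def cS (S : TS) (N : ℕ) (lab : ℕ → S.L) (l r : ℕ → ℂ) (ψ : ℂ) (h0 : ℝ) (y : S.L) (τ : ℝ) : ℕ :=
  ∑ i ∈ range N, ((if (S.cr (lab i) = y ∨ S.cr (lab i) = S.J y) ∧
      h0 + crs ψ (l i - l 0) < τ then 1 else 0) +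
    (if (lab (i + 1) = y ∨ lab (i + 1) = S.J y) ∧
      -crs ψ (r (i + 1) - l 0) - h0 < τ then 1 else 0))

open Classical in
/-- the same for the distance from the end of `y` -/
def cE (S : TS) (N : ℕ) (lab : ℕ → S.L) (l r : ℕ → ℂ) (ψ : ℂ) (h0 : ℝ) (y : S.L) (τ : ℝ) : ℕ :=
  ∑ i ∈ range N, ((if (S.cr (lab i) = y ∨ S.cr (lab i) = S.J y) ∧
      -crs ψ (r i - l 0) - h0 < τ then 1 else 0) +
    (if (lab (i + 1) = y ∨ lab (i + 1) = S.J y) ∧
      h0 + crs ψ (l (i + 1) - l 0) < τ then 1 else 0))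

/-- EVEN. The number of end points is even on every side in `T`. -/
def T_EVEN : Prop := ∀ (S : TS) (a : S.L) (T : Set S.L), Cap S a T →
  ∀ (N : ℕ) (lab : ℕ → S.L) (l r : ℕ → ℂ) (ψ : ℂ), Gal S a N lab l r → Hug ψ N l r →
  ∀ y ∈ T, Even (cN S N lab y)

/-- TRI. The segments of the line `h0` do not cross a parallel segment that joins the sides `y`
and `nx y` at the distance `d` from their common vertex. -/
def T_TRI : Prop := ∀ (S : TS) (a : S.L) (N : ℕ) (lab : ℕ → S.L) (l r : ℕ → ℂ) (ψ : ℂ),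
  Gal S a N lab l r → Hug ψ N l r → ∀ h0 : ℝ, 0 < h0 → (∀ i ≤ N, h0 < -crs ψ (r i - l 0)) →
  ∀ (y : S.L) (d : ℝ), 0 < d →
  (d < -crs ψ (S.e y) ∧ d < crs ψ (S.e (S.nx y)) ∨
    d < crs ψ (S.e y) ∧ d < -crs ψ (S.e (S.nx y))) →
  cE S N lab l r ψ h0 y d = cS S N lab l r ψ h0 (S.nx y) d

/-- CROSS. Both sides of an edge in the interior of the part carry the same end points. -/
def T_CROSS : Prop := ∀ (S : TS) (a : S.L) (N : ℕ) (lab : ℕ → S.L) (l r : ℕ → ℂ) (ψ : ℂ),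
  Gal S a N lab l r → ∀ (h0 : ℝ) (y : S.L), y ≠ a → y ≠ S.J a → y ≠ S.cr a →
  y ≠ S.J (S.cr a) → ∀ τ : ℝ,
  cS S N lab l r ψ h0 y τ = cE S N lab l r ψ h0 (S.cr y) τ

/-- COMP. The distances from the two ends. `w` = the length of `y`. -/
def T_COMP : Prop := ∀ (S : TS) (a : S.L) (N : ℕ) (lab : ℕ → S.L) (l r : ℕ → ℂ) (ψ : ℂ),
  Gal S a N lab l r → Hug ψ N l r → ∀ (h0 : ℝ) (y : S.L) (w τ : ℝ),
  (w = crs ψ (S.e y) ∨ w = -crs ψ (S.e y)) → 0 < w →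
  (∀ i ≤ N, h0 + crs ψ (l i - l 0) ≠ τ) → (∀ i ≤ N, -crs ψ (r i - l 0) - h0 ≠ τ) →
  cS S N lab l r ψ h0 y τ + cE S N lab l r ψ h0 y (w - τ) = cN S N lab y

/-- PARITY. The exit `r N` is the right vertex which is the nearest to the line. -/
def T_PAR : Prop := ∀ (S : TS) (a : S.L) (T : Set S.L), Cap S a T →
  ∀ (N : ℕ) (lab : ℕ → S.L) (l r : ℕ → ℂ) (ψ : ℂ), Gal S a N lab l r → Hug ψ N l r →
  ∀ i ≤ N, crs ψ (r i - r N) ≤ 0

/-- PAL. The gallery is symmetric about its midpoint. -/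
def T_PAL : Prop := ∀ (S : TS) (a : S.L) (N : ℕ) (lab : ℕ → S.L) (l r : ℕ → ℂ) (ψ : ℂ),
  Gal S a N lab l r → Hug ψ N l r → (∀ i ≤ N, crs ψ (r i - r N) ≤ 0) →
  ∀ i ≤ N, S.cr (lab (N - i)) = S.J (lab i) ∧ l (N - i) + r i = l 0 + r N ∧
    r (N - i) + l i = l 0 + r N

/-- MONO. The points in which the edges cross a ray from `x` (direction `d`) that has all the left
vertices on the left or on it, all the right vertices on the right or on it: the distances (times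
the cross products) do not decrease. -/
def T_MONO : Prop := ∀ (N : ℕ) (l r : ℕ → ℂ), PG N l r → ∀ x d : ℂ,
  (∀ i ≤ N, 0 ≤ crs d (l i - x)) → (∀ i ≤ N, crs d (r i - x) ≤ 0) →
  (∀ i ≤ N, 0 < crs d (l i - r i)) → ∀ i j : ℕ, i ≤ j → j ≤ N →
  crs (l i - r i) (x - r i) / crs d (l i - r i) ≤ crs (l j - r j) (x - r j) / crs d (l j - r j)

/-- WEDGE. Seen from a point `x` of the line behind `l 0`, no right vertex is to the left of the
last one. -/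
def T_WED : Prop := ∀ (N : ℕ) (l r : ℕ → ℂ) (ψ : ℂ), PG N l r → Hug ψ N l r →
  l N - r N = l 0 - r 0 → (∀ i ≤ N, crs ψ (r i - r N) ≤ 0) →
  ∀ t : ℝ, 0 < t → ∀ i ≤ N, crs (r N - (l 0 - t * ψ)) (r i - (l 0 - t * ψ)) ≤ 0

/-- LINE. A ray from a point `x` behind the first edge, with all left vertices on the left and all
right vertices on the right, crosses the edges one after the other, in interior points. -/
def T_LINE : Prop := ∀ (N : ℕ) (l r : ℕ → ℂ), PG N l r → ∀ x d : ℂ,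
  (∀ i ≤ N, 0 < crs d (l i - x)) → (∀ i ≤ N, crs d (r i - x) < 0) →
  0 < crs (l 0 - r 0) (x - r 0) → ∃ θ u : ℕ → ℝ,
    (∀ i ≤ N, 0 < θ i ∧ θ i < 1 ∧ r i + θ i * (l i - r i) = x + u i * d) ∧ 0 < u 0 ∧
    (∀ i < N, u i < u (i + 1)) ∧ (crs (l N - r N) (x + d - r N) < 0 → u N < 1)

/-- CAP. -/
def T_CAP : Prop := ∀ (X : Glued) (ι : X.F → X.F) (rk : D X → ℕ) (h : Hyp X ι rk)
  (hn : Nrm X ι) (m : ℝ) (y0 : D X) (T : Set X.F), Sym X ι m y0 T →
  Cap (ts X ι rk h hn) (y0, true) {x | x.1.1 ∈ T}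

/-- MEM. All the sides of the gallery after the first one are in `T`. -/
def T_MEM : Prop := ∀ (S : TS) (a : S.L) (T : Set S.L), Cap S a T →
  ∀ (N : ℕ) (lab : ℕ → S.L) (l r : ℕ → ℂ) (ψ : ℂ), Gal S a N lab l r → Hug ψ N l r →
  ∀ i, 1 ≤ i → i ≤ N → lab i ∈ T

/-- FB: the summary of EXIT, PAR, PAL, WED for a symmetric part. -/
def T_FB : Prop := ∀ (X : Glued) (ι : X.F → X.F) (rk : D X → ℕ) (h : Hyp X ι rk)
  (hn : Nrm X ι) (m : ℝ) (y0 : D X) (T : Set X.F), Sym X ι m y0 T → ∀ l0 ψ : ℂ,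
  0 < crs ψ (X.v y0) → ∃ (N : ℕ) (lab : ℕ → D X × Bool) (l r : ℕ → ℂ),
  Gal (ts X ι rk h hn) (y0, true) N lab l r ∧ (∀ i, 1 ≤ i → i ≤ N → (lab i).1.1 ∈ T) ∧
  l 0 = l0 ∧ l 0 - r 0 = X.v y0 ∧ l N - r N = X.v y0 ∧ Hug ψ N l r ∧ PG N l r ∧
  (∀ i ≤ N, l (N - i) + r i = l 0 + r N ∧ r (N - i) + l i = l 0 + r N) ∧
  ∀ t : ℝ, 0 < t → ∀ i ≤ N, crs (r N - (l 0 - t * ψ)) (r i - (l 0 - t * ψ)) ≤ 0

/-- PASS. A path through a symmetric part, from the side `y0` of one copy to the side `y0` of the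
other copy. -/
def T_PASS : Prop := ∀ (X : Glued) (ι : X.F → X.F) (rk : D X → ℕ) (h : Hyp X ι rk)
  (hn : Nrm X ι) (m : ℝ) (y0 : D X) (T : Set X.F), 0 < m → Sym X ι m y0 T →
  ∀ (N : ℕ) (lab : ℕ → D X × Bool) (l r : ℕ → ℂ),
  Gal (ts X ι rk h hn) (y0, true) N lab l r →
  (∀ i, 1 ≤ i → i ≤ N → (lab i).1.1 ∈ T) → ∀ (d : ℂ) (θ u : ℕ → ℝ),
  (∀ i ≤ N, 0 < θ i ∧ θ i < 1) →
  (∀ i < N, 0 < u i ∧
    r (i + 1) + θ (i + 1) * (l (i + 1) - r (i + 1)) - (r i + θ i * (l i - r i)) = u i * d) →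
  ∀ (x : D X) (t k : ℝ), x.1 = y0.1 → x ≠ y0 → 0 < t → t < 1 → 0 < k →
  (pt y0 (θ 0) - pt x t = k * d → Pth d (x, t) (jj ι y0, 1 - θ N) m) ∧
  (pt (jj ι y0) (θ 0) - pt (jj ι x) t = -(k * d) →
    Pth (-d) (jj ι x, t) (y0, 1 - θ N) m⁻¹)

/-- CORE. Two parts behind two sides `y`, `nx y` of a triangle, with different factors. -/
def T_CORE : Prop := ∀ (X : Glued) (ι : X.F → X.F) (rk : D X → ℕ), Hyp X ι rk → Nrm X ι →
  ∀ (m1 m2 : ℝ) (y : D X) (T1 T2 : Set X.F), 0 < m1 → 0 < m2 → m1 ≠ m2 →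
  Sym X ι m1 y T1 → Sym X ι m2 (nx y) T2 → HasHyperbolic X

/-- MAIN, for normalised surfaces -/
def T_MAIN : Prop := ∀ (X : Glued) (ι : X.F → X.F) (rk : D X → ℕ), Hyp X ι rk → Nrm X ι →
  HasHyperbolic X ∨ IsTranslation X

/-- NORM: the normalisation -/
def T_NORM : Prop := ∀ (X : Glued) (ι : X.F → X.F) (rk : D X → ℕ), Hyp X ι rk →
  ∃ (Y : Glued) (κ : Y.F → Y.F) (rk' : D Y → ℕ), Hyp Y κ rk' ∧ Nrm Y κ ∧
    (HasHyperbolic Y → HasHyperbolic X) ∧ (IsTranslation Y → IsTranslation X)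

end Pool.Agent.HYE
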