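import Pool.Agent.HYE.Defs

/-!
# HYE: examples
-/

set_option autoImplicit false

noncomputable section

namespace Pool.Agent.HYE

open Pool.Agent.GTW

/-- NONV: examples of every genus `≥ 2` -/
def T_NONV : Prop := ∀ g : ℕ, 2 ≤ g → ∃ (X : Glued) (ι : X.F → X.F) (rk : D X → ℕ),
  Hyp X ι rk ∧ IsAffine X ∧ HasGenus X g ∧ ¬ IsTranslation X

end Pool.Agent.HYE
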